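import Mathlib

/-!
Deterministic transitions with a random seed give a randomized streaming automaton.
-/

set_option autoImplicit false

namespace Pool.Agent.H29.Stream

open Classical in
/-- A seed chosen uniformly from `Ω` and a deterministic transition function, packaged as a
randomized automaton with `card Ω * card Σ` states. -/
theorem automaton {Ω St : Type} [Fintype Ω] [Nonempty Ω] [Fintype St] [Nonempty St]
    (init : Ω → St) (step : Ω → St → ℕ × ℕ → St) (out : Ω → St → ℝ) :
    ∃ (μ0 : PMF (Fin (Fintype.card Ω * Fintype.card St)))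
      (δ : Fin (Fintype.card Ω * Fintype.card St) → ℕ × ℕ →
        PMF (Fin (Fintype.card Ω * Fintype.card St)))
      (out' : Fin (Fintype.card Ω * Fintype.card St) → ℝ),
      ∀ (l : List (ℕ × ℕ)) (G : Set ℝ),
        3 * (Finset.univ.filter
          (fun ω : Ω => out ω (l.foldl (step ω) (init ω)) ∉ G)).card ≤ Fintype.card Ω →
        (2 / 3 : ENNReal) ≤
          (l.foldl (fun μ p => μ.bind (fun q => δ q p)) μ0).toOuterMeasure
            {q | out' q ∈ G} := by
  classical
  have hcard : Fintype.card (Ω × St) = Fintype.card Ω * Fintype.card St :=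
    Fintype.card_prod _ _
  let e : Ω × St ≃ Fin (Fintype.card Ω * Fintype.card St) :=
    (Fintype.equivFin (Ω × St)).trans (finCongr hcard)
  let μ : PMF Ω := PMF.uniformOfFintype Ω
  refine ⟨μ.map (fun ω => e (ω, init ω)),
    fun q p => PMF.pure (e ((e.symm q).1, step (e.symm q).1 (e.symm q).2 p)),
    fun q => out (e.symm q).1 (e.symm q).2, ?_⟩
  intro l G hG
  have key : ∀ l : List (ℕ × ℕ), ∀ s : Ω → St,
      l.foldl (fun μ p => μ.bind (fun q =>
        PMF.pure (e ((e.symm q).1, step (e.symm q).1 (e.symm q).2 p))))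
        (μ.map (fun ω => e (ω, s ω)))
      = μ.map (fun ω => e (ω, l.foldl (step ω) (s ω))) := by
    intro l
    induction l with
    | nil => intro s; rfl
    | cons p l ih =>
      intro s
      rw [List.foldl_cons]
      have h1 : (μ.map (fun ω => e (ω, s ω))).bind (fun q =>
          PMF.pure (e ((e.symm q).1, step (e.symm q).1 (e.symm q).2 p)))
          = μ.map (fun ω => e (ω, step ω (s ω) p)) := by
        rw [PMF.bind_map]
        simp only [Function.comp_def, Equiv.symm_apply_apply]
        rfl
      rw [h1, ih (fun ω => step ω (s ω) p)]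
      rfl
  rw [key l init, PMF.toOuterMeasure_map_apply]
  have hpre : (fun ω => e (ω, l.foldl (step ω) (init ω))) ⁻¹'
      {q | out (e.symm q).1 (e.symm q).2 ∈ G}
      = {ω : Ω | out ω (l.foldl (step ω) (init ω)) ∈ G} := by
    ext ω
    simp
  rw [hpre]
  have hu := PMF.toOuterMeasure_uniformOfFintype_apply (α := Ω)
    (s := {ω : Ω | out ω (l.foldl (step ω) (init ω)) ∈ G})
  rw [hu]
  have hc : Fintype.card {ω : Ω | out ω (l.foldl (step ω) (init ω)) ∈ G}
      = (Finset.univ.filter (fun ω : Ω => out ω (l.foldl (step ω) (init ω)) ∈ G)).card := by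
    rw [Fintype.card_subtype]
    rfl
  have hsum : (Finset.univ.filter (fun ω : Ω => out ω (l.foldl (step ω) (init ω)) ∈ G)).card
      + (Finset.univ.filter (fun ω : Ω => out ω (l.foldl (step ω) (init ω)) ∉ G)).card
      = Fintype.card Ω := by
    rw [Finset.card_filter_add_card_filter_not]
    rfl
  have hpos : 0 < Fintype.card Ω := Fintype.card_pos
  have h2 : 2 * Fintype.card Ω
      ≤ 3 * Fintype.card {ω : Ω | out ω (l.foldl (step ω) (init ω)) ∈ G} := by
    rw [hc]; omega
  rw [ENNReal.le_div_iff_mul_le (Or.inl (by exact_mod_cast hpos.ne'))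
    (Or.inl (ENNReal.natCast_ne_top _))]
  rw [ENNReal.div_eq_inv_mul, mul_assoc]
  have h3 : (2 : ENNReal) * (Fintype.card Ω : ENNReal)
      ≤ 3 * (Fintype.card {ω : Ω | out ω (l.foldl (step ω) (init ω)) ∈ G} : ENNReal) := by
    exact_mod_cast h2
  calc (3 : ENNReal)⁻¹ * (2 * (Fintype.card Ω : ENNReal))
      ≤ 3⁻¹ * (3 * (Fintype.card {ω : Ω | out ω (l.foldl (step ω) (init ω)) ∈ G} : ENNReal)) := by
        gcongr
    _ = (Fintype.card {ω : Ω | out ω (l.foldl (step ω) (init ω)) ∈ G} : ENNReal) := by
        rw [← mul_assoc, ENNReal.inv_mul_cancel (by norm_num) (by norm_num), one_mul]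

end Pool.Agent.H29.Stream
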