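import Pool.Agent.H29.Stream.Rec

/-!
Components of finite graphs given by an adjacency relation on a finite set, their number, and the
local statistic which counts the components contained in small windows.
-/

set_option autoImplicit false

namespace Pool.Agent.H29.Stream

open Classical

section General

variable {α : Type*}

/-- The component of `c` in the graph with vertex set `O` and adjacency `r`. -/
noncomputable def cls (r : α → α → Prop) (O : Finset α) (c : α) : Finset α :=
  O.filter (fun d => Relation.ReflTransGen (fun x y => r x y ∧ x ∈ O ∧ y ∈ O) c d)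

theorem mem_cls {r : α → α → Prop} {O : Finset α} {c d : α} :
    d ∈ cls r O c ↔ d ∈ O ∧ Relation.ReflTransGen (fun x y => r x y ∧ x ∈ O ∧ y ∈ O) c d := by
  simp [cls]

theorem cls_sub (r : α → α → Prop) (O : Finset α) (c : α) : cls r O c ⊆ O :=
  Finset.filter_subset _ _

theorem self_mem_cls {r : α → α → Prop} {O : Finset α} {c : α} (hc : c ∈ O) : c ∈ cls r O c :=
  mem_cls.2 ⟨hc, Relation.ReflTransGen.refl⟩

theorem cls_card_pos {r : α → α → Prop} {O : Finset α} {c : α} (hc : c ∈ O) :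
    0 < (cls r O c).card := Finset.card_pos.2 ⟨c, self_mem_cls hc⟩

theorem cls_step {r : α → α → Prop} {O : Finset α} {c d e : α} (h : d ∈ cls r O c)
    (hr : r d e) (he : e ∈ O) : e ∈ cls r O c :=
  mem_cls.2 ⟨he, (mem_cls.1 h).2.tail ⟨hr, (mem_cls.1 h).1, he⟩⟩

/-- A set closed under adjacency contains the component. -/
theorem cls_subset_of_closed {r : α → α → Prop} {O : Finset α} {c : α} {S : α → Prop}
    (hc : S c) (hS : ∀ x ∈ O, ∀ y ∈ O, S x → r x y → S y) : ∀ d ∈ cls r O c, S d := by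
  intro d hd
  have h := (mem_cls.1 hd).2
  clear hd
  induction h with
  | refl => exact hc
  | tail _ hst ih => exact hS _ hst.2.1 _ hst.2.2 ih hst.1

theorem cls_symm {r : α → α → Prop} (hr : ∀ x y, r x y → r y x) {O : Finset α} {c d : α}
    (hc : c ∈ O) (h : d ∈ cls r O c) : c ∈ cls r O d := by
  refine mem_cls.2 ⟨hc, ?_⟩
  have h2 := (mem_cls.1 h).2
  clear h
  induction h2 with
  | refl => exact Relation.ReflTransGen.refl
  | tail _ hst ih => exact Relation.ReflTransGen.head ⟨hr _ _ hst.1, hst.2.2, hst.2.1⟩ ih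

theorem cls_eq {r : α → α → Prop} (hr : ∀ x y, r x y → r y x) {O : Finset α} {c d : α}
    (hc : c ∈ O) (h : d ∈ cls r O c) : cls r O d = cls r O c := by
  ext e
  constructor
  · intro he
    exact mem_cls.2 ⟨(mem_cls.1 he).1, (mem_cls.1 h).2.trans (mem_cls.1 he).2⟩
  · intro he
    exact mem_cls.2 ⟨(mem_cls.1 he).1,
      (mem_cls.1 (cls_symm hr hc h)).2.trans (mem_cls.1 he).2⟩

/-- The number of components. -/
noncomputable def ncomp (r : α → α → Prop) (O : Finset α) : ℕ := (O.image (cls r O)).card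

theorem sum_inv_cls {r : α → α → Prop} (hr : ∀ x y, r x y → r y x) (O : Finset α) :
    ∑ c ∈ O, (1 : ℝ) / (cls r O c).card = ncomp r O := by
  rw [← Finset.sum_fiberwise_of_maps_to (g := cls r O) (t := O.image (cls r O))
    (fun c hc => Finset.mem_image_of_mem _ hc)]
  rw [ncomp, Finset.card_eq_sum_ones, Nat.cast_sum]
  apply Finset.sum_congr rfl
  intro C hC
  obtain ⟨c0, hc0, rfl⟩ := Finset.mem_image.1 hC
  have hfib : O.filter (fun c => cls r O c = cls r O c0) = cls r O c0 := by
    ext c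
    rw [Finset.mem_filter]
    constructor
    · rintro ⟨h1, h2⟩
      rw [← h2]
      exact self_mem_cls h1
    · intro h
      exact ⟨cls_sub _ _ _ h, cls_eq hr hc0 h⟩
  rw [hfib]
  rw [Finset.sum_congr rfl (g := fun _ => (1 : ℝ) / (cls r O c0).card)
    (fun c hc => by rw [cls_eq hr hc0 hc])]
  rw [Finset.sum_const, nsmul_eq_mul]
  have : ((cls r O c0).card : ℝ) ≠ 0 := by exact_mod_cast (cls_card_pos hc0).ne'
  field_simp
  simp

end General

/-- sup distance -/
def sd (c x : ℕ × ℕ) : ℕ := max (max (c.1 - x.1) (x.1 - c.1)) (max (c.2 - x.2) (x.2 - c.2))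

theorem near_iff_sd {W : ℕ} {c d : ℕ × ℕ} : near W c d ↔ sd c d ≤ W := by
  unfold near sd
  omega

theorem near_symm {W : ℕ} {c d : ℕ × ℕ} (h : near W c d) : near W d c := by
  unfold near at *
  omega

theorem near_add {W V : ℕ} {c d e : ℕ × ℕ} (h : near W c d) (h' : near V d e) :
    near (W + V) c e := by
  unfold near at *
  omega

theorem near_mono {W V : ℕ} (h : W ≤ V) {c d : ℕ × ℕ} (h' : near W c d) : near V c d := by
  unfold near at *
  omega

/-- The local component statistic. -/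
noncomputable def cphi (r : ℕ × ℕ → ℕ × ℕ → Prop) (V : ℕ) (c : ℕ × ℕ)
    (s : Finset (ℕ × ℕ)) : ℝ :=
  if ∀ d ∈ cls r s c, near V c d then 1 / ((cls r s c).card : ℝ) else 0

theorem abs_cphi_le (r : ℕ × ℕ → ℕ × ℕ → Prop) (V : ℕ) (c : ℕ × ℕ) (s : Finset (ℕ × ℕ)) :
    |cphi r V c s| ≤ 1 := by
  unfold cphi
  split_ifs
  · rw [abs_of_nonneg (by positivity)]
    by_cases h : (cls r s c).card = 0
    · simp [h]
    · rw [div_le_one (by positivity)]
      have : 1 ≤ (cls r s c).card := Nat.one_le_iff_ne_zero.2 h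
      exact_mod_cast this
  · simp

theorem mem_win {W : ℕ} {O : Finset (ℕ × ℕ)} {c d : ℕ × ℕ} :
    d ∈ win W O c ↔ d ∈ O ∧ near W c d := by
  simp [win]

theorem cls_win_sub (r : ℕ × ℕ → ℕ × ℕ → Prop) (W : ℕ) (O : Finset (ℕ × ℕ)) (c : ℕ × ℕ) :
    cls r (win W O c) c ⊆ cls r O c := by
  intro d hd
  obtain ⟨h1, h2⟩ := mem_cls.1 hd
  refine mem_cls.2 ⟨(mem_win.1 h1).1, ?_⟩
  exact Relation.ReflTransGen.mono
    (fun x y h => ⟨h.1, (mem_win.1 h.2.1).1, (mem_win.1 h.2.2).1⟩) _ _ h2

/-- If the component in the window lies in the inner window, it is the full component. -/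
theorem cls_win_eq {r : ℕ × ℕ → ℕ × ℕ → Prop} {T V W : ℕ} (hr : ∀ x y, r x y → near T x y)
    (hW : V + T ≤ W) {O : Finset (ℕ × ℕ)} {c : ℕ × ℕ} (hc : c ∈ O)
    (h : ∀ d ∈ cls r (win W O c) c, near V c d) : cls r (win W O c) c = cls r O c := by
  apply Finset.Subset.antisymm (cls_win_sub r W O c)
  have hcw : c ∈ win W O c := mem_win.2 ⟨hc, near_self W c⟩
  apply cls_subset_of_closed (S := fun d => d ∈ cls r (win W O c) c) (self_mem_cls hcw)
  intro x _ y hy hx hxy
  exact cls_step hx hxy (mem_win.2 ⟨hy, near_mono hW (near_add (h x hx) (hr x y hxy))⟩)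

theorem cphi_win {r : ℕ × ℕ → ℕ × ℕ → Prop} {T V W : ℕ} (hr : ∀ x y, r x y → near T x y)
    (hW : V + T ≤ W) {O : Finset (ℕ × ℕ)} {c : ℕ × ℕ} (hc : c ∈ O) :
    cphi r V c (win W O c)
      = if ∀ d ∈ cls r O c, near V c d then 1 / ((cls r O c).card : ℝ) else 0 := by
  unfold cphi
  by_cases h : ∀ d ∈ cls r (win W O c) c, near V c d
  · have e := cls_win_eq hr hW hc h
    rw [ite_cond_eq_true _ _ (eq_true h)]
    rw [e] at h ⊢
    rw [ite_cond_eq_true _ _ (eq_true h)]
  · rw [ite_cond_eq_false _ _ (eq_false h), ite_cond_eq_false]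
    refine eq_false (fun h' => h (fun d hd => h' d (cls_win_sub r W O c hd)))

/-- A component which leaves the inner window is large. -/
theorem card_cls_of_far {r : ℕ × ℕ → ℕ × ℕ → Prop} {T V N : ℕ} (hr : ∀ x y, r x y → near T x y)
    (hT0 : 0 < T) (hN : N * T ≤ V) {O : Finset (ℕ × ℕ)} {c : ℕ × ℕ} (hc : c ∈ O)
    (h : ¬ ∀ d ∈ cls r O c, near V c d) : N ≤ (cls r O c).card := by
  push Not at h
  obtain ⟨d, hd, hV⟩ := h
  rw [near_iff_sd, not_le] at hV
  have key : ∀ s : ℕ, 0 < s → s ≤ V → ∃ x ∈ cls r O c, sd c x < s ∧ s ≤ sd c x + T := by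
    intro s hs hsV
    have hsd : s ≤ sd c d := by omega
    obtain ⟨hdO, hp⟩ := mem_cls.1 hd
    clear hd hV hdO
    induction hp with
    | refl =>
      exfalso
      have : sd c c = 0 := by simp [sd]
      omega
    | @tail x y hcx hst ih =>
      by_cases hx : s ≤ sd c x
      · exact ih hx
      · refine ⟨x, mem_cls.2 ⟨hst.2.1, hcx⟩, by omega, ?_⟩
        have h1 := near_iff_sd.1 (near_add (near_iff_sd.2 (le_refl (sd c x))) (hr x y hst.1))
        omega
  have hsub : Finset.range N ⊆ (cls r O c).image (fun x => sd c x / T) := by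
    intro i hi
    rw [Finset.mem_range] at hi
    have hle : (i + 1) * T ≤ V := (Nat.mul_le_mul_right T hi).trans hN
    obtain ⟨x, hx, h1, h2⟩ := key ((i + 1) * T) (by positivity) hle
    refine Finset.mem_image.2 ⟨x, hx, ?_⟩
    show sd c x / T = i
    have e1 : (i + 1) * T = i * T + T := by ring
    rw [Nat.div_eq_iff hT0]
    constructor
    · omega
    · omega
  calc N = (Finset.range N).card := (Finset.card_range N).symm
    _ ≤ _ := Finset.card_le_card hsub
    _ ≤ _ := Finset.card_image_le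

/-- The local statistic counts the components up to `|O|/N`. -/
theorem ncomp_sub_cphi {r : ℕ × ℕ → ℕ × ℕ → Prop} (hs : ∀ x y, r x y → r y x) {T V W N : ℕ}
    (hr : ∀ x y, r x y → near T x y) (hT0 : 0 < T) (hN0 : 0 < N) (hN : N * T ≤ V)
    (hW : V + T ≤ W) (O : Finset (ℕ × ℕ)) :
    ∑ c ∈ O, cphi r V c (win W O c) ≤ ncomp r O ∧
    (ncomp r O : ℝ) ≤ ∑ c ∈ O, cphi r V c (win W O c) + (O.card : ℝ) / N ∧
    (O.card < N → ∑ c ∈ O, cphi r V c (win W O c) = ncomp r O) := by
  have hN0' : (0 : ℝ) < N := by exact_mod_cast hN0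
  have h1 : ∀ c ∈ O, cphi r V c (win W O c) ≤ 1 / ((cls r O c).card : ℝ) := by
    intro c hc
    rw [cphi_win hr hW hc]
    split_ifs
    · exact le_refl _
    · positivity
  have h2 : ∀ c ∈ O, 1 / ((cls r O c).card : ℝ) ≤ cphi r V c (win W O c) + 1 / N := by
    intro c hc
    rw [cphi_win hr hW hc]
    by_cases h : ∀ d ∈ cls r O c, near V c d
    · rw [ite_cond_eq_true _ _ (eq_true h)]
      have : (0 : ℝ) ≤ 1 / N := by positivity
      linarith
    · rw [ite_cond_eq_false _ _ (eq_false h), zero_add]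
      have h3 := card_cls_of_far hr hT0 hN hc h
      have h3' : (N : ℝ) ≤ (cls r O c).card := by exact_mod_cast h3
      exact one_div_le_one_div_of_le hN0' h3'
  refine ⟨?_, ?_, ?_⟩
  · rw [← sum_inv_cls hs O]
    exact Finset.sum_le_sum h1
  · rw [← sum_inv_cls hs O]
    calc ∑ c ∈ O, (1 : ℝ) / (cls r O c).card
        ≤ ∑ c ∈ O, (cphi r V c (win W O c) + 1 / N) := Finset.sum_le_sum h2
      _ = _ := by
          rw [Finset.sum_add_distrib, Finset.sum_const, nsmul_eq_mul]
          ring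
  · intro hcard
    rw [← sum_inv_cls hs O]
    apply Finset.sum_congr rfl
    intro c hc
    rw [cphi_win hr hW hc]
    by_cases h : ∀ d ∈ cls r O c, near V c d
    · rw [ite_cond_eq_true _ _ (eq_true h)]
    · exfalso
      have h3 := card_cls_of_far hr hT0 hN hc h
      have h4 := Finset.card_le_card (cls_sub r O c)
      omega

end Pool.Agent.H29.Stream
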