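import Pool.Agent.H29.Stream.Automaton

/-!
Seeded streaming algorithms: definition, combination, and the passage to randomized automata.
-/

set_option autoImplicit false

namespace Pool.Agent.H29.Stream

/-- The points of the stream lie in `[1, Δ]²`. -/
def InBox (Δ : ℕ) (l : List (ℕ × ℕ)) : Prop :=
  ∀ p ∈ l, 1 ≤ p.1 ∧ p.1 ≤ Δ ∧ 1 ≤ p.2 ∧ p.2 ≤ Δ

open Classical in
/-- For every `Δ` a seeded streaming algorithm with polylogarithmic space whose output on the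
stream `l` lies in `X Δ l` for all but a fraction `1/q` of the seeds. -/
def SeedStr (q : ℕ) (X : ℕ → List (ℕ × ℕ) → Set ℝ) : Prop :=
  ∃ C k : ℕ, ∀ Δ : ℕ, 1 ≤ Δ →
    ∃ (Ω St : Type) (_ : Fintype Ω) (_ : Nonempty Ω) (_ : Fintype St) (_ : Nonempty St)
      (init : Ω → St) (step : Ω → St → ℕ × ℕ → St) (out : Ω → St → ℝ),
      Fintype.card Ω * Fintype.card St ≤ 2 ^ (C * (Nat.log 2 Δ + 1) ^ k) ∧
      ∀ l : List (ℕ × ℕ), InBox Δ l →
        q * (Finset.univ.filter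
          (fun ω : Ω => out ω (l.foldl (step ω) (init ω)) ∉ X Δ l)).card ≤ Fintype.card Ω

theorem foldl_pair {S1 S2 : Type} (s1 : S1 → ℕ × ℕ → S1) (s2 : S2 → ℕ × ℕ → S2)
    (l : List (ℕ × ℕ)) : ∀ (a : S1) (b : S2),
    l.foldl (fun s x => (s1 s.1 x, s2 s.2 x)) (a, b) = (l.foldl s1 a, l.foldl s2 b) := by
  induction l with
  | nil => intro a b; rfl
  | cons x l ih => intro a b; rw [List.foldl_cons, ih]; rfl

/-- Combination of two seeded streaming algorithms. -/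
theorem SeedStr.combine {q : ℕ} {X Y Z : ℕ → List (ℕ × ℕ) → Set ℝ} (hX : SeedStr (2 * q) X)
    (hY : SeedStr (2 * q) Y) (g : ℕ → ℝ → ℝ → ℝ)
    (hg : ∀ Δ l, 1 ≤ Δ → InBox Δ l → ∀ x ∈ X Δ l, ∀ y ∈ Y Δ l, g Δ x y ∈ Z Δ l) :
    SeedStr q Z := by
  classical
  obtain ⟨C1, k1, h1⟩ := hX
  obtain ⟨C2, k2, h2⟩ := hY
  refine ⟨C1 + C2, k1 + k2, fun Δ hΔ => ?_⟩
  obtain ⟨Ω1, St1, i1, i1', i1'', i1''', init1, step1, out1, hc1, hm1⟩ := h1 Δ hΔ
  obtain ⟨Ω2, St2, i2, i2', i2'', i2''', init2, step2, out2, hc2, hm2⟩ := h2 Δ hΔ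
  refine ⟨Ω1 × Ω2, St1 × St2, inferInstance, inferInstance, inferInstance, inferInstance,
    fun ω => (init1 ω.1, init2 ω.2),
    fun ω s x => (step1 ω.1 s.1 x, step2 ω.2 s.2 x),
    fun ω s => g Δ (out1 ω.1 s.1) (out2 ω.2 s.2), ?_, ?_⟩
  · rw [Fintype.card_prod, Fintype.card_prod]
    have hD : 1 ≤ Nat.log 2 Δ + 1 := by omega
    calc Fintype.card Ω1 * Fintype.card Ω2 * (Fintype.card St1 * Fintype.card St2)
        = (Fintype.card Ω1 * Fintype.card St1) * (Fintype.card Ω2 * Fintype.card St2) := by ring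
      _ ≤ 2 ^ (C1 * (Nat.log 2 Δ + 1) ^ k1) * 2 ^ (C2 * (Nat.log 2 Δ + 1) ^ k2) :=
          Nat.mul_le_mul hc1 hc2
      _ = 2 ^ (C1 * (Nat.log 2 Δ + 1) ^ k1 + C2 * (Nat.log 2 Δ + 1) ^ k2) := by rw [pow_add]
      _ ≤ 2 ^ ((C1 + C2) * (Nat.log 2 Δ + 1) ^ (k1 + k2)) := by
          apply Nat.pow_le_pow_right (by norm_num)
          rw [add_mul]
          apply Nat.add_le_add
          · exact Nat.mul_le_mul_left _ (Nat.pow_le_pow_right hD (by omega))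
          · exact Nat.mul_le_mul_left _ (Nat.pow_le_pow_right hD (by omega))
  · intro l hl
    have hfold : ∀ ω : Ω1 × Ω2,
        l.foldl (fun s x => (step1 ω.1 s.1 x, step2 ω.2 s.2 x)) (init1 ω.1, init2 ω.2)
          = (l.foldl (step1 ω.1) (init1 ω.1), l.foldl (step2 ω.2) (init2 ω.2)) :=
      fun ω => foldl_pair (step1 ω.1) (step2 ω.2) l _ _
    set B1 := Finset.univ.filter
      (fun ω : Ω1 => out1 ω (l.foldl (step1 ω) (init1 ω)) ∉ X Δ l) with hB1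
    set B2 := Finset.univ.filter
      (fun ω : Ω2 => out2 ω (l.foldl (step2 ω) (init2 ω)) ∉ Y Δ l) with hB2
    have hsub : (Finset.univ.filter (fun ω : Ω1 × Ω2 =>
        g Δ (out1 ω.1 (l.foldl (fun s x => (step1 ω.1 s.1 x, step2 ω.2 s.2 x))
            (init1 ω.1, init2 ω.2)).1)
          (out2 ω.2 (l.foldl (fun s x => (step1 ω.1 s.1 x, step2 ω.2 s.2 x))
            (init1 ω.1, init2 ω.2)).2) ∉ Z Δ l))
        ⊆ (B1 ×ˢ Finset.univ) ∪ (Finset.univ ×ˢ B2) := by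
      intro ω hω
      rw [Finset.mem_filter, hfold] at hω
      by_contra hcon
      simp only [Finset.mem_union, Finset.mem_product, Finset.mem_univ, and_true, true_and,
        hB1, hB2, Finset.mem_filter, not_or, not_not] at hcon
      exact hω.2 (hg Δ l hΔ hl _ hcon.1 _ hcon.2)
    have h3 := hm1 l hl
    have h4 := hm2 l hl
    have h5 := (Finset.card_le_card hsub).trans (Finset.card_union_le _ _)
    rw [Finset.card_product, Finset.card_product, Finset.card_univ, Finset.card_univ] at h5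
    rw [Fintype.card_prod]
    have h6 : 2 * (q * (B1.card * Fintype.card Ω2 + Fintype.card Ω1 * B2.card))
        ≤ 2 * (Fintype.card Ω1 * Fintype.card Ω2) := by
      calc 2 * (q * (B1.card * Fintype.card Ω2 + Fintype.card Ω1 * B2.card))
          = (2 * q * B1.card) * Fintype.card Ω2 + Fintype.card Ω1 * (2 * q * B2.card) := by ring
        _ ≤ Fintype.card Ω1 * Fintype.card Ω2 + Fintype.card Ω1 * Fintype.card Ω2 :=
            Nat.add_le_add (Nat.mul_le_mul_right _ h3) (Nat.mul_le_mul_left _ h4)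
        _ = 2 * (Fintype.card Ω1 * Fintype.card Ω2) := by ring
    exact (Nat.mul_le_mul_left q h5).trans (Nat.le_of_mul_le_mul_left h6 (by norm_num))

/-- Monotonicity. -/
theorem SeedStr.mono {q : ℕ} {X Y : ℕ → List (ℕ × ℕ) → Set ℝ} (hX : SeedStr q X)
    (h : ∀ Δ l, 1 ≤ Δ → InBox Δ l → X Δ l ⊆ Y Δ l) : SeedStr q Y := by
  classical
  obtain ⟨C1, k1, h1⟩ := hX
  refine ⟨C1, k1, fun Δ hΔ => ?_⟩
  obtain ⟨Ω1, St1, i1, i1', i1'', i1''', init1, step1, out1, hc1, hm1⟩ := h1 Δ hΔ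
  refine ⟨Ω1, St1, i1, i1', i1'', i1''', init1, step1, out1, hc1, fun l hl => ?_⟩
  refine le_trans (Nat.mul_le_mul_left _ (Finset.card_le_card ?_)) (hm1 l hl)
  intro ω hω
  rw [Finset.mem_filter] at hω ⊢
  exact ⟨hω.1, fun h' => hω.2 (h Δ l hΔ hl h')⟩

/-- The randomized automaton of the frozen statement. -/
theorem SeedStr.automaton {X : ℕ → List (ℕ × ℕ) → Set ℝ} (hX : SeedStr 3 X) :
    ∃ C k : ℕ, ∀ Δ : ℕ, 1 ≤ Δ →
      ∃ (N : ℕ) (μ0 : PMF (Fin N)) (δ : Fin N → ℕ × ℕ → PMF (Fin N)) (out : Fin N → ℝ),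
        N ≤ 2 ^ (C * (Nat.log 2 Δ + 1) ^ k) ∧
        ∀ l : List (ℕ × ℕ), (∀ p ∈ l, 1 ≤ p.1 ∧ p.1 ≤ Δ ∧ 1 ≤ p.2 ∧ p.2 ≤ Δ) →
          (2 / 3 : ENNReal) ≤
            (l.foldl (fun μ p => μ.bind (fun q => δ q p)) μ0).toOuterMeasure
              {q | out q ∈ X Δ l} := by
  classical
  obtain ⟨C1, k1, h1⟩ := hX
  refine ⟨C1, k1, fun Δ hΔ => ?_⟩
  obtain ⟨Ω1, St1, i1, i1', i1'', i1''', init1, step1, out1, hc1, hm1⟩ := h1 Δ hΔ
  obtain ⟨μ0, δ, out', hmain⟩ := Stream.automaton (Ω := Ω1) (St := St1) init1 step1 out1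
  exact ⟨_, μ0, δ, out', hc1, fun l hl => hmain l (X Δ l) (hm1 l hl)⟩

end Pool.Agent.H29.Stream
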