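import Pool.Agent.H29.Stream.MstGeo
import Pool.Agent.H29.Stream.Seed

/-!
From seeded streaming algorithms for the length of a shortest tour to the frozen statement.
-/

set_option autoImplicit false

namespace Pool.Agent.H29.Stream

open Classical Pool.Agent.H49.Tsp

theorem toC_dist (x y : ℕ × ℕ) : ‖toC x - toC y‖
    = Real.sqrt (((x.1 : ℝ) - (y.1 : ℝ)) ^ 2 + ((x.2 : ℝ) - (y.2 : ℝ)) ^ 2) := by
  rw [Complex.norm_eq_sqrt_sq_add_sq, Complex.sub_re, Complex.sub_im, toC_re, toC_re, toC_im,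
    toC_im]

theorem toC_zero : toC (0, 0) = 0 := by simp [toC]

theorem tour_map (l : List (ℕ × ℕ)) : tour (l.map toC) = ∑ i : Fin l.length,
    Real.sqrt ((((l.get i).1 : ℝ) - ((l.getD ((i.val + 1) % l.length) (0, 0)).1 : ℝ)) ^ 2
      + (((l.get i).2 : ℝ) - ((l.getD ((i.val + 1) % l.length) (0, 0)).2 : ℝ)) ^ 2) := by
  unfold tour
  have hlen : (l.map toC).length = l.length := List.length_map _
  rw [← (finCongr hlen.symm).sum_comp]
  apply Finset.sum_congr rfl
  intro i _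
  have h1 : (l.map toC).get (finCongr hlen.symm i) = toC (l.get i) := by
    simp
  have h2 : (l.map toC).getD (((finCongr hlen.symm i).val + 1) % (l.map toC).length) 0
      = toC (l.getD ((i.val + 1) % l.length) (0, 0)) := by
    have h3 : ((finCongr hlen.symm i).val + 1) % (l.map toC).length
        = (i.val + 1) % l.length := by simp
    rw [h3, ← toC_zero, List.getD_map]
  rw [h1, h2, toC_dist]

theorem tsp_pts {l : List (ℕ × ℕ)} (hl : l.Nodup) :
    tsp (pts l) = sInf {x : ℝ | ∃ l' : List (ℕ × ℕ), l'.Perm l ∧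
      x = ∑ i : Fin l'.length,
        Real.sqrt ((((l'.get i).1 : ℝ) - ((l'.getD ((i.val + 1) % l'.length) (0, 0)).1 : ℝ)) ^ 2
          + (((l'.get i).2 : ℝ) - ((l'.getD ((i.val + 1) % l'.length) (0, 0)).2 : ℝ)) ^ 2)} := by
  unfold tsp
  congr 1
  ext x
  rw [Set.mem_ofPred_eq, Set.mem_ofPred_eq]
  constructor
  · rintro ⟨L, hL, hLP, rfl⟩
    -- every point of `L` comes from a pair
    have hex : ∀ z ∈ L, ∃ x ∈ l, toC x = z := by
      intro z hz
      have : z ∈ pts l := by rw [← hLP]; exact List.mem_toFinset.2 hz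
      obtain ⟨x, hx, rfl⟩ := Finset.mem_image.1 this
      exact ⟨x, List.mem_toFinset.1 hx, rfl⟩
    have hL' : ∃ l' : List (ℕ × ℕ), l'.map toC = L := by
      clear hL hLP
      induction L with
      | nil => exact ⟨[], rfl⟩
      | cons z L ih =>
        obtain ⟨l', hl'⟩ := ih (fun z hz => hex z (List.mem_cons_of_mem _ hz))
        obtain ⟨x, _, hx⟩ := hex z List.mem_cons_self
        exact ⟨x :: l', by rw [List.map_cons, hx, hl']⟩
    obtain ⟨l', rfl⟩ := hL'
    refine ⟨l', ?_, tour_map l'⟩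
    have hnd : l'.Nodup := List.Nodup.of_map _ hL
    rw [List.perm_ext_iff_of_nodup hnd hl]
    intro a
    constructor
    · intro ha
      obtain ⟨x, hx, hxa⟩ := hex (toC a) (List.mem_map_of_mem ha)
      rwa [← toC_inj hxa]
    · intro ha
      have : toC a ∈ (l'.map toC).toFinset := by
        rw [hLP]
        exact Finset.mem_image_of_mem _ (List.mem_toFinset.2 ha)
      rw [List.mem_toFinset, List.mem_map] at this
      obtain ⟨b, hb, hba⟩ := this
      rwa [← toC_inj hba]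
  · rintro ⟨l', hp, rfl⟩
    refine ⟨l'.map toC, (hp.nodup_iff.2 hl).map toC_inj, ?_, (tour_map l').symm⟩
    ext z
    unfold pts
    rw [List.mem_toFinset, List.mem_map, Finset.mem_image]
    constructor
    · rintro ⟨a, ha, rfl⟩
      exact ⟨a, List.mem_toFinset.2 (hp.mem_iff.1 ha), rfl⟩
    · rintro ⟨a, ha, rfl⟩
      exact ⟨a, hp.mem_iff.2 (List.mem_toFinset.1 ha), rfl⟩

/-- The frozen statement follows from a seeded streaming algorithm. -/
theorem frozen_of_seedStr (c : ℝ) (hc : c < 2)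
    (h : SeedStr 3 (fun _ l => {y | tsp (pts l) ≤ y ∧ y ≤ c * tsp (pts l)})) :
    ∃ c : ℝ, c < 2 ∧ ∃ C k : ℕ, ∀ Δ : ℕ, 1 ≤ Δ →
      ∃ (N : ℕ) (μ0 : PMF (Fin N)) (δ : Fin N → ℕ × ℕ → PMF (Fin N)) (out : Fin N → ℝ),
        N ≤ 2 ^ (C * (Nat.log 2 Δ + 1) ^ k) ∧
        ∀ l : List (ℕ × ℕ), l.Nodup →
          (∀ p ∈ l, 1 ≤ p.1 ∧ p.1 ≤ Δ ∧ 1 ≤ p.2 ∧ p.2 ≤ Δ) →
          ∀ T : ℝ,
            T = sInf {x : ℝ | ∃ l' : List (ℕ × ℕ), l'.Perm l ∧
                  x = ∑ i : Fin l'.length,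
                    Real.sqrt ((((l'.get i).1 : ℝ) - ((l'.getD ((i.val + 1) % l'.length) (0, 0)).1 : ℝ)) ^ 2
                      + (((l'.get i).2 : ℝ) - ((l'.getD ((i.val + 1) % l'.length) (0, 0)).2 : ℝ)) ^ 2)} →
            (2 / 3 : ENNReal) ≤
              (l.foldl (fun μ p => μ.bind (fun q => δ q p)) μ0).toOuterMeasure
                {q | T ≤ out q ∧ out q ≤ c * T} := by
  refine ⟨c, hc, ?_⟩
  obtain ⟨C, k, h1⟩ := h.automaton
  refine ⟨C, k, fun Δ hΔ => ?_⟩
  obtain ⟨N, μ0, δ, out, hN, h2⟩ := h1 Δ hΔ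
  refine ⟨N, μ0, δ, out, hN, fun l hl hbox T hT => ?_⟩
  have h3 := h2 l hbox
  rw [hT, ← tsp_pts hl]
  exact h3

end Pool.Agent.H29.Stream
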