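import Mathlib

/-!
Pairwise independent hashing of the cells of a planar grid.
-/

set_option autoImplicit false

namespace Pool.Agent.H29.Stream

/-- The seeds of the hash function. -/
abbrev Seed (p : ℕ) : Type := ZMod p × ZMod p × ZMod p

/-- The linear hash function. -/
def hash (p : ℕ) (ω : Seed p) (c : ℕ × ℕ) : ZMod p :=
  ω.1 * (c.1 : ZMod p) + ω.2.1 * (c.2 : ZMod p) + ω.2.2

/-- The cell `c` is sampled at threshold `q`. -/
def samp (p : ℕ) (ω : Seed p) (q : ℕ) (c : ℕ × ℕ) : Prop := (hash p ω c).val < q

section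
variable {p : ℕ} [hp : Fact p.Prime]

instance : NeZero p := ⟨hp.out.ne_zero⟩

theorem card_val_lt {q : ℕ} (hq : q ≤ p) :
    (Finset.univ.filter (fun u : ZMod p => u.val < q)).card = q := by
  classical
  have h : (Finset.univ.filter (fun u : ZMod p => u.val < q)).image ZMod.val
      = Finset.range q := by
    ext n
    simp only [Finset.mem_image, Finset.mem_filter, Finset.mem_univ, true_and, Finset.mem_range]
    constructor
    · rintro ⟨u, hu, rfl⟩; exact hu
    · intro hn
      refine ⟨(n : ZMod p), ?_, ?_⟩
      · rw [ZMod.val_natCast_of_lt (lt_of_lt_of_le hn hq)]; exact hn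
      · exact ZMod.val_natCast_of_lt (lt_of_lt_of_le hn hq)
  calc (Finset.univ.filter (fun u : ZMod p => u.val < q)).card
      = ((Finset.univ.filter (fun u : ZMod p => u.val < q)).image ZMod.val).card :=
        (Finset.card_image_of_injective _ (ZMod.val_injective p)).symm
    _ = q := by rw [h, Finset.card_range]

open Classical in
theorem card_samp {q : ℕ} (hq : q ≤ p) (c : ℕ × ℕ) :
    (Finset.univ.filter (fun ω : Seed p => samp p ω q c)).card = p * p * q := by
  have hL := card_val_lt (p := p) hq
  have hb : Function.Bijective (fun ω : Seed p => ((ω.1, ω.2.1, hash p ω c) : Seed p)) := by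
    rw [← Finite.injective_iff_bijective]
    rintro ⟨a, b, e⟩ ⟨a', b', e'⟩ h
    simp only [Prod.mk.injEq, hash] at h
    obtain ⟨rfl, rfl, h3⟩ := h
    simp only [add_right_inj] at h3
    rw [h3]
  have himg : (Finset.univ.filter (fun ω : Seed p => samp p ω q c)).image
      (fun ω : Seed p => ((ω.1, ω.2.1, hash p ω c) : Seed p))
      = (Finset.univ : Finset (ZMod p)) ×ˢ (Finset.univ : Finset (ZMod p)) ×ˢ
        (Finset.univ.filter (fun u : ZMod p => u.val < q)) := by
    ext y
    simp only [Finset.mem_image, Finset.mem_filter, Finset.mem_univ, true_and,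
      Finset.mem_product, samp]
    constructor
    · rintro ⟨ω, hω, rfl⟩; exact hω
    · intro hy
      obtain ⟨ω, rfl⟩ := hb.2 y
      exact ⟨ω, hy, rfl⟩
  rw [← Finset.card_image_of_injective _ hb.1, himg]
  simp only [Finset.card_product, Finset.card_univ, ZMod.card, hL]
  ring

theorem cast_inj_of_lt {x y : ℕ} (hx : x < p) (hy : y < p) (h : (x : ZMod p) = (y : ZMod p)) :
    x = y := by
  have := congrArg ZMod.val h
  rwa [ZMod.val_natCast_of_lt hx, ZMod.val_natCast_of_lt hy] at this

open Classical in
theorem card_samp2 {q : ℕ} (hq : q ≤ p) (c c' : ℕ × ℕ) (h1 : c.1 < p) (h2 : c.2 < p)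
    (h1' : c'.1 < p) (h2' : c'.2 < p) (hne : c ≠ c') :
    (Finset.univ.filter (fun ω : Seed p => samp p ω q c ∧ samp p ω q c')).card = p * q * q := by
  have hL := card_val_lt (p := p) hq
  -- one of the two coordinates differs
  have hcase : (c.1 : ZMod p) ≠ (c'.1 : ZMod p) ∨ (c.2 : ZMod p) ≠ (c'.2 : ZMod p) := by
    by_contra hcon
    push Not at hcon
    apply hne
    exact Prod.ext (cast_inj_of_lt h1 h1' hcon.1) (cast_inj_of_lt h2 h2' hcon.2)
  have main : ∀ g : Seed p → ZMod p,
      Function.Injective (fun ω : Seed p => ((g ω, hash p ω c, hash p ω c') : Seed p)) →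
      (Finset.univ.filter (fun ω : Seed p => samp p ω q c ∧ samp p ω q c')).card
        = p * q * q := by
    intro g hinj
    have hb : Function.Bijective
        (fun ω : Seed p => ((g ω, hash p ω c, hash p ω c') : Seed p)) :=
      (Finite.injective_iff_bijective).1 hinj
    have himg : (Finset.univ.filter (fun ω : Seed p => samp p ω q c ∧ samp p ω q c')).image
        (fun ω : Seed p => ((g ω, hash p ω c, hash p ω c') : Seed p))
        = (Finset.univ : Finset (ZMod p)) ×ˢ
          (Finset.univ.filter (fun u : ZMod p => u.val < q)) ×ˢ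
          (Finset.univ.filter (fun u : ZMod p => u.val < q)) := by
      ext y
      simp only [Finset.mem_image, Finset.mem_filter, Finset.mem_univ, true_and,
        Finset.mem_product, samp]
      constructor
      · rintro ⟨ω, hω, rfl⟩; exact hω
      · intro hy
        obtain ⟨ω, rfl⟩ := hb.2 y
        exact ⟨ω, hy, rfl⟩
    rw [← Finset.card_image_of_injective _ hb.1, himg]
    simp only [Finset.card_product, Finset.card_univ, ZMod.card, hL]
    ring
  rcases hcase with hx | hy
  · apply main (fun ω => ω.2.1)
    rintro ⟨a, b, e⟩ ⟨a', b', e'⟩ h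
    simp only [Prod.mk.injEq, hash] at h
    obtain ⟨rfl, h3, h4⟩ := h
    have h5 : (a - a') * ((c.1 : ZMod p) - (c'.1 : ZMod p)) = 0 := by
      linear_combination h3 - h4
    rcases mul_eq_zero.1 h5 with h6 | h6
    · have h7 : a = a' := sub_eq_zero.1 h6
      subst h7
      simp only [add_right_inj] at h3
      rw [h3]
    · exact absurd (sub_eq_zero.1 h6) hx
  · apply main (fun ω => ω.1)
    rintro ⟨a, b, e⟩ ⟨a', b', e'⟩ h
    simp only [Prod.mk.injEq, hash] at h
    obtain ⟨rfl, h3, h4⟩ := h
    have h5 : (b - b') * ((c.2 : ZMod p) - (c'.2 : ZMod p)) = 0 := by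
      linear_combination h3 - h4
    rcases mul_eq_zero.1 h5 with h6 | h6
    · have h7 : b = b' := sub_eq_zero.1 h6
      subst h7
      simp only [add_right_inj] at h3
      rw [h3]
    · exact absurd (sub_eq_zero.1 h6) hy

end

end Pool.Agent.H29.Stream
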