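import Pool.Agent.H29.Stream.State

/-!
The failure probability of the estimates at one scale.
-/

set_option autoImplicit false

namespace Pool.Agent.H29.Stream

section
variable {p : ℕ} [hp : Fact p.Prime]

open Classical in
/-- One scale: outside a small set of seeds all estimates are good. -/
theorem one_scale (W M m H E I R : ℕ) (hM : M * M ≤ p)
    (hm : 8 * (2 * W + 1) ^ 2 * H ^ 2 * E ^ 2 ≤ m) (hH : 0 < H) (hE : 0 < E) (hI : p < 2 ^ I)
    (O : Finset (ℕ × ℕ)) (hO : O ⊆ Finset.range M ×ˢ Finset.range M)
    (φ : Fin R → ℕ × ℕ → Finset (ℕ × ℕ) → ℝ) (hφ : ∀ r c s, |φ r c s| ≤ 1)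
    (u : Seed p → ℕ → Option (Finset (ℕ × ℕ)))
    (hu : ∀ ω i, u ω i = if i < I ∧ recd p W (thr p i) ω O ∈ states M m
      then some (recd p W (thr p i) ω O) else none) :
    ∃ B : Finset (Seed p), B.card * H ≤ (R + 1) * (p * p * p) ∧
      ∀ ω, ω ∉ B → ∀ r,
        |estFrom p W (φ r) ω (u ω) - ∑ c ∈ O, φ r c (win W O c)| * E ≤ O.card ∧
        (O.card ≤ E → estFrom p W (φ r) ω (u ω) = ∑ c ∈ O, φ r c (win W O c)) := by
  have hp0 : 0 < p := hp.out.pos
  have hI0 : 0 < I := by
    rcases Nat.eq_zero_or_pos I with h | h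
    · subst h; simp at hI; omega
    · exact h
  have hV : 1 ≤ (2 * W + 1) ^ 2 := Nat.one_le_pow _ _ (by omega)
  have hEm : E ≤ m := by
    calc E = 1 * 1 * 1 * E := by ring
      _ ≤ (8 * (2 * W + 1) ^ 2) * H ^ 2 * E * E := by
          apply Nat.mul_le_mul_right
          apply Nat.mul_le_mul
          · apply Nat.mul_le_mul
            · omega
            · exact Nat.one_le_pow _ _ hH
          · exact hE
      _ = 8 * (2 * W + 1) ^ 2 * H ^ 2 * E ^ 2 := by ring
      _ ≤ m := hm
  by_cases hn : O.card ≤ m
  · -- exact case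
    refine ⟨∅, by simp, ?_⟩
    intro ω _ r
    have h := estFrom_exact W M m I (φ r) ω O (u ω) (hu ω) hI0 hO hn
    refine ⟨?_, fun _ => h⟩
    rw [h, sub_self, abs_zero, zero_mul]
    exact Nat.cast_nonneg _
  · push Not at hn
    set n := O.card with hndef
    set V := (2 * W + 1) ^ 2 with hVdef
    have hnM : n ≤ M * M := by
      calc n ≤ (Finset.range M ×ˢ Finset.range M).card := Finset.card_le_card hO
        _ = M * M := by rw [Finset.card_product, Finset.card_range]
    have hnp : n ≤ p := hnM.trans hM
    have hm0 : 0 < m := lt_of_lt_of_le hE hEm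
    have hn0 : 0 < n := by omega
    -- the critical level
    have hex : ∃ i, 2 * V * n * H ≤ 2 ^ i * m := by
      refine ⟨2 * V * n * H, ?_⟩
      calc 2 * V * n * H ≤ 2 ^ (2 * V * n * H) := Nat.lt_two_pow_self.le
        _ ≤ 2 ^ (2 * V * n * H) * m := Nat.le_mul_of_pos_right _ hm0
    set i0 := Nat.find hex with hi0def
    have hi0 : 2 * V * n * H ≤ 2 ^ i0 * m := Nat.find_spec hex
    have hi0up : 2 ^ i0 * m ≤ 4 * V * n * H := by
      rcases Nat.eq_zero_or_pos i0 with h | h
      · rw [h]
        have : 1 * 1 ≤ V * H := Nat.mul_le_mul hV hH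
        calc 2 ^ 0 * m = m := by ring
          _ ≤ n := hn.le
          _ ≤ n * (4 * (V * H)) := Nat.le_mul_of_pos_right _ (by omega)
          _ = 4 * V * n * H := by ring
      · have hlt : i0 - 1 < i0 := by omega
        have h1 := Nat.find_min hex hlt
        push Not at h1
        have h2 : 2 ^ i0 = 2 * 2 ^ (i0 - 1) := by
          rw [← pow_succ']
          congr 1
          omega
        rw [h2]
        calc 2 * 2 ^ (i0 - 1) * m = 2 * (2 ^ (i0 - 1) * m) := by ring
          _ ≤ 2 * (2 * V * n * H) := Nat.mul_le_mul_left _ h1.le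
          _ = 4 * V * n * H := by ring
    have hi0p : 2 ^ i0 ≤ p := by
      -- `2^i0 * m ≤ 4VnH ≤ n * m`
      have h1 : 4 * V * n * H ≤ n * m := by
        calc 4 * V * n * H = n * (4 * V * H) := by ring
          _ ≤ n * (8 * V * H ^ 2 * E ^ 2) := by
              apply Nat.mul_le_mul_left
              have hHH : H ≤ H ^ 2 * E ^ 2 := by
                calc H = H * 1 * 1 := by ring
                  _ ≤ H * H * (E * E) := by
                    apply Nat.mul_le_mul
                    · exact Nat.mul_le_mul_left _ hH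
                    · exact Nat.mul_le_mul hE hE
                  _ = H ^ 2 * E ^ 2 := by ring
              calc 4 * V * H ≤ 8 * V * (H ^ 2 * E ^ 2) :=
                    Nat.mul_le_mul (by omega) hHH
                _ = 8 * V * H ^ 2 * E ^ 2 := by ring
          _ ≤ n * m := Nat.mul_le_mul_left _ hm
      have h2 : 2 ^ i0 * m ≤ n * m := hi0up.trans h1
      exact (Nat.le_of_mul_le_mul_right h2 hm0).trans hnp
    have hi0I : i0 < I := by
      by_contra hcon
      push Not at hcon
      have : 2 ^ I ≤ 2 ^ i0 := Nat.pow_le_pow_right (by norm_num) hcon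
      omega
    have hOp : ∀ c ∈ O, c.1 < p ∧ c.2 < p := by
      intro c hc
      have h1 := hO hc
      rw [Finset.mem_product, Finset.mem_range, Finset.mem_range] at h1
      have h2 : M ≤ M * M := by
        rcases Nat.eq_zero_or_pos M with h | h
        · omega
        · exact Nat.le_mul_of_pos_right _ h
      omega
    -- bad events
    let F : Fin R → ℝ := fun r => ∑ c ∈ O, φ r c (win W O c)
    let B0 : Finset (Seed p) := Finset.univ.filter
      (fun ω => m < (recd p W (thr p i0) ω O).card)
    let B1 : Fin R → ℕ → Finset (Seed p) := fun r i => Finset.univ.filter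
      (fun ω => ((n : ℝ) * thr p i) < |p * X p (thr p i) (fun c => φ r c (win W O c)) O ω
        - thr p i * F r| * E)
    let B : Finset (Seed p) := B0 ∪ Finset.univ.biUnion
      (fun r : Fin R => (Finset.range (i0 + 1)).biUnion (fun i => B1 r i))
    -- size of B0
    have hB0 : B0.card * H ≤ p * p * p := by
      have h1 : (B0.card : ℝ) * m ≤ ∑ ω : Seed p, ((recd p W (thr p i0) ω O).card : ℝ) := by
        apply markov_count _ (fun ω => Nat.cast_nonneg _) _ (Nat.cast_nonneg _)
        intro ω hω
        have : m < (recd p W (thr p i0) ω O).card := (Finset.mem_filter.1 hω).2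
        exact_mod_cast this.le
      have h2 := recd_moment (thr_le p i0 hp0) W O
      have h3 : (B0.card : ℝ) * m ≤ n * V * (p * p * thr p i0) := by
        refine h1.trans (h2.trans (le_of_eq ?_))
        rw [hVdef, hndef]; push_cast; ring
      have h3' : B0.card * m ≤ n * V * (p * p * thr p i0) := by exact_mod_cast h3
      have h4 := thr_upper p i0 hi0p
      have h5 : B0.card * H * (2 * V * n) ≤ p * p * p * (2 * V * n) := by
        calc B0.card * H * (2 * V * n) = B0.card * (2 * V * n * H) := by ring
          _ ≤ B0.card * (2 ^ i0 * m) := Nat.mul_le_mul_left _ hi0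
          _ = (B0.card * m) * 2 ^ i0 := by ring
          _ ≤ (n * V * (p * p * thr p i0)) * 2 ^ i0 := Nat.mul_le_mul_right _ h3'
          _ = n * V * (p * p) * (thr p i0 * 2 ^ i0) := by ring
          _ ≤ n * V * (p * p) * (2 * p) := Nat.mul_le_mul_left _ h4
          _ = p * p * p * (2 * V * n) := by ring
      have h6 : 0 < 2 * V * n := by positivity
      exact Nat.le_of_mul_le_mul_right h5 h6
    -- size of B1
    have hB1 : ∀ r i, (B1 r i).card * n ≤ p * p * p * E ^ 2 * 2 ^ i := by
      intro r i
      set q := thr p i with hq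
      have hq0 : 0 < q := thr_pos p i hp0
      have hqp : q ≤ p := thr_le p i hp0
      have h1 : ((B1 r i).card : ℝ) * ((n : ℝ) * q / E) ^ 2
          ≤ ∑ ω : Seed p, (p * X p q (fun c => φ r c (win W O c)) O ω - q * F r) ^ 2 := by
        apply markov_count _ (fun ω => sq_nonneg _) _ (sq_nonneg _)
        intro ω hω
        have h := (Finset.mem_filter.1 hω).2
        have hE' : (0 : ℝ) < E := by exact_mod_cast hE
        have h' : (n : ℝ) * q / E ≤ |p * X p q (fun c => φ r c (win W O c)) O ω - q * F r| := by
          rw [div_le_iff₀ hE']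
          exact h.le
        rw [← sq_abs (p * X p q (fun c => φ r c (win W O c)) O ω - q * F r)]
        exact pow_le_pow_left₀ (by positivity) h' 2
      have h2 := second_moment hqp (fun c => φ r c (win W O c))
        (fun c => hφ r c _) O hOp
      have h3 : ((B1 r i).card : ℝ) * ((n : ℝ) * q / E) ^ 2 ≤ (p : ℝ) ^ 4 * q * n := h1.trans h2
      have hE' : (0 : ℝ) < E := by exact_mod_cast hE
      have hq' : (0 : ℝ) < q := by exact_mod_cast hq0
      have hn' : (0 : ℝ) < n := by exact_mod_cast hn0
      have h4 : ((B1 r i).card : ℝ) * (n * q) ≤ (p : ℝ) ^ 4 * E ^ 2 := by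
        have e1 : ((B1 r i).card : ℝ) * ((n : ℝ) * q / E) ^ 2
            = ((B1 r i).card : ℝ) * (n * q) * (n * q) / E ^ 2 := by
          field_simp
        rw [e1, div_le_iff₀ (by positivity)] at h3
        have h5 : ((B1 r i).card : ℝ) * (n * q) * (n * q) ≤ (p : ℝ) ^ 4 * E ^ 2 * (n * q) := by
          calc _ ≤ (p : ℝ) ^ 4 * q * n * E ^ 2 := h3
            _ = _ := by ring
        exact le_of_mul_le_mul_right h5 (by positivity)
      have h4' : (B1 r i).card * (n * q) ≤ p ^ 4 * E ^ 2 := by exact_mod_cast h4
      have h6 := thr_lower p i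
      have h7 : (B1 r i).card * n * p ≤ p * p * p * E ^ 2 * 2 ^ i * p := by
        calc (B1 r i).card * n * p ≤ (B1 r i).card * n * (q * 2 ^ i) :=
              Nat.mul_le_mul_left _ h6
          _ = (B1 r i).card * (n * q) * 2 ^ i := by ring
          _ ≤ p ^ 4 * E ^ 2 * 2 ^ i := Nat.mul_le_mul_right _ h4'
          _ = p * p * p * E ^ 2 * 2 ^ i * p := by ring
      exact Nat.le_of_mul_le_mul_right h7 hp0
    have hsum2 : ∀ k : ℕ, ∑ i ∈ Finset.range k, 2 ^ i ≤ 2 ^ k := by
      intro k
      induction k with
      | zero => simp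
      | succ k ih => rw [Finset.sum_range_succ, pow_succ]; omega
    have hBr : ∀ r, ((Finset.range (i0 + 1)).biUnion (fun i => B1 r i)).card * H
        ≤ p * p * p := by
      intro r
      set b := ((Finset.range (i0 + 1)).biUnion (fun i => B1 r i)).card with hb
      have h1 : b ≤ ∑ i ∈ Finset.range (i0 + 1), (B1 r i).card := Finset.card_biUnion_le
      have h2 : b * n ≤ p * p * p * E ^ 2 * (2 * 2 ^ i0) := by
        calc b * n ≤ (∑ i ∈ Finset.range (i0 + 1), (B1 r i).card) * n :=
              Nat.mul_le_mul_right _ h1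
          _ = ∑ i ∈ Finset.range (i0 + 1), (B1 r i).card * n := by rw [Finset.sum_mul]
          _ ≤ ∑ i ∈ Finset.range (i0 + 1), p * p * p * E ^ 2 * 2 ^ i :=
              Finset.sum_le_sum (fun i _ => hB1 r i)
          _ = p * p * p * E ^ 2 * ∑ i ∈ Finset.range (i0 + 1), 2 ^ i := by
              rw [Finset.mul_sum]
          _ ≤ p * p * p * E ^ 2 * 2 ^ (i0 + 1) := Nat.mul_le_mul_left _ (hsum2 _)
          _ = p * p * p * E ^ 2 * (2 * 2 ^ i0) := by rw [pow_succ]; ring
      have h3 : b * H * (8 * V * H * E ^ 2 * n) ≤ p * p * p * (8 * V * H * E ^ 2 * n) := by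
        calc b * H * (8 * V * H * E ^ 2 * n) = b * n * (8 * V * H ^ 2 * E ^ 2) := by ring
          _ ≤ b * n * m := Nat.mul_le_mul_left _ hm
          _ ≤ (p * p * p * E ^ 2 * (2 * 2 ^ i0)) * m := Nat.mul_le_mul_right _ h2
          _ = p * p * p * E ^ 2 * 2 * (2 ^ i0 * m) := by ring
          _ ≤ p * p * p * E ^ 2 * 2 * (4 * V * n * H) := Nat.mul_le_mul_left _ hi0up
          _ = p * p * p * (8 * V * H * E ^ 2 * n) := by ring
      exact Nat.le_of_mul_le_mul_right h3 (by positivity)
    refine ⟨B, ?_, ?_⟩
    · have h1 : B.card ≤ B0.card + ∑ r : Fin R,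
          ((Finset.range (i0 + 1)).biUnion (fun i => B1 r i)).card :=
        (Finset.card_union_le _ _).trans (Nat.add_le_add_left Finset.card_biUnion_le _)
      calc B.card * H ≤ (B0.card + ∑ r : Fin R,
            ((Finset.range (i0 + 1)).biUnion (fun i => B1 r i)).card) * H :=
            Nat.mul_le_mul_right _ h1
        _ = B0.card * H + ∑ r : Fin R,
            ((Finset.range (i0 + 1)).biUnion (fun i => B1 r i)).card * H := by
            rw [add_mul, Finset.sum_mul]
        _ ≤ p * p * p + ∑ r : Fin R, p * p * p :=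
            Nat.add_le_add hB0 (Finset.sum_le_sum (fun r _ => hBr r))
        _ = (R + 1) * (p * p * p) := by
            rw [Finset.sum_const, Finset.card_univ, Fintype.card_fin, smul_eq_mul]; ring
    · intro ω hω r
      have hω0 : ω ∉ B0 := fun h => hω (Finset.mem_union_left _ h)
      have hω1 : ∀ i, i ≤ i0 → ω ∉ B1 r i := by
        intro i hi h
        apply hω
        apply Finset.mem_union_right
        rw [Finset.mem_biUnion]
        exact ⟨r, Finset.mem_univ _, Finset.mem_biUnion.2
          ⟨i, Finset.mem_range.2 (by omega), h⟩⟩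
      have hst : recd p W (thr p i0) ω O ∈ states M m := by
        rw [mem_states]
        refine ⟨(recd_subset _ _ _ _ _).trans hO, ?_⟩
        by_contra hcon
        push Not at hcon
        exact hω0 (Finset.mem_filter.2 ⟨Finset.mem_univ _, hcon⟩)
      obtain ⟨i, hi, he⟩ := estFrom_eq p W M m I (φ r) ω O (u ω) (hu ω) i0 hi0I hst
      have hb := hω1 i hi
      have hq0 : 0 < thr p i := thr_pos p i hp0
      have hq' : (0 : ℝ) < thr p i := by exact_mod_cast hq0
      have hb' : |p * X p (thr p i) (fun c => φ r c (win W O c)) O ω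
        - thr p i * F r| * E ≤ (n : ℝ) * thr p i := by
        by_contra hcon
        push Not at hcon
        exact hb (Finset.mem_filter.2 ⟨Finset.mem_univ _, hcon⟩)
      refine ⟨?_, fun h => absurd h (by omega)⟩
      rw [he]
      have e1 : (p : ℝ) / thr p i * X p (thr p i) (fun c => φ r c (win W O c)) O ω
          - ∑ c ∈ O, φ r c (win W O c)
          = (p * X p (thr p i) (fun c => φ r c (win W O c)) O ω - thr p i * F r) / thr p i := by
        field_simp
        rfl
      rw [e1, abs_div, abs_of_pos hq', div_mul_eq_mul_div, div_le_iff₀ hq']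
      exact hb'

end

end Pool.Agent.H29.Stream
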