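import Pool.Agent.H29.Stream.Automaton
import Pool.Agent.H29.Stream.Scale

/-!
The streaming theorem: finitely many window statistics at all scales can be estimated by one
randomized streaming automaton with polylogarithmic space.
-/

set_option autoImplicit false

namespace Pool.Agent.H29.Stream

/-- The cell of scale `j` (side `2^j/K`) containing the point `x`. -/
def cell (K j : ℕ) (x : ℕ × ℕ) : ℕ × ℕ := (x.1 * K / 2 ^ j, x.2 * K / 2 ^ j)

/-- The occupied cells of scale `j`. -/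
def occ (K j : ℕ) (l : List (ℕ × ℕ)) : Finset (ℕ × ℕ) := (l.map (cell K j)).toFinset

/-- A window statistic. -/
noncomputable def stat (K W j : ℕ) (φ : ℕ × ℕ → Finset (ℕ × ℕ) → ℝ) (l : List (ℕ × ℕ)) : ℝ :=
  ∑ c ∈ occ K j l, φ c (win W (occ K j l) c)

/-- Polynomially bounded functions. -/
def PB (f : ℕ → ℕ) : Prop := ∃ C k : ℕ, ∀ D, 1 ≤ D → f D ≤ C * D ^ k

theorem PB.const (c : ℕ) : PB (fun _ => c) := ⟨c, 0, fun D _ => by simp⟩

theorem PB.id : PB (fun D => D) := ⟨1, 1, fun D _ => by simp⟩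

theorem PB.add {f g : ℕ → ℕ} (hf : PB f) (hg : PB g) : PB (fun D => f D + g D) := by
  obtain ⟨C1, k1, h1⟩ := hf
  obtain ⟨C2, k2, h2⟩ := hg
  refine ⟨C1 + C2, k1 + k2, fun D hD => ?_⟩
  calc f D + g D ≤ C1 * D ^ k1 + C2 * D ^ k2 := Nat.add_le_add (h1 D hD) (h2 D hD)
    _ ≤ C1 * D ^ (k1 + k2) + C2 * D ^ (k1 + k2) := by
      apply Nat.add_le_add
      · exact Nat.mul_le_mul_left _ (Nat.pow_le_pow_right hD (by omega))
      · exact Nat.mul_le_mul_left _ (Nat.pow_le_pow_right hD (by omega))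
    _ = (C1 + C2) * D ^ (k1 + k2) := by ring

theorem PB.mul {f g : ℕ → ℕ} (hf : PB f) (hg : PB g) : PB (fun D => f D * g D) := by
  obtain ⟨C1, k1, h1⟩ := hf
  obtain ⟨C2, k2, h2⟩ := hg
  refine ⟨C1 * C2, k1 + k2, fun D hD => ?_⟩
  calc f D * g D ≤ (C1 * D ^ k1) * (C2 * D ^ k2) := Nat.mul_le_mul (h1 D hD) (h2 D hD)
    _ = (C1 * C2) * D ^ (k1 + k2) := by rw [pow_add]; ring

theorem PB.pow {f : ℕ → ℕ} (hf : PB f) (n : ℕ) : PB (fun D => f D ^ n) := by
  obtain ⟨C1, k1, h1⟩ := hf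
  refine ⟨C1 ^ n, k1 * n, fun D hD => ?_⟩
  calc f D ^ n ≤ (C1 * D ^ k1) ^ n := Nat.pow_le_pow_left (h1 D hD) n
    _ = C1 ^ n * D ^ (k1 * n) := by rw [mul_pow, pow_mul]

theorem foldl_prod {ι St : Type} (step : ι → St → ℕ × ℕ → St) (l : List (ℕ × ℕ)) :
    ∀ s : ι → St, l.foldl (fun s x => fun i => step i (s i) x) s
      = fun i => l.foldl (step i) (s i) := by
  induction l with
  | nil => intro s; rfl
  | cons x l ih => intro s; rw [List.foldl_cons, ih]; rfl

theorem stream_main (A a : ℕ) : ∃ C k : ℕ, ∀ Δ : ℕ, 1 ≤ Δ →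
    ∀ K W R J : ℕ, K ≤ A * (Nat.log 2 Δ + 1) ^ a → W ≤ A * (Nat.log 2 Δ + 1) ^ a →
    R ≤ A * (Nat.log 2 Δ + 1) ^ a → J ≤ A * (Nat.log 2 Δ + 1) ^ a →
    ∀ φ : Fin R → ℕ → ℕ × ℕ → Finset (ℕ × ℕ) → ℝ, (∀ r j c s, |φ r j c s| ≤ 1) →
    ∀ out : (Fin R → ℕ → ℝ) → ℝ,
    ∃ (N : ℕ) (μ0 : PMF (Fin N)) (δ : Fin N → ℕ × ℕ → PMF (Fin N)) (out' : Fin N → ℝ),
      N ≤ 2 ^ (C * (Nat.log 2 Δ + 1) ^ k) ∧
      ∀ l : List (ℕ × ℕ), (∀ p ∈ l, 1 ≤ p.1 ∧ p.1 ≤ Δ ∧ 1 ≤ p.2 ∧ p.2 ≤ Δ) →
      ∀ G : Set ℝ,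
        (∀ S : Fin R → ℕ → ℝ,
          (∀ r j, j < J →
            |S r j - stat K W j (φ r j) l| * ((A * (Nat.log 2 Δ + 1) ^ a : ℕ) : ℝ)
              ≤ (occ K j l).card ∧
            ((occ K j l).card ≤ A * (Nat.log 2 Δ + 1) ^ a →
              S r j = stat K W j (φ r j) l)) → out S ∈ G) →
        (2 / 3 : ENNReal) ≤
          (l.foldl (fun μ p => μ.bind (fun q => δ q p)) μ0).toOuterMeasure
            {q | out' q ∈ G} := by
  classical
  -- the exponent
  let Q : ℕ → ℕ := fun D => A * D ^ a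
  let E : ℕ → ℕ := fun D => Q D + 1
  let H : ℕ → ℕ := fun D => 3 * (Q D) * (Q D + 1) + 1
  let m : ℕ → ℕ := fun D => 8 * (2 * Q D + 1) ^ 2 * H D ^ 2 * E D ^ 2
  let I : ℕ → ℕ := fun D => 2 * (Q D + D) + 2
  let X : ℕ → ℕ := fun D => 3 * (2 * (Q D + D) + 1)
    + ((2 * (Q D + D) + 1) * m D + 1) * (Q D * I D)
  have hQ : PB Q := (PB.const A).mul (PB.id.pow a)
  have hE : PB E := hQ.add (PB.const 1)
  have hH : PB H :=
    (((PB.const 3).mul hQ).mul (hQ.add (PB.const 1))).add (PB.const 1)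
  have hm : PB m := (((PB.const 8).mul ((((PB.const 2).mul hQ).add (PB.const 1)).pow 2)).mul
    (hH.pow 2)).mul (hE.pow 2)
  have hKD : PB (fun D => 2 * (Q D + D)) := (PB.const 2).mul (hQ.add PB.id)
  have hI : PB I := hKD.add (PB.const 2)
  have hX : PB X := ((PB.const 3).mul (hKD.add (PB.const 1))).add
    ((((hKD.add (PB.const 1)).mul hm).add (PB.const 1)).mul (hQ.mul hI))
  obtain ⟨C, k, hCk⟩ := hX
  refine ⟨C, k, ?_⟩
  intro Δ hΔ K W R J hK hW hR hJ φ hφ out
  have hΔD0 : Δ < 2 ^ (Nat.log 2 Δ + 1) := Nat.lt_pow_succ_log_self (by norm_num) Δ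
  obtain ⟨D, hD⟩ : ∃ D, D = Nat.log 2 Δ + 1 := ⟨_, rfl⟩
  rw [← hD] at hK hW hR hJ hΔD0 ⊢
  have hD1 : 1 ≤ D := by omega
  have hΔD : Δ < 2 ^ D := hΔD0
  set M := K * 2 ^ D + 1 with hM
  have hKQ : K ≤ Q D := hK
  have hWQ : W ≤ Q D := hW
  have hRQ : R ≤ Q D := hR
  have hJQ : J ≤ Q D := hJ
  have hM2' : M ≤ 2 ^ (K + D) := by
    have h1 : K + 1 ≤ 2 ^ K := Nat.lt_two_pow_self
    have h2 : 1 ≤ 2 ^ D := Nat.one_le_two_pow
    calc M = K * 2 ^ D + 1 := rfl
      _ ≤ K * 2 ^ D + 2 ^ D := by omega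
      _ = (K + 1) * 2 ^ D := by ring
      _ ≤ 2 ^ K * 2 ^ D := Nat.mul_le_mul_right _ h1
      _ = 2 ^ (K + D) := by rw [pow_add]
  have hM2 : M ≤ 2 ^ (Q D + D) :=
    hM2'.trans (Nat.pow_le_pow_right (by norm_num) (by omega))
  have hM0 : 0 < M := by omega
  obtain ⟨p, hpp, hpl, hpu⟩ := Nat.exists_prime_lt_and_le_two_mul (M * M) (by positivity)
  have hfact : Fact p.Prime := ⟨hpp⟩
  have hMM : M * M ≤ 2 ^ (2 * (Q D + D)) := by
    calc M * M ≤ 2 ^ (Q D + D) * 2 ^ (Q D + D) := Nat.mul_le_mul hM2 hM2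
      _ = 2 ^ (2 * (Q D + D)) := by rw [← pow_add]; congr 1; ring
  have hpU : p ≤ 2 ^ (2 * (Q D + D) + 1) := by
    calc p ≤ 2 * (M * M) := hpu
      _ ≤ 2 * 2 ^ (2 * (Q D + D)) := Nat.mul_le_mul_left _ hMM
      _ = 2 ^ (2 * (Q D + D) + 1) := by rw [pow_succ]; ring
  have hpI : p < 2 ^ (I D) := by
    calc p ≤ 2 ^ (2 * (Q D + D) + 1) := hpU
      _ < 2 ^ (2 * (Q D + D) + 2) := Nat.pow_lt_pow_right (by norm_num) (by omega)
  -- the automaton
  let init : Seed p → (Fin J × Fin (I D) → St0 M (m D)) := fun _ _ => nrm M (m D) ∅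
  let step : Seed p → (Fin J × Fin (I D) → St0 M (m D)) → ℕ × ℕ →
      (Fin J × Fin (I D) → St0 M (m D)) :=
    fun ω s x => fun ji => step0 p W (thr p ji.2) M (m D) (cell K ji.1) ω (s ji) x
  let u : (Fin J × Fin (I D) → St0 M (m D)) → ℕ → ℕ → Option (Finset (ℕ × ℕ)) :=
    fun s j i => if h : j < J ∧ i < I D then (s (⟨j, h.1⟩, ⟨i, h.2⟩)).map Subtype.val else none
  let est : Seed p → (Fin J × Fin (I D) → St0 M (m D)) → Fin R → ℕ → ℝ :=
    fun ω s r j => estFrom p W (φ r j) ω (u s j)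
  have hne : Nonempty (Seed p) := ⟨(0, 0, 0)⟩
  obtain ⟨μ0, δ, out', hmain⟩ := automaton (Ω := Seed p)
    (St := Fin J × Fin (I D) → St0 M (m D)) init step (fun ω s => out (est ω s))
  refine ⟨_, μ0, δ, out', ?_, ?_⟩
  · -- the number of states
    have hc1 : Fintype.card (Seed p) = p ^ 3 := by
      simp only [Seed, Fintype.card_prod, ZMod.card]; ring
    have hc2 : Fintype.card (Fin J × Fin (I D) → St0 M (m D))
        = ((states M (m D)).card + 1) ^ (J * I D) := by
      rw [Fintype.card_fun, Fintype.card_prod, Fintype.card_fin, Fintype.card_fin,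
        Fintype.card_option, Fintype.card_coe]
    rw [hc1, hc2]
    have hs : (states M (m D)).card + 1 ≤ 2 ^ ((2 * (Q D + D) + 1) * m D + 1) := by
      have h1 := card_states_le M (m D)
      have h2 : M * M + 1 ≤ 2 ^ (2 * (Q D + D) + 1) := by
        have : 1 ≤ 2 ^ (2 * (Q D + D)) := Nat.one_le_two_pow
        rw [pow_succ]; omega
      have h3 : (M * M + 1) ^ (m D) ≤ 2 ^ ((2 * (Q D + D) + 1) * m D) := by
        calc (M * M + 1) ^ (m D) ≤ (2 ^ (2 * (Q D + D) + 1)) ^ (m D) :=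
              Nat.pow_le_pow_left h2 _
          _ = 2 ^ ((2 * (Q D + D) + 1) * m D) := by rw [← pow_mul]
      have h4 : 1 ≤ 2 ^ ((2 * (Q D + D) + 1) * m D) := Nat.one_le_two_pow
      rw [pow_succ]
      omega
    calc p ^ 3 * ((states M (m D)).card + 1) ^ (J * I D)
        ≤ (2 ^ (2 * (Q D + D) + 1)) ^ 3 * (2 ^ ((2 * (Q D + D) + 1) * m D + 1)) ^ (J * I D) := by
          apply Nat.mul_le_mul
          · exact Nat.pow_le_pow_left hpU 3
          · exact Nat.pow_le_pow_left hs _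
      _ = 2 ^ ((2 * (Q D + D) + 1) * 3 + ((2 * (Q D + D) + 1) * m D + 1) * (J * I D)) := by
          rw [← pow_mul, ← pow_mul, ← pow_add]
      _ ≤ 2 ^ (X D) := by
          apply Nat.pow_le_pow_right (by norm_num)
          apply Nat.add_le_add
          · omega
          · apply Nat.mul_le_mul_left
            exact Nat.mul_le_mul_right _ hJ
      _ ≤ 2 ^ (C * D ^ k) := Nat.pow_le_pow_right (by norm_num) (hCk D hD1)
  · intro l hl G hG
    apply hmain l G
    -- occupied cells lie in the box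
    have hbox : ∀ j, occ K j l ⊆ Finset.range M ×ˢ Finset.range M := by
      intro j c hc
      unfold occ at hc
      rw [List.mem_toFinset, List.mem_map] at hc
      obtain ⟨x, hx, rfl⟩ := hc
      obtain ⟨_, h1, _, h2⟩ := hl x hx
      rw [Finset.mem_product, Finset.mem_range, Finset.mem_range]
      have h3 : ∀ y : ℕ, y ≤ Δ → y * K / 2 ^ j < M := by
        intro y hy
        calc y * K / 2 ^ j ≤ y * K := Nat.div_le_self _ _
          _ ≤ 2 ^ D * K := Nat.mul_le_mul_right _ (hy.trans hΔD.le)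
          _ = K * 2 ^ D := by ring
          _ < M := Nat.lt_succ_self _
      exact ⟨h3 _ h1, h3 _ h2⟩
    have hfold : ∀ ω, l.foldl (step ω) (init ω)
        = fun ji : Fin J × Fin (I D) =>
          nrm M (m D) (recd p W (thr p ji.2) ω (occ K ji.1 l)) := by
      intro ω
      have h := foldl_prod (fun (ji : Fin J × Fin (I D)) s x =>
        step0 p W (thr p ji.2) M (m D) (cell K ji.1) ω s x) l (init ω)
      rw [show step ω = (fun s x => fun ji : Fin J × Fin (I D) =>
        step0 p W (thr p ji.2) M (m D) (cell K ji.1) ω (s ji) x) from rfl, h]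
      funext ji
      exact foldl_step0 p W (thr p ji.2) M (m D) (cell K ji.1) ω l
    have hEpos : 0 < E D := Nat.succ_pos _
    have hHpos : 0 < H D := Nat.succ_pos _
    have hmW : 8 * (2 * W + 1) ^ 2 * H D ^ 2 * E D ^ 2 ≤ m D := by
      simp only [m]
      apply Nat.mul_le_mul_right
      apply Nat.mul_le_mul_right
      apply Nat.mul_le_mul_left
      apply Nat.pow_le_pow_left
      omega
    have hscale : ∀ j : Fin J, ∃ B : Finset (Seed p),
        B.card * H D ≤ (R + 1) * (p * p * p) ∧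
        ∀ ω, ω ∉ B → ∀ r : Fin R,
          |est ω (l.foldl (step ω) (init ω)) r j - stat K W j (φ r j) l| * E D
            ≤ (occ K j l).card ∧
          ((occ K j l).card ≤ E D →
            est ω (l.foldl (step ω) (init ω)) r j = stat K W j (φ r j) l) := by
      intro j
      exact one_scale W M (m D) (H D) (E D) (I D) R hpl.le hmW hHpos hEpos hpI
        (occ K j l) (hbox j) (fun r => φ r j) (fun r c s => hφ r j c s)
        (fun ω => u (l.foldl (step ω) (init ω)) j) (by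
          intro ω i
          simp only [u, hfold]
          by_cases hi : i < I D
          · rw [dif_pos ⟨j.2, hi⟩, nrm_map]
            by_cases hst : recd p W (thr p i) ω (occ K j l) ∈ states M (m D)
            · rw [if_pos hst, if_pos ⟨hi, hst⟩]
            · rw [if_neg hst, if_neg (fun h => hst h.2)]
          · rw [dif_neg (fun h => hi h.2), if_neg (fun h => hi h.1)])
    choose B hB1 hB2 using hscale
    have hsub : (Finset.univ.filter (fun ω : Seed p =>
        out (est ω (l.foldl (step ω) (init ω))) ∉ G)) ⊆ Finset.univ.biUnion B := by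
      intro ω hω
      rw [Finset.mem_filter] at hω
      by_contra hcon
      apply hω.2
      apply hG
      intro r j hj
      have hωj : ω ∉ B ⟨j, hj⟩ := by
        intro h
        exact hcon (Finset.mem_biUnion.2 ⟨⟨j, hj⟩, Finset.mem_univ _, h⟩)
      obtain ⟨h1, h2⟩ := hB2 ⟨j, hj⟩ ω hωj r
      refine ⟨?_, fun h => h2 (h.trans (Nat.le_succ _))⟩
      refine le_trans ?_ h1
      apply mul_le_mul_of_nonneg_left _ (abs_nonneg _)
      exact_mod_cast Nat.le_succ _
    have hcard : (Finset.univ.filter (fun ω : Seed p =>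
        out (est ω (l.foldl (step ω) (init ω))) ∉ G)).card * H D
        ≤ Q D * ((Q D + 1) * (p * p * p)) := by
      calc _ ≤ (Finset.univ.biUnion B).card * H D :=
            Nat.mul_le_mul_right _ (Finset.card_le_card hsub)
        _ ≤ (∑ j : Fin J, (B j).card) * H D :=
            Nat.mul_le_mul_right _ Finset.card_biUnion_le
        _ = ∑ j : Fin J, (B j).card * H D := by rw [Finset.sum_mul]
        _ ≤ ∑ j : Fin J, (R + 1) * (p * p * p) := Finset.sum_le_sum (fun j _ => hB1 j)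
        _ = J * ((R + 1) * (p * p * p)) := by
            rw [Finset.sum_const, Finset.card_univ, Fintype.card_fin, smul_eq_mul]
        _ ≤ Q D * ((Q D + 1) * (p * p * p)) := by
            apply Nat.mul_le_mul hJQ
            apply Nat.mul_le_mul_right
            omega
    have hc1 : Fintype.card (Seed p) = p * p * p := by
      simp only [Seed, Fintype.card_prod, ZMod.card]; ring
    rw [hc1]
    set b := (Finset.univ.filter (fun ω : Seed p =>
        out (est ω (l.foldl (step ω) (init ω))) ∉ G)).card with hb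
    rcases Nat.eq_zero_or_pos (Q D) with h0 | h0
    · rw [h0, zero_mul] at hcard
      have : b = 0 := by
        rcases Nat.eq_zero_or_pos b with h | h
        · exact h
        · exfalso
          have := Nat.mul_pos h hHpos
          omega
      rw [this]
      omega
    · have h1 : 3 * b * (Q D * (Q D + 1)) ≤ p * p * p * (Q D * (Q D + 1)) := by
        calc 3 * b * (Q D * (Q D + 1)) = b * (3 * (Q D) * (Q D + 1)) := by ring
          _ ≤ b * H D := Nat.mul_le_mul_left _ (Nat.le_succ _)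
          _ ≤ Q D * ((Q D + 1) * (p * p * p)) := hcard
          _ = p * p * p * (Q D * (Q D + 1)) := by ring
      exact Nat.le_of_mul_le_mul_right h1 (Nat.mul_pos h0 (Nat.succ_pos _))

end Pool.Agent.H29.Stream
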