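import Pool.Agent.H29.Stream.Hash

/-!
First and second moment bounds for the sampled cells.
-/

set_option autoImplicit false

namespace Pool.Agent.H29.Stream

open Classical in
/-- The sampled part of the sum of `f` over the cells `O`. -/
noncomputable def X (p : ℕ) (q : ℕ) (f : ℕ × ℕ → ℝ) (O : Finset (ℕ × ℕ)) (ω : Seed p) : ℝ :=
  ∑ c ∈ O, if samp p ω q c then f c else 0

section
variable {p : ℕ} [hp : Fact p.Prime]

open Classical in
theorem sum_ind {q : ℕ} (hq : q ≤ p) (c : ℕ × ℕ) :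
    ∑ ω : Seed p, (if samp p ω q c then (1 : ℝ) else 0) = p * p * q := by
  rw [Finset.sum_boole, card_samp hq c]
  push_cast; ring

open Classical in
theorem sum_ind2 {q : ℕ} (hq : q ≤ p) (c c' : ℕ × ℕ) (h1 : c.1 < p) (h2 : c.2 < p)
    (h1' : c'.1 < p) (h2' : c'.2 < p) (hne : c ≠ c') :
    ∑ ω : Seed p, (if samp p ω q c then (1 : ℝ) else 0) * (if samp p ω q c' then (1 : ℝ) else 0)
      = p * q * q := by
  have : ∀ ω : Seed p, (if samp p ω q c then (1 : ℝ) else 0) *
      (if samp p ω q c' then (1 : ℝ) else 0)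
      = if (samp p ω q c ∧ samp p ω q c') then (1 : ℝ) else 0 := by
    intro ω
    by_cases hA : samp p ω q c <;> by_cases hB : samp p ω q c' <;> simp [hA, hB]
  simp_rw [this]
  rw [Finset.sum_boole, card_samp2 hq c c' h1 h2 h1' h2' hne]
  push_cast; ring

theorem card_seed : (Fintype.card (Seed p) : ℝ) = p * p * p := by
  simp only [Seed, Fintype.card_prod, ZMod.card]
  push_cast; ring

open Classical in
theorem cross_moment {q : ℕ} (hq : q ≤ p) (c c' : ℕ × ℕ) (h1 : c.1 < p) (h2 : c.2 < p)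
    (h1' : c'.1 < p) (h2' : c'.2 < p) (hne : c ≠ c') :
    ∑ ω : Seed p, ((p : ℝ) * (if samp p ω q c then (1 : ℝ) else 0) - q) *
      ((p : ℝ) * (if samp p ω q c' then (1 : ℝ) else 0) - q) = 0 := by
  have e : ∀ ω : Seed p, ((p : ℝ) * (if samp p ω q c then (1 : ℝ) else 0) - q) *
      ((p : ℝ) * (if samp p ω q c' then (1 : ℝ) else 0) - q)
      = (p : ℝ) ^ 2 * ((if samp p ω q c then (1 : ℝ) else 0) *
          (if samp p ω q c' then (1 : ℝ) else 0))
        - p * q * (if samp p ω q c then (1 : ℝ) else 0)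
        - p * q * (if samp p ω q c' then (1 : ℝ) else 0) + q ^ 2 := by
    intro ω; ring
  simp_rw [e]
  rw [Finset.sum_add_distrib, Finset.sum_sub_distrib, Finset.sum_sub_distrib,
    ← Finset.mul_sum, ← Finset.mul_sum, ← Finset.mul_sum, sum_ind2 hq c c' h1 h2 h1' h2' hne,
    sum_ind hq c, sum_ind hq c', Finset.sum_const, Finset.card_univ, nsmul_eq_mul, card_seed]
  ring

open Classical in
theorem diag_moment {q : ℕ} (hq : q ≤ p) (c : ℕ × ℕ) :
    ∑ ω : Seed p, ((p : ℝ) * (if samp p ω q c then (1 : ℝ) else 0) - q) *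
      ((p : ℝ) * (if samp p ω q c then (1 : ℝ) else 0) - q) ≤ p ^ 4 * q := by
  have e : ∀ ω : Seed p, ((p : ℝ) * (if samp p ω q c then (1 : ℝ) else 0) - q) *
      ((p : ℝ) * (if samp p ω q c then (1 : ℝ) else 0) - q)
      = ((p : ℝ) ^ 2 - 2 * p * q) * (if samp p ω q c then (1 : ℝ) else 0) + q ^ 2 := by
    intro ω
    by_cases hA : samp p ω q c
    · simp only [hA, if_true]; ring
    · simp only [hA, if_false]; ring
  simp_rw [e]
  rw [Finset.sum_add_distrib, ← Finset.mul_sum, sum_ind hq c, Finset.sum_const,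
    Finset.card_univ, nsmul_eq_mul, card_seed]
  have : (0 : ℝ) ≤ (p : ℝ) ^ 3 * (q : ℝ) ^ 2 := by positivity
  nlinarith

open Classical in
theorem second_moment {q : ℕ} (hq : q ≤ p) (f : ℕ × ℕ → ℝ) (hf : ∀ c, |f c| ≤ 1)
    (O : Finset (ℕ × ℕ)) (hO : ∀ c ∈ O, c.1 < p ∧ c.2 < p) :
    ∑ ω : Seed p, (p * X p q f O ω - q * ∑ c ∈ O, f c) ^ 2 ≤ (p : ℝ) ^ 4 * q * O.card := by
  have e : ∀ ω : Seed p, (p * X p q f O ω - q * ∑ c ∈ O, f c) ^ 2
      = ∑ c ∈ O, ∑ c' ∈ O, (f c * f c') *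
        (((p : ℝ) * (if samp p ω q c then (1 : ℝ) else 0) - q) *
          ((p : ℝ) * (if samp p ω q c' then (1 : ℝ) else 0) - q)) := by
    intro ω
    have e1 : p * X p q f O ω - q * ∑ c ∈ O, f c
        = ∑ c ∈ O, f c * ((p : ℝ) * (if samp p ω q c then (1 : ℝ) else 0) - q) := by
      unfold X
      rw [Finset.mul_sum, Finset.mul_sum, ← Finset.sum_sub_distrib]
      apply Finset.sum_congr rfl
      intro c _
      by_cases hA : samp p ω q c
      · simp only [hA, if_true]; ring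
      · simp only [hA, if_false]; ring
    rw [e1, sq, Finset.sum_mul_sum]
    apply Finset.sum_congr rfl
    intro c _
    apply Finset.sum_congr rfl
    intro c' _
    ring
  simp_rw [e]
  rw [Finset.sum_comm]
  have e2 : ∀ c ∈ O, ∑ ω : Seed p, ∑ c' ∈ O, (f c * f c') *
        (((p : ℝ) * (if samp p ω q c then (1 : ℝ) else 0) - q) *
          ((p : ℝ) * (if samp p ω q c' then (1 : ℝ) else 0) - q)) ≤ (p : ℝ) ^ 4 * q := by
    intro c hc
    rw [Finset.sum_comm]
    have e3 : ∀ c' ∈ O, ∑ ω : Seed p, (f c * f c') *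
        (((p : ℝ) * (if samp p ω q c then (1 : ℝ) else 0) - q) *
          ((p : ℝ) * (if samp p ω q c' then (1 : ℝ) else 0) - q))
        = if c' = c then f c * f c * ∑ ω : Seed p,
          (((p : ℝ) * (if samp p ω q c then (1 : ℝ) else 0) - q) *
          ((p : ℝ) * (if samp p ω q c then (1 : ℝ) else 0) - q)) else 0 := by
      intro c' hc'
      rw [← Finset.mul_sum]
      by_cases h : c' = c
      · subst h; simp
      · rw [if_neg h, cross_moment hq c c' (hO c hc).1 (hO c hc).2 (hO c' hc').1 (hO c' hc').2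
          (Ne.symm h), mul_zero]
    rw [Finset.sum_congr rfl e3, Finset.sum_ite_eq' O c, if_pos hc]
    have h1 := diag_moment hq c
    have h0 : 0 ≤ ∑ ω : Seed p, ((p : ℝ) * (if samp p ω q c then (1 : ℝ) else 0) - q) *
      ((p : ℝ) * (if samp p ω q c then (1 : ℝ) else 0) - q) :=
      Finset.sum_nonneg (fun ω _ => mul_self_nonneg _)
    have h2 : f c * f c ≤ 1 := by
      have := hf c
      rw [← sq]
      exact (sq_le_one_iff_abs_le_one _).2 this
    calc _ ≤ 1 * ∑ ω : Seed p, ((p : ℝ) * (if samp p ω q c then (1 : ℝ) else 0) - q) *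
      ((p : ℝ) * (if samp p ω q c then (1 : ℝ) else 0) - q) :=
          mul_le_mul_of_nonneg_right h2 h0
      _ ≤ (p : ℝ) ^ 4 * q := by rw [one_mul]; exact h1
  calc _ ≤ ∑ c ∈ O, (p : ℝ) ^ 4 * q := Finset.sum_le_sum e2
    _ = (p : ℝ) ^ 4 * q * O.card := by rw [Finset.sum_const, nsmul_eq_mul]; ring

/-- Markov's inequality for counting. -/
theorem markov_count {Ω : Type} [Fintype Ω] (g : Ω → ℝ) (hg : ∀ ω, 0 ≤ g ω) (t : ℝ) (ht : 0 ≤ t)
    (B : Finset Ω) (hB : ∀ ω ∈ B, t ≤ g ω) : (B.card : ℝ) * t ≤ ∑ ω, g ω := by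
  calc (B.card : ℝ) * t = ∑ ω ∈ B, t := by rw [Finset.sum_const, nsmul_eq_mul]
    _ ≤ ∑ ω ∈ B, g ω := Finset.sum_le_sum hB
    _ ≤ ∑ ω, g ω := Finset.sum_le_univ_sum_of_nonneg hg

end

end Pool.Agent.H29.Stream
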