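import Pool.Agent.H29.Stream.Main
import Pool.Agent.H29.Stream.Seed

/-!
The window version of the streaming theorem, in the form of a seeded streaming algorithm.
-/

set_option autoImplicit false

namespace Pool.Agent.H29.Stream

/-- **Window version of the streaming theorem.** -/
theorem seedStr_window (q A a : ℕ) (X : ℕ → List (ℕ × ℕ) → Set ℝ)
    (h : ∀ Δ : ℕ, 1 ≤ Δ → ∃ (K W R J : ℕ)
      (φ : Fin R → ℕ → ℕ × ℕ → Finset (ℕ × ℕ) → ℝ) (out : (Fin R → ℕ → ℝ) → ℝ),
      K ≤ A * (Nat.log 2 Δ + 1) ^ a ∧ W ≤ A * (Nat.log 2 Δ + 1) ^ a ∧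
      R ≤ A * (Nat.log 2 Δ + 1) ^ a ∧ J ≤ A * (Nat.log 2 Δ + 1) ^ a ∧
      (∀ r j c s, |φ r j c s| ≤ 1) ∧
      ∀ l : List (ℕ × ℕ), InBox Δ l → ∀ S : Fin R → ℕ → ℝ,
        (∀ r j, j < J →
          |S r j - stat K W j (φ r j) l| * ((A * (Nat.log 2 Δ + 1) ^ a : ℕ) : ℝ)
            ≤ (occ K j l).card ∧
          ((occ K j l).card ≤ A * (Nat.log 2 Δ + 1) ^ a →
            S r j = stat K W j (φ r j) l)) → out S ∈ X Δ l) :
    SeedStr q X := by
  classical
  -- the exponent
  let Q : ℕ → ℕ := fun D => A * D ^ a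
  let E : ℕ → ℕ := fun D => Q D + 1
  let H : ℕ → ℕ := fun D => q * (Q D * (Q D + 1)) + 1
  let m : ℕ → ℕ := fun D => 8 * (2 * Q D + 1) ^ 2 * H D ^ 2 * E D ^ 2
  let I : ℕ → ℕ := fun D => 2 * (Q D + D) + 2
  let Y : ℕ → ℕ := fun D => 3 * (2 * (Q D + D) + 1)
    + ((2 * (Q D + D) + 1) * m D + 1) * (Q D * I D)
  have hQ : PB Q := (PB.const A).mul (PB.id.pow a)
  have hE : PB E := hQ.add (PB.const 1)
  have hH : PB H :=
    ((PB.const q).mul (hQ.mul (hQ.add (PB.const 1)))).add (PB.const 1)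
  have hm : PB m := (((PB.const 8).mul ((((PB.const 2).mul hQ).add (PB.const 1)).pow 2)).mul
    (hH.pow 2)).mul (hE.pow 2)
  have hKD : PB (fun D => 2 * (Q D + D)) := (PB.const 2).mul (hQ.add PB.id)
  have hI : PB I := hKD.add (PB.const 2)
  have hX : PB Y := ((PB.const 3).mul (hKD.add (PB.const 1))).add
    ((((hKD.add (PB.const 1)).mul hm).add (PB.const 1)).mul (hQ.mul hI))
  obtain ⟨C, k, hCk⟩ := hX
  refine ⟨C, k, ?_⟩
  intro Δ hΔ
  obtain ⟨K, W, R, J, φ, out, hK, hW, hR, hJ, hφ, hG⟩ := h Δ hΔ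
  have hΔD0 : Δ < 2 ^ (Nat.log 2 Δ + 1) := Nat.lt_pow_succ_log_self (by norm_num) Δ
  obtain ⟨D, hD⟩ : ∃ D, D = Nat.log 2 Δ + 1 := ⟨_, rfl⟩
  rw [← hD] at hK hW hR hJ hG hΔD0 ⊢
  have hD1 : 1 ≤ D := by omega
  have hΔD : Δ < 2 ^ D := hΔD0
  set M := K * 2 ^ D + 1 with hM
  have hKQ : K ≤ Q D := hK
  have hWQ : W ≤ Q D := hW
  have hRQ : R ≤ Q D := hR
  have hJQ : J ≤ Q D := hJ
  have hM2' : M ≤ 2 ^ (K + D) := by
    have h1 : K + 1 ≤ 2 ^ K := Nat.lt_two_pow_self
    have h2 : 1 ≤ 2 ^ D := Nat.one_le_two_pow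
    calc M = K * 2 ^ D + 1 := rfl
      _ ≤ K * 2 ^ D + 2 ^ D := by omega
      _ = (K + 1) * 2 ^ D := by ring
      _ ≤ 2 ^ K * 2 ^ D := Nat.mul_le_mul_right _ h1
      _ = 2 ^ (K + D) := by rw [pow_add]
  have hM2 : M ≤ 2 ^ (Q D + D) :=
    hM2'.trans (Nat.pow_le_pow_right (by norm_num) (by omega))
  have hM0 : 0 < M := by omega
  obtain ⟨p, hpp, hpl, hpu⟩ := Nat.exists_prime_lt_and_le_two_mul (M * M) (by positivity)
  have hfact : Fact p.Prime := ⟨hpp⟩
  have hMM : M * M ≤ 2 ^ (2 * (Q D + D)) := by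
    calc M * M ≤ 2 ^ (Q D + D) * 2 ^ (Q D + D) := Nat.mul_le_mul hM2 hM2
      _ = 2 ^ (2 * (Q D + D)) := by rw [← pow_add]; congr 1; ring
  have hpU : p ≤ 2 ^ (2 * (Q D + D) + 1) := by
    calc p ≤ 2 * (M * M) := hpu
      _ ≤ 2 * 2 ^ (2 * (Q D + D)) := Nat.mul_le_mul_left _ hMM
      _ = 2 ^ (2 * (Q D + D) + 1) := by rw [pow_succ]; ring
  have hpI : p < 2 ^ (I D) := by
    calc p ≤ 2 ^ (2 * (Q D + D) + 1) := hpU
      _ < 2 ^ (2 * (Q D + D) + 2) := Nat.pow_lt_pow_right (by norm_num) (by omega)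
  -- the automaton
  let init : Seed p → (Fin J × Fin (I D) → St0 M (m D)) := fun _ _ => nrm M (m D) ∅
  let step : Seed p → (Fin J × Fin (I D) → St0 M (m D)) → ℕ × ℕ →
      (Fin J × Fin (I D) → St0 M (m D)) :=
    fun ω s x => fun ji => step0 p W (thr p ji.2) M (m D) (cell K ji.1) ω (s ji) x
  let u : (Fin J × Fin (I D) → St0 M (m D)) → ℕ → ℕ → Option (Finset (ℕ × ℕ)) :=
    fun s j i => if h : j < J ∧ i < I D then (s (⟨j, h.1⟩, ⟨i, h.2⟩)).map Subtype.val else none
  let est : Seed p → (Fin J × Fin (I D) → St0 M (m D)) → Fin R → ℕ → ℝ :=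
    fun ω s r j => estFrom p W (φ r j) ω (u s j)
  have hne : Nonempty (Seed p) := ⟨(0, 0, 0)⟩
  refine ⟨Seed p, Fin J × Fin (I D) → St0 M (m D), inferInstance, hne, inferInstance,
    ⟨fun _ => none⟩, init, step, fun ω s => out (est ω s), ?_, ?_⟩
  · -- the number of states
    have hc1 : Fintype.card (Seed p) = p ^ 3 := by
      simp only [Seed, Fintype.card_prod, ZMod.card]; ring
    have hc2 : Fintype.card (Fin J × Fin (I D) → St0 M (m D))
        = ((states M (m D)).card + 1) ^ (J * I D) := by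
      rw [Fintype.card_fun, Fintype.card_prod, Fintype.card_fin, Fintype.card_fin,
        Fintype.card_option, Fintype.card_coe]
    rw [hc1, hc2]
    have hs : (states M (m D)).card + 1 ≤ 2 ^ ((2 * (Q D + D) + 1) * m D + 1) := by
      have h1 := card_states_le M (m D)
      have h2 : M * M + 1 ≤ 2 ^ (2 * (Q D + D) + 1) := by
        have : 1 ≤ 2 ^ (2 * (Q D + D)) := Nat.one_le_two_pow
        rw [pow_succ]; omega
      have h3 : (M * M + 1) ^ (m D) ≤ 2 ^ ((2 * (Q D + D) + 1) * m D) := by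
        calc (M * M + 1) ^ (m D) ≤ (2 ^ (2 * (Q D + D) + 1)) ^ (m D) :=
              Nat.pow_le_pow_left h2 _
          _ = 2 ^ ((2 * (Q D + D) + 1) * m D) := by rw [← pow_mul]
      have h4 : 1 ≤ 2 ^ ((2 * (Q D + D) + 1) * m D) := Nat.one_le_two_pow
      rw [pow_succ]
      omega
    calc p ^ 3 * ((states M (m D)).card + 1) ^ (J * I D)
        ≤ (2 ^ (2 * (Q D + D) + 1)) ^ 3 * (2 ^ ((2 * (Q D + D) + 1) * m D + 1)) ^ (J * I D) := by
          apply Nat.mul_le_mul
          · exact Nat.pow_le_pow_left hpU 3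
          · exact Nat.pow_le_pow_left hs _
      _ = 2 ^ ((2 * (Q D + D) + 1) * 3 + ((2 * (Q D + D) + 1) * m D + 1) * (J * I D)) := by
          rw [← pow_mul, ← pow_mul, ← pow_add]
      _ ≤ 2 ^ (Y D) := by
          apply Nat.pow_le_pow_right (by norm_num)
          apply Nat.add_le_add
          · omega
          · apply Nat.mul_le_mul_left
            exact Nat.mul_le_mul_right _ hJ
      _ ≤ 2 ^ (C * D ^ k) := Nat.pow_le_pow_right (by norm_num) (hCk D hD1)
  · intro l hl
    specialize hG l hl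
    -- occupied cells lie in the box
    have hbox : ∀ j, occ K j l ⊆ Finset.range M ×ˢ Finset.range M := by
      intro j c hc
      unfold occ at hc
      rw [List.mem_toFinset, List.mem_map] at hc
      obtain ⟨x, hx, rfl⟩ := hc
      obtain ⟨_, h1, _, h2⟩ := hl x hx
      rw [Finset.mem_product, Finset.mem_range, Finset.mem_range]
      have h3 : ∀ y : ℕ, y ≤ Δ → y * K / 2 ^ j < M := by
        intro y hy
        calc y * K / 2 ^ j ≤ y * K := Nat.div_le_self _ _
          _ ≤ 2 ^ D * K := Nat.mul_le_mul_right _ (hy.trans hΔD.le)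
          _ = K * 2 ^ D := by ring
          _ < M := Nat.lt_succ_self _
      exact ⟨h3 _ h1, h3 _ h2⟩
    have hfold : ∀ ω, l.foldl (step ω) (init ω)
        = fun ji : Fin J × Fin (I D) =>
          nrm M (m D) (recd p W (thr p ji.2) ω (occ K ji.1 l)) := by
      intro ω
      have h := foldl_prod (fun (ji : Fin J × Fin (I D)) s x =>
        step0 p W (thr p ji.2) M (m D) (cell K ji.1) ω s x) l (init ω)
      rw [show step ω = (fun s x => fun ji : Fin J × Fin (I D) =>
        step0 p W (thr p ji.2) M (m D) (cell K ji.1) ω (s ji) x) from rfl, h]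
      funext ji
      exact foldl_step0 p W (thr p ji.2) M (m D) (cell K ji.1) ω l
    have hEpos : 0 < E D := Nat.succ_pos _
    have hHpos : 0 < H D := Nat.succ_pos _
    have hmW : 8 * (2 * W + 1) ^ 2 * H D ^ 2 * E D ^ 2 ≤ m D := by
      simp only [m]
      apply Nat.mul_le_mul_right
      apply Nat.mul_le_mul_right
      apply Nat.mul_le_mul_left
      apply Nat.pow_le_pow_left
      omega
    have hscale : ∀ j : Fin J, ∃ B : Finset (Seed p),
        B.card * H D ≤ (R + 1) * (p * p * p) ∧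
        ∀ ω, ω ∉ B → ∀ r : Fin R,
          |est ω (l.foldl (step ω) (init ω)) r j - stat K W j (φ r j) l| * E D
            ≤ (occ K j l).card ∧
          ((occ K j l).card ≤ E D →
            est ω (l.foldl (step ω) (init ω)) r j = stat K W j (φ r j) l) := by
      intro j
      exact one_scale W M (m D) (H D) (E D) (I D) R hpl.le hmW hHpos hEpos hpI
        (occ K j l) (hbox j) (fun r => φ r j) (fun r c s => hφ r j c s)
        (fun ω => u (l.foldl (step ω) (init ω)) j) (by
          intro ω i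
          simp only [u, hfold]
          by_cases hi : i < I D
          · rw [dif_pos ⟨j.2, hi⟩, nrm_map]
            by_cases hst : recd p W (thr p i) ω (occ K j l) ∈ states M (m D)
            · rw [if_pos hst, if_pos ⟨hi, hst⟩]
            · rw [if_neg hst, if_neg (fun h => hst h.2)]
          · rw [dif_neg (fun h => hi h.2), if_neg (fun h => hi h.1)])
    choose B hB1 hB2 using hscale
    have hsub : (Finset.univ.filter (fun ω : Seed p =>
        out (est ω (l.foldl (step ω) (init ω))) ∉ X Δ l)) ⊆ Finset.univ.biUnion B := by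
      intro ω hω
      rw [Finset.mem_filter] at hω
      by_contra hcon
      apply hω.2
      apply hG
      intro r j hj
      have hωj : ω ∉ B ⟨j, hj⟩ := by
        intro h
        exact hcon (Finset.mem_biUnion.2 ⟨⟨j, hj⟩, Finset.mem_univ _, h⟩)
      obtain ⟨h1, h2⟩ := hB2 ⟨j, hj⟩ ω hωj r
      refine ⟨?_, fun h => h2 (h.trans (Nat.le_succ _))⟩
      refine le_trans ?_ h1
      apply mul_le_mul_of_nonneg_left _ (abs_nonneg _)
      exact_mod_cast Nat.le_succ _
    have hcard : (Finset.univ.filter (fun ω : Seed p =>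
        out (est ω (l.foldl (step ω) (init ω))) ∉ X Δ l)).card * H D
        ≤ Q D * ((Q D + 1) * (p * p * p)) := by
      calc _ ≤ (Finset.univ.biUnion B).card * H D :=
            Nat.mul_le_mul_right _ (Finset.card_le_card hsub)
        _ ≤ (∑ j : Fin J, (B j).card) * H D :=
            Nat.mul_le_mul_right _ Finset.card_biUnion_le
        _ = ∑ j : Fin J, (B j).card * H D := by rw [Finset.sum_mul]
        _ ≤ ∑ j : Fin J, (R + 1) * (p * p * p) := Finset.sum_le_sum (fun j _ => hB1 j)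
        _ = J * ((R + 1) * (p * p * p)) := by
            rw [Finset.sum_const, Finset.card_univ, Fintype.card_fin, smul_eq_mul]
        _ ≤ Q D * ((Q D + 1) * (p * p * p)) := by
            apply Nat.mul_le_mul hJQ
            apply Nat.mul_le_mul_right
            omega
    have hc1 : Fintype.card (Seed p) = p * p * p := by
      simp only [Seed, Fintype.card_prod, ZMod.card]; ring
    rw [hc1]
    set b := (Finset.univ.filter (fun ω : Seed p =>
        out (est ω (l.foldl (step ω) (init ω))) ∉ X Δ l)).card with hb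
    rcases Nat.eq_zero_or_pos (Q D) with h0 | h0
    · rw [h0, zero_mul] at hcard
      have : b = 0 := by
        rcases Nat.eq_zero_or_pos b with h | h
        · exact h
        · exfalso
          have := Nat.mul_pos h hHpos
          omega
      rw [this]
      omega
    · have h1 : q * b * (Q D * (Q D + 1)) ≤ p * p * p * (Q D * (Q D + 1)) := by
        calc q * b * (Q D * (Q D + 1)) = b * (q * (Q D * (Q D + 1))) := by ring
          _ ≤ b * H D := Nat.mul_le_mul_left _ (Nat.le_succ _)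
          _ ≤ Q D * ((Q D + 1) * (p * p * p)) := hcard
          _ = p * p * p * (Q D * (Q D + 1)) := by ring
      exact Nat.le_of_mul_le_mul_right h1 (Nat.mul_pos h0 (Nat.succ_pos _))

end Pool.Agent.H29.Stream
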