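import Pool.Agent.H29.Stream.MstGeo
import Pool.Agent.H29.Stream.Window

/-!
Streaming approximation of the weight of a minimum spanning tree.
-/

set_option autoImplicit false

namespace Pool.Agent.H29.Stream

open Classical Pool.Agent.H49.Tsp

theorem card_pts {K : ℕ} (hK : 0 < K) (l : List (ℕ × ℕ)) : (occ K 0 l).card = (pts l).card := by
  have h : Set.InjOn (gcell K 0) (pts l) := by
    intro a ha b hb hab
    obtain ⟨x, _, rfl⟩ := Finset.mem_image.1 ha
    obtain ⟨y, _, rfl⟩ := Finset.mem_image.1 hb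
    rw [gcell_toC, gcell_toC] at hab
    unfold cell at hab
    rw [pow_zero, Nat.div_one, Nat.div_one, Nat.div_one, Nat.div_one, Prod.mk.injEq] at hab
    rw [Prod.ext (Nat.eq_of_mul_eq_mul_right hK hab.1) (Nat.eq_of_mul_eq_mul_right hK hab.2)]
  rw [occ_eq, Finset.card_image_of_injOn h]

/-- The exact estimator. -/
theorem est_bounds {R : ℕ} (hR : 0 < R) (J : ℕ) (l : List (ℕ × ℕ)) (T : RTree (pts l))
    (hT : T.IsMst) (hlen : ∀ v ∈ pts l, v ≠ T.root → 1 ≤ T.len v ∧ T.len v ≤ 2 ^ J) :
    |(((pts l).card : ℝ) - 1 + ∑ j ∈ Finset.range J, ∑ r ∈ Finset.range R,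
      (2 : ℝ) ^ j / R * ((ncomp (adj (4 * (R + r) + 2)) (occ (4 * R) j l) : ℝ) - 1)) - T.total|
      ≤ 1 / R * T.total := by
  have hR' : (0 : ℝ) < R := by exact_mod_cast hR
  have hcount : ∑ v ∈ pts l, (if v = T.root then (0 : ℝ) else 1) = (pts l).card - 1 := by
    have h1 : ∀ v ∈ pts l, (if v = T.root then (0 : ℝ) else 1)
        = 1 - (if v = T.root then (1 : ℝ) else 0) := by
      intro v _
      split_ifs <;> norm_num
    rw [Finset.sum_congr rfl h1, Finset.sum_sub_distrib, Finset.sum_const, nsmul_eq_mul, mul_one,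
      Finset.sum_ite_eq', ite_cond_eq_true _ _ (eq_true T.root_mem)]
  have hmem : ∀ a ∈ pts l, ∃ x ∈ l, toC x = a := by
    intro a ha
    obtain ⟨x, hx, rfl⟩ := Finset.mem_image.1 ha
    exact ⟨x, List.mem_toFinset.1 hx, rfl⟩
  have hO : ∀ j, ∀ c, c ∈ occ (4 * R) j l ↔ ∃ a ∈ pts l, gcell (4 * R) j a = c := by
    intro j c
    rw [occ_eq, Finset.mem_image]
  have hup : ∀ j r, (ncomp (adj (4 * (R + r) + 2)) (occ (4 * R) j l) : ℝ) - 1
      ≤ ∑ v ∈ pts l, if tt R j r < T.len v then (1 : ℝ) else 0 := by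
    intro j r
    have h := ncomp_le_top T (gcell (4 * R) j) (occ (4 * R) j l) (hO j)
      (adj (4 * (R + r) + 2)) (adj_symm _) (tt R j r)
      (by
        intro a ha b hb hab
        obtain ⟨x, _, rfl⟩ := hmem a ha
        obtain ⟨y, _, rfl⟩ := hmem b hb
        rw [gcell_toC, gcell_toC]
        exact adj_of_close hR j r x y hab)
    have h2 := card_top T (tt R j r) (tt_pos hR j r).le
    have h3 : (ncomp (adj (4 * (R + r) + 2)) (occ (4 * R) j l) : ℝ) ≤ (top T (tt R j r)).card := by
      exact_mod_cast h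
    linarith
  have hlo : ∀ j r, (∑ v ∈ pts l, if tt R j (r + 1) < T.len v then (1 : ℝ) else 0)
      ≤ (ncomp (adj (4 * (R + r) + 2)) (occ (4 * R) j l) : ℝ) - 1 := by
    intro j r
    have h := top_le_ncomp T (gcell (4 * R) j) (occ (4 * R) j l) (hO j)
      (adj (4 * (R + r) + 2)) hT (adj_refl _) (tt R j (r + 1))
      (by
        intro a ha b hb hab
        obtain ⟨x, _, rfl⟩ := hmem a ha
        obtain ⟨y, _, rfl⟩ := hmem b hb
        rw [gcell_toC, gcell_toC] at hab
        exact close_of_adj hR j r x y hab)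
    have h2 := card_top T (tt R j (r + 1)) (tt_pos hR j _).le
    have h3 : ((top T (tt R j (r + 1))).card : ℝ)
        ≤ (ncomp (adj (4 * (R + r) + 2)) (occ (4 * R) j l) : ℝ) := by
      exact_mod_cast h
    linarith
  have hswap : ∀ f : ℕ → ℕ → ℂ → ℝ, ∑ j ∈ Finset.range J, ∑ r ∈ Finset.range R,
      (2 : ℝ) ^ j / R * (∑ v ∈ pts l, f j r v)
      = ∑ v ∈ pts l, ∑ j ∈ Finset.range J, ∑ r ∈ Finset.range R, (2 : ℝ) ^ j / R * f j r v := by
    intro f
    symm
    rw [Finset.sum_comm]
    apply Finset.sum_congr rfl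
    intro j _
    rw [Finset.sum_comm]
    apply Finset.sum_congr rfl
    intro r _
    rw [Finset.mul_sum]
  have hroot : ∀ j r, ¬ (tt R j r < T.len T.root) := by
    intro j r
    rw [T.len_root]
    exact not_lt.2 (tt_pos hR j r).le
  have htot : T.total = ∑ v ∈ pts l, T.len v := rfl
  rw [abs_le]
  constructor
  · have h1 : ∑ v ∈ pts l, ((1 - 1 / (R : ℝ)) * T.len v - (if v = T.root then 0 else 1))
        ≤ ∑ j ∈ Finset.range J, ∑ r ∈ Finset.range R,
      (2 : ℝ) ^ j / R * ((ncomp (adj (4 * (R + r) + 2)) (occ (4 * R) j l) : ℝ) - 1) := by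
      calc _ ≤ ∑ v ∈ pts l, ∑ j ∈ Finset.range J, ∑ r ∈ Finset.range R,
            (2 : ℝ) ^ j / R * (if tt R j (r + 1) < T.len v then 1 else 0) := by
            apply Finset.sum_le_sum
            intro v hv
            by_cases hvr : v = T.root
            · subst hvr
              rw [T.len_root, ite_cond_eq_true _ _ (eq_true rfl), mul_zero, sub_zero]
              exact Finset.sum_nonneg fun j _ => Finset.sum_nonneg fun r _ => by positivity
            · rw [ite_cond_eq_false _ _ (eq_false hvr)]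
              exact scale_lower hR J _ (hlen v hv hvr).1 (hlen v hv hvr).2
        _ = _ := (hswap _).symm
        _ ≤ _ := by
            refine Finset.sum_le_sum fun j _ => Finset.sum_le_sum fun r _ => ?_
            exact mul_le_mul_of_nonneg_left (hlo j r) (by positivity)
    rw [Finset.sum_sub_distrib, ← Finset.mul_sum, hcount, ← htot] at h1
    linarith
  · have h1 : ∑ j ∈ Finset.range J, ∑ r ∈ Finset.range R,
      (2 : ℝ) ^ j / R * ((ncomp (adj (4 * (R + r) + 2)) (occ (4 * R) j l) : ℝ) - 1)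
        ≤ ∑ v ∈ pts l, ((1 + 1 / (R : ℝ)) * T.len v - (if v = T.root then 0 else 1)) := by
      calc _ ≤ ∑ j ∈ Finset.range J, ∑ r ∈ Finset.range R,
            (2 : ℝ) ^ j / R * (∑ v ∈ pts l, if tt R j r < T.len v then 1 else 0) := by
            refine Finset.sum_le_sum fun j _ => Finset.sum_le_sum fun r _ => ?_
            exact mul_le_mul_of_nonneg_left (hup j r) (by positivity)
        _ = _ := hswap _
        _ ≤ _ := by
            apply Finset.sum_le_sum
            intro v hv
            by_cases hvr : v = T.root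
            · subst hvr
              rw [T.len_root, ite_cond_eq_true _ _ (eq_true rfl), mul_zero, sub_zero]
              refine le_of_eq (Finset.sum_eq_zero fun j _ => Finset.sum_eq_zero fun r _ => ?_)
              rw [ite_cond_eq_false _ _ (eq_false (not_lt.2 (tt_pos hR j r).le)), mul_zero]
            · rw [ite_cond_eq_false _ _ (eq_false hvr)]
              exact scale_upper hR J _ (hlen v hv hvr).1
    rw [Finset.sum_sub_distrib, ← Finset.mul_sum, hcount, ← htot] at h1
    linarith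

theorem len_bounds {Δ : ℕ} {l : List (ℕ × ℕ)} (hl : InBox Δ l) (T : RTree (pts l)) :
    ∀ v ∈ pts l, v ≠ T.root → 1 ≤ T.len v ∧ T.len v ≤ 2 ^ (Nat.log 2 Δ + 2) := by
  intro v hv hr
  have hp := T.par_mem v hv
  have hne := T.par_ne hv hr
  unfold RTree.len
  obtain ⟨x, hx, hxv⟩ := Finset.mem_image.1 hv
  obtain ⟨y, hy, hyv⟩ := Finset.mem_image.1 hp
  rw [← hyv, ← hxv]
  have hxy : x ≠ y := by
    rintro rfl
    exact hne (hyv.symm.trans hxv)
  have hx' := hl x (List.mem_toFinset.1 hx)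
  have hy' := hl y (List.mem_toFinset.1 hy)
  constructor
  · by_cases h1 : x.1 = y.1
    · have h2 : x.2 ≠ y.2 := fun h2 => hxy (Prod.ext h1 h2)
      refine le_trans ?_ (Complex.abs_im_le_norm _)
      rw [Complex.sub_im, toC_im, toC_im]
      have h3 : (1 : ℤ) ≤ |(x.2 : ℤ) - y.2| := Int.one_le_abs (by omega)
      have h4 : ((1 : ℤ) : ℝ) ≤ ((|(x.2 : ℤ) - y.2| : ℤ) : ℝ) := by exact_mod_cast h3
      push_cast at h4
      exact h4
    · refine le_trans ?_ (Complex.abs_re_le_norm _)
      rw [Complex.sub_re, toC_re, toC_re]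
      have h3 : (1 : ℤ) ≤ |(x.1 : ℤ) - y.1| := Int.one_le_abs (by omega)
      have h4 : ((1 : ℤ) : ℝ) ≤ ((|(x.1 : ℤ) - y.1| : ℤ) : ℝ) := by exact_mod_cast h3
      push_cast at h4
      exact h4
  · refine (Complex.norm_le_abs_re_add_abs_im _).trans ?_
    rw [Complex.sub_re, toC_re, toC_re, Complex.sub_im, toC_im, toC_im]
    have hD : Δ < 2 ^ (Nat.log 2 Δ + 1) := Nat.lt_pow_succ_log_self (by norm_num) Δ
    have hD' : (Δ : ℝ) < 2 ^ (Nat.log 2 Δ + 1) := by exact_mod_cast hD
    have a1 : (x.1 : ℝ) ≤ Δ := by exact_mod_cast hx'.2.1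
    have a2 : (x.2 : ℝ) ≤ Δ := by exact_mod_cast hx'.2.2.2
    have a3 : (y.1 : ℝ) ≤ Δ := by exact_mod_cast hy'.2.1
    have a4 : (y.2 : ℝ) ≤ Δ := by exact_mod_cast hy'.2.2.2
    have b1 : (0 : ℝ) ≤ x.1 := Nat.cast_nonneg _
    have b2 : (0 : ℝ) ≤ x.2 := Nat.cast_nonneg _
    have b3 : (0 : ℝ) ≤ y.1 := Nat.cast_nonneg _
    have b4 : (0 : ℝ) ≤ y.2 := Nat.cast_nonneg _
    have c1 : |(x.1 : ℝ) - y.1| ≤ Δ := by rw [abs_le]; constructor <;> linarith
    have c2 : |(x.2 : ℝ) - y.2| ≤ Δ := by rw [abs_le]; constructor <;> linarith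
    rw [show Nat.log 2 Δ + 2 = (Nat.log 2 Δ + 1) + 1 from rfl, pow_succ (2 : ℝ) (Nat.log 2 Δ + 1)]
    linarith

/-- **The weight of a minimum spanning tree can be approximated in a stream.** -/
theorem mst_stream (q : ℕ) (γ : ℝ) (hγ : 0 < γ) :
    SeedStr q (fun _ l => {y | (l = [] → y = 0) ∧ ∀ T : RTree (pts l), T.IsMst →
      |y - T.total| ≤ γ * T.total}) := by
  obtain ⟨R, hR0, hRγ⟩ : ∃ R : ℕ, 0 < R ∧ 2 / γ ≤ R := by
    obtain ⟨n, hn⟩ := exists_nat_ge (2 / γ)
    exact ⟨n + 1, by omega, hn.trans (by push_cast; linarith)⟩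
  have hR' : (0 : ℝ) < R := by exact_mod_cast hR0
  obtain ⟨CK, hCK⟩ : ∃ CK : ℕ, CK = 4 * (2 * (4 * R + 2) + 1) ^ 2 := ⟨_, rfl⟩
  obtain ⟨B, hB0, hBγ, hBC⟩ : ∃ B : ℕ, 0 < B ∧ 10 * (CK : ℝ) / γ ≤ B ∧ CK + 1 ≤ B := by
    obtain ⟨n, hn⟩ := exists_nat_ge (10 * (CK : ℝ) / γ)
    refine ⟨n + CK + 1, by omega, hn.trans ?_, by omega⟩
    push_cast
    have : (0 : ℝ) ≤ CK := Nat.cast_nonneg _
    linarith
  have hB' : (0 : ℝ) < B := by exact_mod_cast hB0
  apply seedStr_window q ((B + 1) * (8 * R + 2) + 4 * R + 2 + CK + B) 1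
  intro Δ _
  obtain ⟨D, hD⟩ : ∃ D, D = Nat.log 2 Δ + 1 := ⟨_, rfl⟩
  rw [← hD, pow_one]
  have hD1 : 1 ≤ D := by omega
  obtain ⟨L, hL⟩ : ∃ L, L = ((B + 1) * (8 * R + 2) + 4 * R + 2 + CK + B) * D := ⟨_, rfl⟩
  rw [← hL]
  obtain ⟨N, hN⟩ : ∃ N, N = B * D := ⟨_, rfl⟩
  have hLN : N ≤ L := by
    rw [hL, hN]
    exact Nat.mul_le_mul_right _ (by omega)
  have hBN : B ≤ N := by
    rw [hN]
    exact Nat.le_mul_of_pos_right B hD1
  have hLbase : (B + 1) * (8 * R + 2) + 4 * R + 2 + CK + B ≤ L := by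
    rw [hL]
    exact Nat.le_mul_of_pos_right _ hD1
  have hCL : CK ≤ L := by
    have : 0 ≤ (B + 1) * (8 * R + 2) := Nat.zero_le _
    omega
  have hN0 : 0 < N := by omega
  have hN0' : (0 : ℝ) < N := by exact_mod_cast hN0
  have hL0' : (0 : ℝ) < L := by
    have : 0 < L := by omega
    exact_mod_cast this
  -- the parameters
  refine ⟨4 * R, N * (8 * R + 2) + (8 * R + 2), R + 1, D + 1,
    fun r _ c s => if (r : ℕ) < R then cphi (adj (4 * (R + (r : ℕ)) + 2)) (N * (8 * R + 2)) c s
      else 1,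
    fun S => if S (Fin.last R) 0 ≤ 0 then 0 else
      (S (Fin.last R) 0 - 1) + ∑ j ∈ Finset.range (D + 1), ∑ r : Fin R,
      (2 : ℝ) ^ j / R * (S r.castSucc j - 1), ?_, ?_, ?_, ?_, ?_, ?_⟩
  · have : 0 ≤ (B + 1) * (8 * R + 2) := Nat.zero_le _
    omega
  · rw [hL, hN]
    calc B * D * (8 * R + 2) + (8 * R + 2) ≤ B * D * (8 * R + 2) + D * (8 * R + 2) := by
          apply Nat.add_le_add_left
          exact Nat.le_mul_of_pos_left _ hD1
      _ = ((B + 1) * (8 * R + 2)) * D := by ring
      _ ≤ _ := Nat.mul_le_mul_right _ (by omega)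
  · have : 0 ≤ (B + 1) * (8 * R + 2) := Nat.zero_le _
    omega
  · rw [hL]
    calc D + 1 ≤ 2 * D := by omega
      _ ≤ _ := Nat.mul_le_mul_right _ (by omega)
  · intro r _ c s
    dsimp only
    split_ifs
    · exact abs_cphi_le _ _ _ _
    · simp
  · intro l hl S hS
    have hstat0 : stat (4 * R) (N * (8 * R + 2) + (8 * R + 2)) 0
        (fun c s => if ((Fin.last R : Fin (R + 1)) : ℕ) < R then
          cphi (adj (4 * (R + ((Fin.last R : Fin (R + 1)) : ℕ)) + 2)) (N * (8 * R + 2)) c s
          else 1) l = ((pts l).card : ℝ) := by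
      unfold stat
      rw [Finset.sum_congr rfl (g := fun _ => (1 : ℝ)) (fun c _ => by
        dsimp only
        rw [ite_cond_eq_false _ _ (eq_false (by simp))])]
      rw [Finset.sum_const, nsmul_eq_mul, mul_one, card_pts (by omega)]
    obtain ⟨hS1, hS2⟩ := hS (Fin.last R) 0 (by omega)
    rw [hstat0] at hS1 hS2
    refine ⟨?_, ?_⟩
    · intro hnil
      subst hnil
      have h0 : S (Fin.last R) 0 = 0 := by
        rw [hS2 (by simp [occ])]
        simp [pts]
      dsimp only
      rw [ite_cond_eq_true _ _ (eq_true h0.le)]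
    intro T hT
    have hM0 : 0 ≤ T.total := T.wt_nonneg _
    have hSpos : ¬ S (Fin.last R) 0 ≤ 0 := by
      have hn : 0 < (pts l).card := Finset.card_pos.2 ⟨_, T.root_mem⟩
      have hn' : (1 : ℝ) ≤ (pts l).card := by exact_mod_cast hn
      intro hcon
      by_cases hc : (occ (4 * R) 0 l).card ≤ L
      · rw [hS2 hc] at hcon
        linarith
      · rw [card_pts (by omega)] at hS1
        have hL2 : (2 : ℝ) ≤ L := by
          have : 2 ≤ L := by omega
          exact_mod_cast this
        have h1 : ((pts l).card : ℝ) ≤ |S (Fin.last R) 0 - ((pts l).card : ℝ)| := by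
          rw [abs_of_nonpos (by linarith)]
          linarith
        nlinarith
    dsimp only
    rw [ite_cond_eq_false _ _ (eq_false hSpos)]
    have hlen := len_bounds hl T
    rw [show Nat.log 2 Δ + 2 = D + 1 by omega] at hlen
    have hest := est_bounds hR0 (D + 1) l T hT hlen
    have hocc : ∀ j, (occ (4 * R) j l).card ≤ CK ∨
        ((occ (4 * R) j l).card : ℝ) * 2 ^ j ≤ CK * T.total := by
      intro j
      have h := occ_bound (4 * R) (by omega) j l T
      rw [← hCK] at h
      exact h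
    -- one term
    have hterm : ∀ j ∈ Finset.range (D + 1), ∀ r : Fin R,
        (2 : ℝ) ^ j * |S r.castSucc j
          - (ncomp (adj (4 * (R + (r : ℕ)) + 2)) (occ (4 * R) j l) : ℝ)|
          ≤ CK * T.total * (2 / N) := by
      intro j hj r
      have hrR : ((r.castSucc : Fin (R + 1)) : ℕ) < R := by simp
      have hr := r.isLt
      obtain ⟨h1, h2⟩ := hS r.castSucc j (Finset.mem_range.1 hj)
      have hstat : stat (4 * R) (N * (8 * R + 2) + (8 * R + 2)) j
          (fun c s => if ((r.castSucc : Fin (R + 1)) : ℕ) < R then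
            cphi (adj (4 * (R + ((r.castSucc : Fin (R + 1)) : ℕ)) + 2)) (N * (8 * R + 2)) c s
            else 1) l
          = ∑ c ∈ occ (4 * R) j l, cphi (adj (4 * (R + (r : ℕ)) + 2)) (N * (8 * R + 2)) c
            (win (N * (8 * R + 2) + (8 * R + 2)) (occ (4 * R) j l) c) := by
        unfold stat
        apply Finset.sum_congr rfl
        intro c _
        dsimp only
        rw [ite_cond_eq_true _ _ (eq_true hrR)]
        rfl
      obtain ⟨h3, h4, h5⟩ := ncomp_sub_cphi (adj_symm (4 * (R + (r : ℕ)) + 2))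
        (T := 8 * R + 2) (V := N * (8 * R + 2)) (W := N * (8 * R + 2) + (8 * R + 2)) (N := N)
        (adj_near (by omega)) (by omega) hN0 (le_refl _) (le_refl _) (occ (4 * R) j l)
      rw [hstat] at h1 h2
      rcases hocc j with hc | hc
      · rw [h2 (hc.trans hCL), h5 (by omega), sub_self, abs_zero, mul_zero]
        positivity
      · have h6 : |S r.castSucc j - (∑ c ∈ occ (4 * R) j l,
            cphi (adj (4 * (R + (r : ℕ)) + 2)) (N * (8 * R + 2)) c
            (win (N * (8 * R + 2) + (8 * R + 2)) (occ (4 * R) j l) c))|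
            ≤ ((occ (4 * R) j l).card : ℝ) / N := by
          have h7 : |S r.castSucc j - (∑ c ∈ occ (4 * R) j l,
            cphi (adj (4 * (R + (r : ℕ)) + 2)) (N * (8 * R + 2)) c
            (win (N * (8 * R + 2) + (8 * R + 2)) (occ (4 * R) j l) c))|
            ≤ ((occ (4 * R) j l).card : ℝ) / L := by
            rw [le_div_iff₀ hL0']
            exact h1
          refine h7.trans ?_
          apply div_le_div_of_nonneg_left (Nat.cast_nonneg _) hN0'
          exact_mod_cast hLN
        have h8 : |S r.castSucc j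
            - (ncomp (adj (4 * (R + (r : ℕ)) + 2)) (occ (4 * R) j l) : ℝ)|
            ≤ ((occ (4 * R) j l).card : ℝ) * (2 / N) := by
          have e : ((occ (4 * R) j l).card : ℝ) * (2 / N) = ((occ (4 * R) j l).card : ℝ) / N
            + ((occ (4 * R) j l).card : ℝ) / N := by ring
          rw [e]
          rw [abs_le] at h6 ⊢
          obtain ⟨h9, h10⟩ := h6
          constructor <;> linarith
        calc (2 : ℝ) ^ j * |S r.castSucc j
            - (ncomp (adj (4 * (R + (r : ℕ)) + 2)) (occ (4 * R) j l) : ℝ)|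
            ≤ (2 : ℝ) ^ j * (((occ (4 * R) j l).card : ℝ) * (2 / N)) :=
              mul_le_mul_of_nonneg_left h8 (by positivity)
          _ = (((occ (4 * R) j l).card : ℝ) * 2 ^ j) * (2 / N) := by ring
          _ ≤ CK * T.total * (2 / N) := mul_le_mul_of_nonneg_right hc (by positivity)
    -- the counting term
    have hcnt : |S (Fin.last R) 0 - ((pts l).card : ℝ)| ≤ CK * T.total * (1 / N) := by
      rcases hocc 0 with hc | hc
      · rw [hS2 (hc.trans hCL), sub_self, abs_zero]
        positivity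
      · rw [pow_zero, mul_one] at hc
        have h3 : |S (Fin.last R) 0 - ((pts l).card : ℝ)| ≤ ((occ (4 * R) 0 l).card : ℝ) / L := by
          rw [le_div_iff₀ hL0']
          exact hS1
        have h4 : ((occ (4 * R) 0 l).card : ℝ) / L ≤ ((occ (4 * R) 0 l).card : ℝ) / N := by
          apply div_le_div_of_nonneg_left (Nat.cast_nonneg _) hN0'
          exact_mod_cast hLN
        calc _ ≤ ((occ (4 * R) 0 l).card : ℝ) / N := h3.trans h4
          _ = ((occ (4 * R) 0 l).card : ℝ) * (1 / N) := by ring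
          _ ≤ _ := mul_le_mul_of_nonneg_right hc (by positivity)
    -- the total error
    have hdiff : |((S (Fin.last R) 0 - 1) + ∑ j ∈ Finset.range (D + 1), ∑ r : Fin R,
          (2 : ℝ) ^ j / R * (S r.castSucc j - 1))
        - (((pts l).card : ℝ) - 1 + ∑ j ∈ Finset.range (D + 1), ∑ r ∈ Finset.range R,
          (2 : ℝ) ^ j / R * ((ncomp (adj (4 * (R + r) + 2)) (occ (4 * R) j l) : ℝ) - 1))|
        ≤ CK * T.total * (1 / N) + (D + 1) * (CK * T.total * (2 / N)) := by
      have e1 : ∀ j, ∑ r ∈ Finset.range R,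
          (2 : ℝ) ^ j / R * ((ncomp (adj (4 * (R + r) + 2)) (occ (4 * R) j l) : ℝ) - 1)
          = ∑ r : Fin R,
          (2 : ℝ) ^ j / R * ((ncomp (adj (4 * (R + (r : ℕ)) + 2)) (occ (4 * R) j l) : ℝ) - 1) :=
        fun j => (Fin.sum_univ_eq_sum_range (fun r : ℕ => (2 : ℝ) ^ j / R *
          ((ncomp (adj (4 * (R + r) + 2)) (occ (4 * R) j l) : ℝ) - 1)) R).symm
      have e2 : ((S (Fin.last R) 0 - 1) + ∑ j ∈ Finset.range (D + 1), ∑ r : Fin R,
          (2 : ℝ) ^ j / R * (S r.castSucc j - 1))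
        - (((pts l).card : ℝ) - 1 + ∑ j ∈ Finset.range (D + 1), ∑ r ∈ Finset.range R,
          (2 : ℝ) ^ j / R * ((ncomp (adj (4 * (R + r) + 2)) (occ (4 * R) j l) : ℝ) - 1))
        = (S (Fin.last R) 0 - ((pts l).card : ℝ)) + ∑ j ∈ Finset.range (D + 1), ∑ r : Fin R,
          (2 : ℝ) ^ j / R * (S r.castSucc j
            - (ncomp (adj (4 * (R + (r : ℕ)) + 2)) (occ (4 * R) j l) : ℝ)) := by
        rw [Finset.sum_congr rfl (fun j _ => e1 j)]
        have e3 : ∑ j ∈ Finset.range (D + 1), ∑ r : Fin R, (2 : ℝ) ^ j / R * (S r.castSucc j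
            - (ncomp (adj (4 * (R + (r : ℕ)) + 2)) (occ (4 * R) j l) : ℝ))
            = (∑ j ∈ Finset.range (D + 1), ∑ r : Fin R, (2 : ℝ) ^ j / R * (S r.castSucc j - 1))
            - ∑ j ∈ Finset.range (D + 1), ∑ r : Fin R, (2 : ℝ) ^ j / R *
              ((ncomp (adj (4 * (R + (r : ℕ)) + 2)) (occ (4 * R) j l) : ℝ) - 1) := by
          rw [← Finset.sum_sub_distrib]
          apply Finset.sum_congr rfl
          intro j _
          rw [← Finset.sum_sub_distrib]
          apply Finset.sum_congr rfl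
          intro r _
          ring
        rw [e3]
        ring
      rw [e2]
      refine (abs_add_le _ _).trans (add_le_add hcnt ?_)
      refine (Finset.abs_sum_le_sum_abs _ _).trans ?_
      calc ∑ j ∈ Finset.range (D + 1), |∑ r : Fin R, (2 : ℝ) ^ j / R * (S r.castSucc j
            - (ncomp (adj (4 * (R + (r : ℕ)) + 2)) (occ (4 * R) j l) : ℝ))|
          ≤ ∑ j ∈ Finset.range (D + 1), CK * T.total * (2 / N) := by
            apply Finset.sum_le_sum
            intro j hj
            refine (Finset.abs_sum_le_sum_abs _ _).trans ?_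
            calc ∑ r : Fin R, |(2 : ℝ) ^ j / R * (S r.castSucc j
                  - (ncomp (adj (4 * (R + (r : ℕ)) + 2)) (occ (4 * R) j l) : ℝ))|
                ≤ ∑ r : Fin R, (1 / R) * (CK * T.total * (2 / N)) := by
                  apply Finset.sum_le_sum
                  intro r _
                  rw [abs_mul, abs_of_pos (show (0 : ℝ) < 2 ^ j / R by positivity)]
                  calc (2 : ℝ) ^ j / R * |S r.castSucc j
                      - (ncomp (adj (4 * (R + (r : ℕ)) + 2)) (occ (4 * R) j l) : ℝ)|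
                      = (1 / R) * ((2 : ℝ) ^ j * |S r.castSucc j
                      - (ncomp (adj (4 * (R + (r : ℕ)) + 2)) (occ (4 * R) j l) : ℝ)|) := by ring
                    _ ≤ _ := mul_le_mul_of_nonneg_left (hterm j hj r) (by positivity)
              _ = CK * T.total * (2 / N) := by
                  rw [Finset.sum_const, Finset.card_univ, Fintype.card_fin, nsmul_eq_mul]
                  field_simp
        _ = (D + 1) * (CK * T.total * (2 / N)) := by
            rw [Finset.sum_const, Finset.card_range, nsmul_eq_mul]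
            push_cast
            ring
    have hD' : (1 : ℝ) ≤ D := by exact_mod_cast hD1
    have hNr : (N : ℝ) = B * D := by rw [hN]; push_cast; ring
    have herr : CK * T.total * (1 / N) + (D + 1) * (CK * T.total * (2 / N)) ≤ γ / 2 * T.total := by
      have hq0 : 0 ≤ (CK : ℝ) * T.total := by positivity
      have h1 : (CK : ℝ) * T.total * (1 / N) ≤ CK * T.total * (1 / B) := by
        apply mul_le_mul_of_nonneg_left _ hq0
        apply one_div_le_one_div_of_le hB'
        exact_mod_cast hBN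
      have h2 : ((D : ℝ) + 1) * (CK * T.total * (2 / N)) ≤ CK * T.total * (4 / B) := by
        have h3 : ((D : ℝ) + 1) * (2 / N) ≤ 4 / B := by
          rw [hNr, mul_div_assoc', div_le_div_iff₀ (by positivity) hB']
          nlinarith
        calc ((D : ℝ) + 1) * (CK * T.total * (2 / N))
            = CK * T.total * (((D : ℝ) + 1) * (2 / N)) := by ring
          _ ≤ _ := mul_le_mul_of_nonneg_left h3 hq0
      have h4 : (CK : ℝ) * (5 / B) ≤ γ / 2 := by
        rw [mul_div_assoc', div_le_iff₀ hB']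
        rw [div_le_iff₀ hγ] at hBγ
        linarith
      calc _ ≤ CK * T.total * (1 / B) + CK * T.total * (4 / B) := add_le_add h1 h2
        _ = (CK * (5 / B)) * T.total := by ring
        _ ≤ _ := mul_le_mul_of_nonneg_right h4 hM0
    have hRR : 1 / (R : ℝ) ≤ γ / 2 := by
      rw [div_le_iff₀ hR']
      rw [div_le_iff₀ hγ] at hRγ
      linarith
    have hest2 := hest.trans (mul_le_mul_of_nonneg_right hRR hM0)
    have hd := hdiff.trans herr
    rw [abs_le] at hest2 hd ⊢
    obtain ⟨a1, a2⟩ := hest2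
    obtain ⟨a3, a4⟩ := hd
    constructor <;> linarith

theorem seedStr_mst (q : ℕ) (γ : ℝ) (hγ : 0 < γ) :
    SeedStr q (fun _ l => {y | ∀ T : RTree (pts l), T.IsMst →
      |y - T.total| ≤ γ * T.total}) :=
  (mst_stream q γ hγ).mono (fun _ _ _ _ _ hy => hy.2)

end Pool.Agent.H29.Stream
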