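import Pool.Agent.H29.Stream.MstTree
import Pool.Agent.H29.Stream.Main

/-!
Geometry of the cells, the scale sums, and the bound for the number of occupied cells.
-/

set_option autoImplicit false

namespace Pool.Agent.H29.Stream

open Classical Pool.Agent.H49.Tsp

/-! ### Scale sums -/

/-- the thresholds -/
noncomputable def tt (R j r : ℕ) : ℝ := 2 ^ j * ((R + r) / R)

theorem tt_pos {R : ℕ} (hR : 0 < R) (j r : ℕ) : 0 < tt R j r := by
  unfold tt
  have : (0 : ℝ) < R := by exact_mod_cast hR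
  positivity

theorem tt_succ {R : ℕ} (hR : 0 < R) (j r : ℕ) : tt R j (r + 1) = tt R j r + 2 ^ j / R := by
  unfold tt
  have : (0 : ℝ) < R := by exact_mod_cast hR
  push_cast
  field_simp
  ring

theorem tt_zero {R : ℕ} (hR : 0 < R) (j : ℕ) : tt R j 0 = 2 ^ j := by
  unfold tt
  have : (0 : ℝ) < R := by exact_mod_cast hR
  push_cast
  field_simp
  ring

theorem tt_R {R : ℕ} (hR : 0 < R) (j : ℕ) : tt R j R = 2 ^ (j + 1) := by
  unfold tt
  have : (0 : ℝ) < R := by exact_mod_cast hR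
  field_simp
  ring

theorem tt_ge {R : ℕ} (hR : 0 < R) (j r : ℕ) : (2 : ℝ) ^ j ≤ tt R j r := by
  unfold tt
  have h : (0 : ℝ) < R := by exact_mod_cast hR
  have h2 : (0 : ℝ) ≤ r := Nat.cast_nonneg r
  have h3 : (1 : ℝ) ≤ (R + r) / R := by rw [le_div_iff₀ h]; linarith
  have h4 : (0 : ℝ) < 2 ^ j := by positivity
  nlinarith

theorem tt_succ_le {R : ℕ} (hR : 0 < R) (j r : ℕ) :
    tt R j (r + 1) ≤ (1 + 1 / R) * tt R j r := by
  rw [tt_succ hR]
  have h1 := tt_ge hR j r
  have h : (0 : ℝ) < R := by exact_mod_cast hR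
  have h2 : (2 : ℝ) ^ j / R ≤ tt R j r / R := div_le_div_of_nonneg_right h1 h.le
  calc tt R j r + 2 ^ j / R ≤ tt R j r + tt R j r / R := by linarith
    _ = _ := by ring

theorem telescope {R : ℕ} (hR : 0 < R) (J : ℕ) (m : ℝ) :
    ∑ j ∈ Finset.range J, ∑ r ∈ Finset.range R, (min m (tt R j (r + 1)) - min m (tt R j r))
      = min m (2 ^ J) - min m 1 := by
  have h1 : ∀ j ∈ Finset.range J, ∑ r ∈ Finset.range R,
      (min m (tt R j (r + 1)) - min m (tt R j r)) = min m (2 ^ (j + 1)) - min m (2 ^ j) := by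
    intro j _
    rw [Finset.sum_range_sub (fun r => min m (tt R j r)), tt_R hR, tt_zero hR]
  rw [Finset.sum_congr rfl h1, Finset.sum_range_sub (fun j => min m ((2 : ℝ) ^ j)), pow_zero]

theorem scale_upper {R : ℕ} (hR : 0 < R) (J : ℕ) (m : ℝ) (hm : 1 ≤ m) :
    ∑ j ∈ Finset.range J, ∑ r ∈ Finset.range R, (2 : ℝ) ^ j / R * (if tt R j r < m then 1 else 0)
      ≤ (1 + 1 / R) * m - 1 := by
  have h : (0 : ℝ) < R := by exact_mod_cast hR
  have h0 : (0 : ℝ) < 1 / R := by positivity
  have hm' : m ≤ (1 + 1 / R) * m := by nlinarith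
  calc _ ≤ ∑ j ∈ Finset.range J, ∑ r ∈ Finset.range R,
        (min ((1 + 1 / R) * m) (tt R j (r + 1)) - min ((1 + 1 / R) * m) (tt R j r)) := by
        refine Finset.sum_le_sum fun j _ => Finset.sum_le_sum fun r _ => ?_
        have h1 := tt_succ_le hR j r
        have h2 := tt_succ hR j r
        have h3 : (0 : ℝ) < 2 ^ j / R := by positivity
        split_ifs with h4
        · have h5 : tt R j (r + 1) ≤ (1 + 1 / R) * m := by nlinarith
          rw [min_eq_right h5, min_eq_right (by linarith), mul_one]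
          linarith
        · rw [mul_zero, sub_nonneg]
          exact min_le_min_left _ (by linarith)
    _ = min ((1 + 1 / R) * m) (2 ^ J) - min ((1 + 1 / R) * m) 1 := telescope hR J _
    _ ≤ (1 + 1 / R) * m - 1 := by
        rw [min_eq_right (show (1 : ℝ) ≤ (1 + 1 / R) * m by linarith)]
        have := min_le_left ((1 + 1 / (R : ℝ)) * m) (2 ^ J)
        linarith

theorem scale_lower {R : ℕ} (hR : 0 < R) (J : ℕ) (m : ℝ) (hm : 1 ≤ m) (hJ : m ≤ 2 ^ J) :
    (1 - 1 / R) * m - 1 ≤ ∑ j ∈ Finset.range J, ∑ r ∈ Finset.range R,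
      (2 : ℝ) ^ j / R * (if tt R j (r + 1) < m then 1 else 0) := by
  have h : (0 : ℝ) < R := by exact_mod_cast hR
  have h0 : (0 : ℝ) < 1 / R := by positivity
  have hlow : (1 - 1 / R) * m ≤ m / (1 + 1 / R) := by
    rw [le_div_iff₀ (by linarith)]
    nlinarith [mul_pos h0 h0]
  have hle : m / (1 + 1 / (R : ℝ)) ≤ m := div_le_self (by linarith) (by linarith)
  calc (1 - 1 / R) * m - 1 ≤ m / (1 + 1 / R) - 1 := by linarith
    _ ≤ min (m / (1 + 1 / R)) (2 ^ J) - min (m / (1 + 1 / R)) 1 := by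
        rw [min_eq_left (hle.trans hJ)]
        have := min_le_right (m / (1 + 1 / (R : ℝ))) 1
        linarith
    _ = ∑ j ∈ Finset.range J, ∑ r ∈ Finset.range R,
        (min (m / (1 + 1 / R)) (tt R j (r + 1)) - min (m / (1 + 1 / R)) (tt R j r)) :=
        (telescope hR J _).symm
    _ ≤ _ := by
        refine Finset.sum_le_sum fun j _ => Finset.sum_le_sum fun r _ => ?_
        have h1 := tt_succ_le hR j r
        have h2 := tt_succ hR j r
        have h3 : (0 : ℝ) < 2 ^ j / R := by positivity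
        split_ifs with h4
        · rw [mul_one]
          have h5 := min_le_min_left (m / (1 + 1 / (R : ℝ))) (show tt R j r ≤ tt R j (r+1) by linarith)
          have h6 : min (m / (1 + 1 / (R : ℝ))) (tt R j (r + 1))
              ≤ min (m / (1 + 1 / (R : ℝ))) (tt R j r) + 2 ^ j / R := by
            rw [← min_add_add_right]
            refine le_min ?_ ?_
            · exact (min_le_left _ _).trans (by linarith)
            · exact (min_le_right _ _).trans (by linarith)
          linarith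
        · rw [mul_zero]
          have h5 : m / (1 + 1 / (R : ℝ)) ≤ tt R j r := by
            rw [div_le_iff₀ (by linarith)]
            have := not_lt.1 h4
            linarith
          rw [min_eq_left h5, min_eq_left (by linarith), sub_self]

/-! ### Cells -/

/-- the complex number of a pair -/
noncomputable def toC (x : ℕ × ℕ) : ℂ := (x.1 : ℂ) + (x.2 : ℂ) * Complex.I

theorem toC_re (x : ℕ × ℕ) : (toC x).re = x.1 := by simp [toC]

theorem toC_im (x : ℕ × ℕ) : (toC x).im = x.2 := by simp [toC]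

theorem toC_inj : Function.Injective toC := by
  intro x y h
  have h1 := congrArg Complex.re h
  have h2 := congrArg Complex.im h
  rw [toC_re, toC_re] at h1
  rw [toC_im, toC_im] at h2
  exact Prod.ext (by exact_mod_cast h1) (by exact_mod_cast h2)

/-- the points of the stream in the plane -/
noncomputable def pts (l : List (ℕ × ℕ)) : Finset ℂ := l.toFinset.image toC

theorem pts_eq (l : List (ℕ × ℕ)) :
    pts l = l.toFinset.image (fun p => (⟨(p.1 : ℝ), (p.2 : ℝ)⟩ : ℂ)) := by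
  unfold pts
  congr 1
  funext p
  apply Complex.ext
  · rw [toC_re]
  · rw [toC_im]

/-- the cell of a point of the plane -/
noncomputable def gcell (K j : ℕ) (z : ℂ) : ℕ × ℕ := cell K j (⌊z.re⌋₊, ⌊z.im⌋₊)

theorem gcell_toC (K j : ℕ) (x : ℕ × ℕ) : gcell K j (toC x) = cell K j x := by
  unfold gcell
  rw [toC_re, toC_im, Nat.floor_natCast, Nat.floor_natCast]

theorem occ_eq (K j : ℕ) (l : List (ℕ × ℕ)) : occ K j l = (pts l).image (gcell K j) := by
  ext c
  unfold occ pts
  simp only [List.mem_toFinset, List.mem_map, Finset.mem_image]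
  constructor
  · rintro ⟨x, hx, rfl⟩
    exact ⟨toC x, ⟨x, hx, rfl⟩, gcell_toC K j x⟩
  · rintro ⟨_, ⟨x, hx, rfl⟩, rfl⟩
    exact ⟨x, hx, (gcell_toC K j x).symm⟩

/-- adjacency of cells -/
def adj (tau : ℕ) (c d : ℕ × ℕ) : Prop := ‖toC c - toC d‖ ≤ tau

theorem adj_symm (tau : ℕ) (c d : ℕ × ℕ) (h : adj tau c d) : adj tau d c := by
  unfold adj at *
  rwa [norm_sub_rev]

theorem adj_refl (tau : ℕ) (c : ℕ × ℕ) : adj tau c c := by
  unfold adj
  simp

theorem near_of_norm {W : ℕ} {c d : ℕ × ℕ} (h : ‖toC c - toC d‖ ≤ W) : near W c d := by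
  have h1 := (Complex.abs_re_le_norm (toC c - toC d)).trans h
  have h2 := (Complex.abs_im_le_norm (toC c - toC d)).trans h
  rw [Complex.sub_re, toC_re, toC_re, abs_le] at h1
  rw [Complex.sub_im, toC_im, toC_im, abs_le] at h2
  obtain ⟨h3, h4⟩ := h1
  obtain ⟨h5, h6⟩ := h2
  unfold near
  refine ⟨?_, ?_, ?_, ?_⟩
  · have : (c.1 : ℝ) ≤ d.1 + W := by linarith
    exact_mod_cast this
  · have : (d.1 : ℝ) ≤ c.1 + W := by linarith
    exact_mod_cast this
  · have : (c.2 : ℝ) ≤ d.2 + W := by linarith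
    exact_mod_cast this
  · have : (d.2 : ℝ) ≤ c.2 + W := by linarith
    exact_mod_cast this

theorem adj_near {tau W : ℕ} (h : tau ≤ W) (c d : ℕ × ℕ) (h' : adj tau c d) : near W c d :=
  near_of_norm (h'.trans (by exact_mod_cast h))

theorem div_coord (a K j : ℕ) : ((a * K / 2 ^ j : ℕ) : ℝ) ≤ (K : ℝ) / 2 ^ j * a ∧
    (K : ℝ) / 2 ^ j * a < ((a * K / 2 ^ j : ℕ) : ℝ) + 1 := by
  have h2 : (0 : ℝ) < 2 ^ j := by positivity
  have e : (K : ℝ) / 2 ^ j * a = (a * K : ℕ) / ((2 ^ j : ℕ) : ℝ) := by push_cast; ring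
  rw [e]
  constructor
  · exact Nat.cast_div_le
  · have := Nat.lt_floor_add_one (((a * K : ℕ) : ℝ) / ((2 ^ j : ℕ) : ℝ))
    rwa [Nat.floor_div_eq_div] at this

theorem cell_norm (K j : ℕ) (x y : ℕ × ℕ) :
    |‖toC (cell K j x) - toC (cell K j y)‖ - (K : ℝ) / 2 ^ j * ‖toC x - toC y‖| ≤ 2 := by
  have hK : (0 : ℝ) ≤ (K : ℝ) / 2 ^ j := by positivity
  have e1 : (K : ℝ) / 2 ^ j * ‖toC x - toC y‖ = ‖(((K : ℝ) / 2 ^ j : ℝ) : ℂ) * (toC x - toC y)‖ := by
    rw [norm_mul, Complex.norm_real, Real.norm_of_nonneg hK]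
  rw [e1]
  refine (abs_norm_sub_norm_le _ _).trans ?_
  refine (Complex.norm_le_abs_re_add_abs_im _).trans ?_
  have h1 := div_coord x.1 K j
  have h2 := div_coord y.1 K j
  have h3 := div_coord x.2 K j
  have h4 := div_coord y.2 K j
  have r1 : |((toC (cell K j x) - toC (cell K j y))
      - (((K : ℝ) / 2 ^ j : ℝ) : ℂ) * (toC x - toC y)).re| ≤ 1 := by
    rw [Complex.sub_re, Complex.sub_re, Complex.re_ofReal_mul, Complex.sub_re, toC_re, toC_re,
      toC_re, toC_re]
    show |(((x.1 * K / 2 ^ j : ℕ) : ℝ) - ((y.1 * K / 2 ^ j : ℕ) : ℝ)) - _| ≤ 1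
    rw [abs_le]
    constructor <;> nlinarith
  have r2 : |((toC (cell K j x) - toC (cell K j y))
      - (((K : ℝ) / 2 ^ j : ℝ) : ℂ) * (toC x - toC y)).im| ≤ 1 := by
    rw [Complex.sub_im, Complex.sub_im, Complex.im_ofReal_mul, Complex.sub_im, toC_im, toC_im,
      toC_im, toC_im]
    show |(((x.2 * K / 2 ^ j : ℕ) : ℝ) - ((y.2 * K / 2 ^ j : ℕ) : ℝ)) - _| ≤ 1
    rw [abs_le]
    constructor <;> nlinarith
  linarith

theorem adj_of_close {R : ℕ} (hR : 0 < R) (j r : ℕ) (x y : ℕ × ℕ)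
    (h : ‖toC x - toC y‖ ≤ tt R j r) :
    adj (4 * (R + r) + 2) (cell (4 * R) j x) (cell (4 * R) j y) := by
  have h1 := (abs_le.1 (cell_norm (4 * R) j x y)).2
  have hR' : (0 : ℝ) < R := by exact_mod_cast hR
  have h2j : (0 : ℝ) < 2 ^ j := by positivity
  have h2 : ((4 * R : ℕ) : ℝ) / 2 ^ j * ‖toC x - toC y‖ ≤ 4 * (R + r) := by
    calc _ ≤ ((4 * R : ℕ) : ℝ) / 2 ^ j * tt R j r := mul_le_mul_of_nonneg_left h (by positivity)
      _ = 4 * (R + r) := by unfold tt; push_cast; field_simp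
  unfold adj
  push_cast
  push_cast at h1 h2
  linarith

theorem close_of_adj {R : ℕ} (hR : 0 < R) (j r : ℕ) (x y : ℕ × ℕ)
    (h : adj (4 * (R + r) + 2) (cell (4 * R) j x) (cell (4 * R) j y)) :
    ‖toC x - toC y‖ ≤ tt R j (r + 1) := by
  have h1 := (abs_le.1 (cell_norm (4 * R) j x y)).1
  have hR' : (0 : ℝ) < R := by exact_mod_cast hR
  have h2j : (0 : ℝ) < 2 ^ j := by positivity
  unfold adj at h
  push_cast at h
  have h2 : ((4 * R : ℕ) : ℝ) / 2 ^ j * ‖toC x - toC y‖ ≤ 4 * (R + r + 1) := by linarith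
  have h3 : ((4 * R : ℕ) : ℝ) / 2 ^ j * tt R j (r + 1) = 4 * (R + r + 1) := by
    unfold tt; push_cast; field_simp; ring
  rw [← h3] at h2
  exact le_of_mul_le_mul_left h2 (by positivity)

/-! ### The number of occupied cells -/

/-- separated sets of cells -/
def Separated (V : ℕ) (Q : Finset (ℕ × ℕ)) : Prop := ∀ a ∈ Q, ∀ b ∈ Q, a ≠ b → ¬ near V a b

theorem exists_separated (V : ℕ) (O : Finset (ℕ × ℕ)) :
    ∃ Q ⊆ O, (∀ a ∈ Q, ∀ b ∈ Q, a ≠ b → ¬ near V a b) ∧ O.card ≤ Q.card * (2 * V + 1) ^ 2 := by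
  have hne : (O.powerset.filter (Separated V)).Nonempty :=
    ⟨∅, by simp [Separated]⟩
  obtain ⟨Q, hQ, hmax⟩ := Finset.exists_max_image _ Finset.card hne
  rw [Finset.mem_filter, Finset.mem_powerset] at hQ
  refine ⟨Q, hQ.1, hQ.2, ?_⟩
  have hcov : O ⊆ Q.biUnion (nbr V) := by
    intro c hc
    rw [Finset.mem_biUnion]
    by_contra hcon
    push Not at hcon
    have hcon' : ∀ a ∈ Q, ¬ near V c a := fun a ha h => hcon a ha (mem_nbr.2 h)
    have hcQ : c ∉ Q := fun h => hcon' c h (near_self V c)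
    have h1 := hmax (insert c Q) (by
      rw [Finset.mem_filter, Finset.mem_powerset]
      refine ⟨Finset.insert_subset hc hQ.1, ?_⟩
      unfold Separated
      intro a ha b hb hab
      rw [Finset.mem_insert] at ha hb
      rcases ha with rfl | ha <;> rcases hb with rfl | hb
      · exact absurd rfl hab
      · exact hcon' b hb
      · exact fun h => hcon' a ha (near_symm h)
      · exact hQ.2 a ha b hb hab)
    rw [Finset.card_insert_of_notMem hcQ] at h1
    omega
  calc O.card ≤ (Q.biUnion (nbr V)).card := Finset.card_le_card hcov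
    _ ≤ ∑ q ∈ Q, (nbr V q).card := Finset.card_biUnion_le
    _ ≤ ∑ q ∈ Q, (2 * V + 1) ^ 2 := Finset.sum_le_sum fun q _ => card_nbr_le V q
    _ = _ := by rw [Finset.sum_const, smul_eq_mul]

/-- The number of occupied cells is at most a constant or controlled by the tree. -/
theorem occ_bound (K : ℕ) (hK : 0 < K) (j : ℕ) (l : List (ℕ × ℕ)) (T : RTree (pts l)) :
    (occ K j l).card ≤ 4 * (2 * (K + 2) + 1) ^ 2 ∨
      ((occ K j l).card : ℝ) * 2 ^ j ≤ (4 * (2 * (K + 2) + 1) ^ 2 : ℕ) * T.total := by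
  obtain ⟨Q, hQO, hQ, hcard⟩ := exists_separated (K + 2) (occ K j l)
  rcases Nat.lt_or_ge Q.card 2 with h1 | h2
  · left
    calc (occ K j l).card ≤ Q.card * (2 * (K + 2) + 1) ^ 2 := hcard
      _ ≤ 4 * (2 * (K + 2) + 1) ^ 2 := Nat.mul_le_mul_right _ (by omega)
  · right
    have hrep : ∀ q ∈ Q, ∃ x ∈ l, cell K j x = q := by
      intro q hq
      have := hQO hq
      unfold occ at this
      simpa using this
    choose! x hxl hxq using hrep
    have hinj : Set.InjOn (fun q => toC (x q)) Q := by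
      intro a ha b hb hab
      have : x a = x b := toC_inj hab
      rw [← hxq a ha, ← hxq b hb, this]
    have hQ' : (Q.image (fun q => toC (x q))).card = Q.card := Finset.card_image_of_injOn hinj
    have hpack := packing T (Q.image (fun q => toC (x q))) (by
        intro z hz
        obtain ⟨q, hq, rfl⟩ := Finset.mem_image.1 hz
        exact Finset.mem_image_of_mem _ (List.mem_toFinset.2 (hxl q hq))) (2 ^ j) (by positivity)
      (by
        intro a ha b hb hab
        obtain ⟨p, hp, rfl⟩ := Finset.mem_image.1 ha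
        obtain ⟨q, hq, rfl⟩ := Finset.mem_image.1 hb
        have hpq : p ≠ q := fun h => hab (by rw [h])
        have hfar := hQ p hp q hq hpq
        by_contra hcon
        push Not at hcon
        apply hfar
        apply near_of_norm
        have h3 := (abs_le.1 (cell_norm K j (x p) (x q))).2
        rw [hxq p hp, hxq q hq] at h3
        have h4 : (K : ℝ) / 2 ^ j * ‖toC (x p) - toC (x q)‖ ≤ K := by
          calc _ ≤ (K : ℝ) / 2 ^ j * 2 ^ j := mul_le_mul_of_nonneg_left hcon.le (by positivity)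
            _ = K := by field_simp
        push_cast
        linarith) (by rw [hQ']; exact h2)
    rw [hQ'] at hpack
    have h5 : ((occ K j l).card : ℝ) ≤ Q.card * ((2 * (K + 2) + 1) ^ 2 : ℕ) := by
      exact_mod_cast hcard
    calc ((occ K j l).card : ℝ) * 2 ^ j
        ≤ (Q.card * ((2 * (K + 2) + 1) ^ 2 : ℕ)) * 2 ^ j :=
          mul_le_mul_of_nonneg_right h5 (by positivity)
      _ = ((2 * (K + 2) + 1) ^ 2 : ℕ) * (Q.card * 2 ^ j) := by ring
      _ ≤ ((2 * (K + 2) + 1) ^ 2 : ℕ) * (4 * T.total) :=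
          mul_le_mul_of_nonneg_left hpack (by positivity)
      _ = _ := by push_cast; ring

end Pool.Agent.H29.Stream
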