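import Pool.Agent.H29.Stream.MstTree

/-!
A minimum spanning tree is not longer than a shortest tour.
-/

set_option autoImplicit false

namespace Pool.Agent.H29.Stream

open Classical Pool.Agent.H49.Tsp

/-- The number of components met by a walk. -/
theorem card_image_walk {P : Finset ℂ} (t : ℝ) (x : ℕ → ℂ) (hx : ∀ i, x i ∈ P) (n : ℕ) :
    ((Finset.range (n + 1)).image (fun i => cls (fun a b => ‖a - b‖ ≤ t) P (x i))).card
      ≤ 1 + ((Finset.range n).filter (fun i => t < ‖x i - x (i + 1)‖)).card := by
  induction n with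
  | zero =>
    rw [Finset.range_one, Finset.image_singleton, Finset.card_singleton]
    omega
  | succ n ih =>
    have e1 : (Finset.range (n + 1 + 1)).image (fun i => cls (fun a b => ‖a - b‖ ≤ t) P (x i))
        = insert (cls (fun a b => ‖a - b‖ ≤ t) P (x (n + 1)))
          ((Finset.range (n + 1)).image (fun i => cls (fun a b => ‖a - b‖ ≤ t) P (x i))) := by
      rw [Finset.range_add_one (n := n + 1), Finset.image_insert]
    rw [e1]
    by_cases h : t < ‖x n - x (n + 1)‖
    · have e2 : ((Finset.range (n + 1)).filter (fun i => t < ‖x i - x (i + 1)‖)).card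
          = ((Finset.range n).filter (fun i => t < ‖x i - x (i + 1)‖)).card + 1 := by
        rw [Finset.range_add_one, Finset.filter_insert, ite_cond_eq_true _ _ (eq_true h),
          Finset.card_insert_of_notMem]
        intro hmem
        have := Finset.mem_range.1 (Finset.mem_filter.1 hmem).1
        omega
      have h1 := Finset.card_insert_le (cls (fun a b => ‖a - b‖ ≤ t) P (x (n + 1)))
        ((Finset.range (n + 1)).image (fun i => cls (fun a b => ‖a - b‖ ≤ t) P (x i)))
      omega
    · have e2 : (Finset.range (n + 1)).filter (fun i => t < ‖x i - x (i + 1)‖)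
          = (Finset.range n).filter (fun i => t < ‖x i - x (i + 1)‖) := by
        rw [Finset.range_add_one, Finset.filter_insert, ite_cond_eq_false _ _ (eq_false h)]
      have h2 : cls (fun a b => ‖a - b‖ ≤ t) P (x (n + 1))
          = cls (fun a b => ‖a - b‖ ≤ t) P (x n) := by
        apply cls_eq (fun a b hab => by rwa [norm_sub_rev]) (hx n)
        exact cls_step (self_mem_cls (hx n)) (not_lt.1 h) (hx (n + 1))
      rw [h2, e2, Finset.insert_eq_of_mem]
      · exact ih
      · exact Finset.mem_image.2 ⟨n, by simp, rfl⟩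

theorem layer_cake {ι κ : Type} (A : Finset ι) (B : Finset κ) (a : ι → ℝ) (b : κ → ℝ)
    (ha : ∀ i ∈ A, 0 ≤ a i) (hb : ∀ i ∈ B, 0 ≤ b i)
    (h : ∀ t : ℝ, 0 ≤ t → (A.filter (fun i => t < a i)).card ≤ (B.filter (fun i => t < b i)).card) :
    ∑ i ∈ A, a i ≤ ∑ i ∈ B, b i := by
  have key : ∀ {τ : Type} (C : Finset τ) (c : τ → ℝ), (∀ i ∈ C, 0 ≤ c i) →
      ENNReal.ofReal (∑ i ∈ C, c i)
        = ∫⁻ t in Set.Ici (0 : ℝ), ((C.filter (fun i => t < c i)).card : ENNReal) := by
    intro τ C c hc
    rw [ENNReal.ofReal_sum_of_nonneg hc]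
    have h1 : ∀ i ∈ C, ENNReal.ofReal (c i)
        = ∫⁻ t in Set.Ici (0 : ℝ), (Set.Iio (c i)).indicator (fun _ => (1 : ENNReal)) t := by
      intro i _
      rw [MeasureTheory.lintegral_indicator measurableSet_Iio, MeasureTheory.setLIntegral_one,
        MeasureTheory.Measure.restrict_apply measurableSet_Iio, Set.Iio_inter_Ici,
        Real.volume_Ico, sub_zero]
    rw [Finset.sum_congr rfl h1, ← MeasureTheory.lintegral_finsetSum]
    · apply MeasureTheory.lintegral_congr
      intro t
      rw [Finset.card_filter, Nat.cast_sum]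
      apply Finset.sum_congr rfl
      intro i _
      by_cases h2 : t < c i
      · rw [Set.indicator_of_mem (by exact h2)]
        simp [h2]
      · rw [Set.indicator_of_notMem (by exact h2)]
        simp [h2]
    · intro i _
      exact measurable_const.indicator measurableSet_Iio
  have h2 : ENNReal.ofReal (∑ i ∈ A, a i) ≤ ENNReal.ofReal (∑ i ∈ B, b i) := by
    rw [key A a ha, key B b hb]
    apply MeasureTheory.setLIntegral_mono' measurableSet_Ici
    intro t ht
    exact_mod_cast h t ht
  exact (ENNReal.ofReal_le_ofReal_iff (Finset.sum_nonneg hb)).1 h2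

theorem total_le_walk {P : Finset ℂ} (T : RTree P) (hT : T.IsMst) (x : ℕ → ℂ)
    (hx : ∀ i, x i ∈ P) (n : ℕ) (hn : ∀ p ∈ P, ∃ i < n + 1, x i = p) :
    T.total ≤ ∑ i ∈ Finset.range n, ‖x i - x (i + 1)‖ := by
  apply layer_cake
  · intro i _; exact T.len_nonneg i
  · intro i _; exact norm_nonneg _
  intro t ht
  have h1 := top_le_ncomp T id P (fun c => by simp) (fun a b => ‖a - b‖ ≤ t) hT
    (fun a => by simpa using ht) t (fun a _ b _ hab => hab)
  have h2 := card_top T t ht
  have h3 : ncomp (fun a b : ℂ => ‖a - b‖ ≤ t) P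
      ≤ ((Finset.range (n + 1)).image (fun i => cls (fun a b => ‖a - b‖ ≤ t) P (x i))).card := by
    apply Finset.card_le_card
    intro C hC
    obtain ⟨p, hp, rfl⟩ := Finset.mem_image.1 hC
    obtain ⟨i, hi, rfl⟩ := hn p hp
    exact Finset.mem_image.2 ⟨i, Finset.mem_range.2 hi, rfl⟩
  have h4 := card_image_walk t x hx n
  have h5 : ((P.filter (fun v => t < T.len v)).card : ℝ)
      = ∑ v ∈ P, if t < T.len v then (1 : ℝ) else 0 := by
    rw [Finset.card_filter]
    push_cast
    rfl
  have h6 : ((top T t).card : ℝ) = 1 + ((P.filter (fun v => t < T.len v)).card : ℝ) := by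
    rw [h5, h2]
  have h7 : (top T t).card = 1 + (P.filter (fun v => t < T.len v)).card := by exact_mod_cast h6
  omega

/-- A minimum spanning tree is not longer than a tour. -/
theorem total_le_tour {P : Finset ℂ} (T : RTree P) (hT : T.IsMst) (l : List ℂ)
    (hl : l.toFinset = P) : T.total ≤ tour l := by
  have hlen : 0 < l.length := by
    rw [List.length_pos_iff]
    rintro rfl
    have h1 : P.Nonempty := ⟨_, T.root_mem⟩
    rw [← hl] at h1
    simp at h1
  obtain ⟨n, hn⟩ : ∃ n, l.length = n + 1 := ⟨l.length - 1, by omega⟩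
  have hmem : ∀ i, l.getD (i % l.length) 0 ∈ P := by
    intro i
    rw [List.getD_eq_getElem _ _ (Nat.mod_lt i hlen), ← hl, List.mem_toFinset]
    exact List.getElem_mem _
  have h1 := total_le_walk T hT (fun i => l.getD (i % l.length) 0) hmem n (by
    intro p hp
    rw [← hl, List.mem_toFinset] at hp
    obtain ⟨i, hi, rfl⟩ := List.getElem_of_mem hp
    refine ⟨i, by omega, ?_⟩
    show l.getD (i % l.length) 0 = l[i]
    rw [Nat.mod_eq_of_lt hi, List.getD_eq_getElem _ _ hi])
  refine h1.trans ?_
  have h2 : tour l = ∑ i ∈ Finset.range l.length,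
      ‖l.getD (i % l.length) 0 - l.getD ((i + 1) % l.length) 0‖ := by
    unfold tour
    rw [← Fin.sum_univ_eq_sum_range (fun i => ‖l.getD (i % l.length) 0
      - l.getD ((i + 1) % l.length) 0‖)]
    apply Finset.sum_congr rfl
    intro i _
    rw [Nat.mod_eq_of_lt i.isLt, List.getD_eq_getElem _ _ i.isLt]
    rfl
  rw [h2]
  apply Finset.sum_le_sum_of_subset_of_nonneg
  · intro i hi
    rw [Finset.mem_range] at hi ⊢
    omega
  · intro i _ _
    exact norm_nonneg _

/-- **A minimum spanning tree is not longer than a shortest tour.** -/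
theorem total_le_tsp {P : Finset ℂ} (T : RTree P) (hT : T.IsMst) : T.total ≤ tsp P := by
  unfold tsp
  apply le_csInf
  · exact ⟨tour P.toList, P.toList, P.nodup_toList, P.toList_toFinset, rfl⟩
  · rintro x ⟨l, _, hl, rfl⟩
    exact total_le_tour T hT l hl

end Pool.Agent.H29.Stream
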