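import Pool.Agent.H29.Stream.Comp
import Pool.Agent.H49.Tsp.Basic

/-!
Trees: variation of a function, packing, and the number of components of threshold graphs.
-/

set_option autoImplicit false

namespace Pool.Agent.H29.Stream

open Classical Pool.Agent.H49.Tsp

variable {P : Finset ℂ} (T : RTree P)

theorem root_of_mem_D_root {w : ℂ} (h : T.root ∈ T.D w) : w = T.root :=
  (T.D_antisymm h (T.mem_D_root (T.mem_of_mem_D h))).symm

theorem value_eq (g : ℂ → ℝ) : ∀ n : ℕ, ∀ q ∈ P, T.dep q < n →
    g q = g T.root + ∑ w ∈ P, if q ∈ T.D w then g w - g (T.par w) else 0 := by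
  intro n
  induction n with
  | zero => intro q _ h; omega
  | succ n ih =>
    intro q hq hn
    by_cases hr : q = T.root
    · subst hr
      rw [Finset.sum_eq_zero, add_zero]
      intro w _
      split_ifs with h
      · rw [root_of_mem_D_root T h, T.par_root, sub_self]
      · rfl
    · have hd := T.dep_lt q hq hr
      have h1 := ih (T.par q) (T.par_mem q hq) (by omega)
      have h2 : ∀ w ∈ P, (if q ∈ T.D w then g w - g (T.par w) else 0)
          = (if T.par q ∈ T.D w then g w - g (T.par w) else 0)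
            + (if w = q then g q - g (T.par q) else 0) := by
        intro w _
        by_cases hw : w = q
        · subst hw
          rw [ite_cond_eq_true _ _ (eq_true (T.self_mem_D hq)),
            ite_cond_eq_false _ _ (eq_false (T.par_not_mem_D hq hr)),
            ite_cond_eq_true _ _ (eq_true rfl), zero_add]
        · rw [ite_cond_eq_false _ _ (eq_false hw), add_zero]
          have : q ∈ T.D w ↔ T.par q ∈ T.D w :=
            ⟨fun h => T.par_mem_D h (fun h' => hw h'.symm),
              fun h => T.D_trans (T.mem_D_par (T.self_mem_D hq)) h⟩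
          by_cases h3 : q ∈ T.D w
          · rw [ite_cond_eq_true _ _ (eq_true h3), ite_cond_eq_true _ _ (eq_true (this.1 h3))]
          · rw [ite_cond_eq_false _ _ (eq_false h3),
              ite_cond_eq_false _ _ (eq_false (fun h => h3 (this.2 h)))]
      rw [Finset.sum_congr rfl h2, Finset.sum_add_distrib, Finset.sum_ite_eq' P q, ite_cond_eq_true
        _ _ (eq_true hq)]
      linarith

/-- The variation of a function on the tree. -/
theorem variation (g : ℂ → ℝ) {p q : ℂ} (hp : p ∈ P) (hq : q ∈ P) :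
    |g p - g q| ≤ ∑ w ∈ P, |g w - g (T.par w)| := by
  rw [value_eq T g _ p hp (Nat.lt_succ_self _), value_eq T g _ q hq (Nat.lt_succ_self _)]
  rw [add_sub_add_left_eq_sub, ← Finset.sum_sub_distrib]
  refine (Finset.abs_sum_le_sum_abs _ _).trans (Finset.sum_le_sum fun w _ => ?_)
  split_ifs
  · simp
  · simp
  · simp [abs_sub_comm]
  · simp

/-- **Packing lemma.** -/
theorem packing (Q : Finset ℂ) (hQP : Q ⊆ P) (rho : ℝ) (hrho : 0 < rho)
    (hsep : ∀ a ∈ Q, ∀ b ∈ Q, a ≠ b → rho ≤ ‖a - b‖) (h2 : 2 ≤ Q.card) :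
    (Q.card : ℝ) * rho ≤ 4 * T.total := by
  let f : ℂ → ℂ → ℝ := fun q x => min ‖x - q‖ (rho / 2)
  have h1 : ∀ q ∈ Q, rho / 2 ≤ ∑ w ∈ P, |f q w - f q (T.par w)| := by
    intro q hq
    obtain ⟨a, b, ha, hb, hab⟩ := Finset.one_lt_card_iff.1 h2
    obtain ⟨p, hp, hpq⟩ : ∃ p ∈ Q, p ≠ q := by
      by_cases h : a = q
      · exact ⟨b, hb, fun h' => hab (h.trans h'.symm)⟩
      · exact ⟨a, ha, h⟩
    have h3 := variation T (f q) (hQP hp) (hQP hq)
    have h4 : f q q = 0 := by
      simp only [f, sub_self, norm_zero]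
      exact min_eq_left (by positivity)
    have h5 : f q p = rho / 2 := by
      have := hsep p hp q hq hpq
      exact min_eq_right (by linarith)
    rw [h4, h5, sub_zero, abs_of_pos (by positivity)] at h3
    exact h3
  have h3 : ∀ q x y, |f q x - f q y| ≤ ‖x - y‖ *
      ((if ‖x - q‖ < rho / 2 then 1 else 0) + (if ‖y - q‖ < rho / 2 then 1 else 0)) := by
    intro q x y
    have hlip : |f q x - f q y| ≤ ‖x - y‖ := by
      have h4 : |‖x - q‖ - ‖y - q‖| ≤ ‖x - y‖ := by
        have := abs_norm_sub_norm_le (x - q) (y - q)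
        rwa [sub_sub_sub_cancel_right] at this
      refine le_trans ?_ h4
      have := abs_min_sub_min_le_max (‖x - q‖) (rho / 2) (‖y - q‖) (rho / 2)
      rw [sub_self, abs_zero, max_eq_left (abs_nonneg _)] at this
      exact this
    have hn : 0 ≤ ‖x - y‖ := norm_nonneg _
    split_ifs with h5 h6 h6
    · linarith
    · linarith
    · linarith
    · have e1 : f q x = rho / 2 := min_eq_right (not_lt.1 h5)
      have e2 : f q y = rho / 2 := min_eq_right (not_lt.1 h6)
      rw [e1, e2]
      simp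
  have h4 : ∀ x, ∑ q ∈ Q, (if ‖x - q‖ < rho / 2 then (1 : ℝ) else 0) ≤ 1 := by
    intro x
    rw [Finset.sum_ite, Finset.sum_const_zero, add_zero, Finset.sum_const, nsmul_eq_mul, mul_one]
    have : (Q.filter (fun q => ‖x - q‖ < rho / 2)).card ≤ 1 := by
      rw [Finset.card_le_one]
      intro a ha b hb
      rw [Finset.mem_filter] at ha hb
      by_contra hab
      have h5 := hsep a ha.1 b hb.1 hab
      have h6 : ‖a - b‖ ≤ ‖x - b‖ + ‖x - a‖ := by
        have h := norm_sub_le (x - b) (x - a)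
        rwa [sub_sub_sub_cancel_left] at h
      linarith
    exact_mod_cast this
  have h5 : ∀ w ∈ P, ∑ q ∈ Q, |f q w - f q (T.par w)| ≤ 2 * T.len w := by
    intro w _
    calc ∑ q ∈ Q, |f q w - f q (T.par w)|
        ≤ ∑ q ∈ Q, ‖w - T.par w‖ * ((if ‖w - q‖ < rho / 2 then 1 else 0)
            + (if ‖T.par w - q‖ < rho / 2 then 1 else 0)) :=
          Finset.sum_le_sum fun q _ => h3 q w (T.par w)
      _ = ‖w - T.par w‖ * ((∑ q ∈ Q, if ‖w - q‖ < rho / 2 then 1 else 0)
            + (∑ q ∈ Q, if ‖T.par w - q‖ < rho / 2 then 1 else 0)) := by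
          rw [← Finset.mul_sum, Finset.sum_add_distrib]
      _ ≤ ‖w - T.par w‖ * (1 + 1) :=
          mul_le_mul_of_nonneg_left (add_le_add (h4 w) (h4 _)) (norm_nonneg _)
      _ = 2 * T.len w := by unfold RTree.len; ring
  have h6 : (Q.card : ℝ) * (rho / 2) ≤ 2 * T.total := by
    calc (Q.card : ℝ) * (rho / 2) = ∑ q ∈ Q, rho / 2 := by
          rw [Finset.sum_const, nsmul_eq_mul]
      _ ≤ ∑ q ∈ Q, ∑ w ∈ P, |f q w - f q (T.par w)| := Finset.sum_le_sum h1
      _ = ∑ w ∈ P, ∑ q ∈ Q, |f q w - f q (T.par w)| := Finset.sum_comm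
      _ ≤ ∑ w ∈ P, 2 * T.len w := Finset.sum_le_sum h5
      _ = 2 * T.total := by rw [← Finset.mul_sum]; rfl
  linarith

/-- The vertices which are the root or have a long edge to their parent. -/
noncomputable def top (t : ℝ) : Finset ℂ := P.filter (fun v => v = T.root ∨ t < T.len v)

theorem card_top (t : ℝ) (ht : 0 ≤ t) :
    ((top T t).card : ℝ) = 1 + ∑ v ∈ P, if t < T.len v then (1 : ℝ) else 0 := by
  have h : top T t = insert T.root (P.filter (fun v => t < T.len v)) := by
    ext v
    unfold top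
    rw [Finset.mem_filter, Finset.mem_insert, Finset.mem_filter]
    constructor
    · rintro ⟨h1, h2 | h2⟩
      · exact Or.inl h2
      · exact Or.inr ⟨h1, h2⟩
    · rintro (h | h)
      · rw [h]; exact ⟨T.root_mem, Or.inl rfl⟩
      · exact ⟨h.1, Or.inr h.2⟩
  rw [h, Finset.card_insert_of_notMem, ← Finset.sum_filter, Finset.sum_const, nsmul_eq_mul,
    mul_one]
  · push_cast; ring
  · rw [Finset.mem_filter, T.len_root]
    rintro ⟨_, h2⟩
    linarith

/-- Upper bound for the number of components of the cell graph. -/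
theorem ncomp_le_top {β : Type*} (g : ℂ → β) (O : Finset β)
    (hO : ∀ c, c ∈ O ↔ ∃ a ∈ P, g a = c) (r : β → β → Prop) (hs : ∀ x y, r x y → r y x)
    (t : ℝ) (h : ∀ a ∈ P, ∀ b ∈ P, ‖a - b‖ ≤ t → r (g a) (g b)) :
    ncomp r O ≤ (top T t).card := by
  have hmem : ∀ a ∈ P, g a ∈ O := fun a ha => (hO _).2 ⟨a, ha, rfl⟩
  have key : ∀ n : ℕ, ∀ v ∈ P, T.dep v < n → ∃ u ∈ top T t, g u ∈ cls r O (g v) := by
    intro n
    induction n with
    | zero => intro v _ h; omega
    | succ n ih =>
      intro v hv hn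
      by_cases hvt : v ∈ top T t
      · exact ⟨v, hvt, self_mem_cls (hmem _ hv)⟩
      · have h1 : v ≠ T.root ∧ T.len v ≤ t := by
          unfold top at hvt
          rw [Finset.mem_filter] at hvt
          constructor
          · intro h'; exact hvt ⟨hv, Or.inl h'⟩
          · by_contra h'; exact hvt ⟨hv, Or.inr (not_le.1 h')⟩
        have hd := T.dep_lt v hv h1.1
        obtain ⟨u, hu, hu2⟩ := ih (T.par v) (T.par_mem v hv) (by omega)
        refine ⟨u, hu, ?_⟩
        have hpv : g (T.par v) ∈ cls r O (g v) :=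
          cls_step (self_mem_cls (hmem _ hv))
            (h v hv _ (T.par_mem v hv) h1.2) (hmem _ (T.par_mem v hv))
        rw [cls_eq hs (hmem _ hv) hpv] at hu2
        exact hu2
  have hsub : O.image (cls r O) ⊆ (top T t).image (fun u => cls r O (g u)) := by
    intro C hC
    obtain ⟨c, hc, rfl⟩ := Finset.mem_image.1 hC
    obtain ⟨v, hv, rfl⟩ := (hO _).1 hc
    obtain ⟨u, hu, hu2⟩ := key _ v hv (Nat.lt_succ_self _)
    exact Finset.mem_image.2 ⟨u, hu, cls_eq hs hc hu2⟩
  exact (Finset.card_le_card hsub).trans Finset.card_image_le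

/-- Lower bound for the number of components of the cell graph. -/
theorem top_le_ncomp {β : Type*} (g : ℂ → β) (O : Finset β)
    (hO : ∀ c, c ∈ O ↔ ∃ a ∈ P, g a = c) (r : β → β → Prop) (hT : T.IsMst)
    (hrefl : ∀ x, r x x) (t : ℝ) (h : ∀ a ∈ P, ∀ b ∈ P, r (g a) (g b) → ‖a - b‖ ≤ t) :
    (top T t).card ≤ ncomp r O := by
  have hmem : ∀ a ∈ P, g a ∈ O := fun a ha => (hO _).2 ⟨a, ha, rfl⟩
  have key : ∀ v ∈ top T t, ∀ b ∈ P, g b ∈ cls r O (g v) → b ∈ T.D v := by
    intro v hv b hb hbv
    unfold top at hv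
    rw [Finset.mem_filter] at hv
    by_cases hvr : v = T.root
    · rw [hvr]; exact T.mem_D_root hb
    · have hlen : t < T.len v := hv.2.resolve_left hvr
      have hcut : ∀ a ∈ T.D v, ∀ b ∈ P, r (g a) (g b) → b ∈ T.D v := by
        intro a ha b hb hab
        by_contra hcon
        have h1 := hT v hv.1 hvr a ha b hb hcon
        have h2 := h a (T.D_sub v ha) b hb hab
        linarith
      have h3 := cls_subset_of_closed (r := r) (O := O) (c := g v)
        (S := fun y => ∀ b ∈ P, g b = y → b ∈ T.D v)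
        (fun b hb hgb => hcut v (T.self_mem_D hv.1) b hb (by rw [hgb]; exact hrefl _))
        (by
          intro x hx y _ hSx hxy b hb hgb
          obtain ⟨a, ha, rfl⟩ := (hO _).1 hx
          exact hcut a (hSx a ha rfl) b hb (by rw [hgb]; exact hxy))
      exact h3 (g b) hbv b hb rfl
  have hP : ∀ v ∈ top T t, v ∈ P := fun v hv => (Finset.mem_filter.1 hv).1
  have hinj : Set.InjOn (fun v => cls r O (g v)) (top T t) := by
    intro u hu v hv huv
    have huv' : cls r O (g u) = cls r O (g v) := huv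
    have h1 : u ∈ T.D v := key v hv u (hP u hu) (by
      rw [← huv']; exact self_mem_cls (hmem _ (hP u hu)))
    have h2 : v ∈ T.D u := key u hu v (hP v hv) (by
      rw [huv']; exact self_mem_cls (hmem _ (hP v hv)))
    exact T.D_antisymm h1 h2
  rw [← Finset.card_image_of_injOn hinj, ncomp]
  apply Finset.card_le_card
  intro C hC
  obtain ⟨v, hv, rfl⟩ := Finset.mem_image.1 hC
  exact Finset.mem_image_of_mem _ (hmem _ (hP v hv))

end Pool.Agent.H29.Stream
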