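import Pool.Agent.H29.Stream.Moment

/-!
Windows, recorded cells, and the one-scale estimate.
-/

set_option autoImplicit false

namespace Pool.Agent.H29.Stream

/-- `c` and `d` are at `l^∞` distance at most `W`. -/
def near (W : ℕ) (c d : ℕ × ℕ) : Prop :=
  c.1 ≤ d.1 + W ∧ d.1 ≤ c.1 + W ∧ c.2 ≤ d.2 + W ∧ d.2 ≤ c.2 + W

instance (W : ℕ) (c d : ℕ × ℕ) : Decidable (near W c d) := by unfold near; infer_instance

/-- The part of `s` in the `(2W+1) x (2W+1)` window around `c`. -/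
def win (W : ℕ) (s : Finset (ℕ × ℕ)) (c : ℕ × ℕ) : Finset (ℕ × ℕ) := s.filter (near W c)

/-- The cells near `d`. -/
def nbr (W : ℕ) (d : ℕ × ℕ) : Finset (ℕ × ℕ) :=
  Finset.Icc (d.1 - W) (d.1 + W) ×ˢ Finset.Icc (d.2 - W) (d.2 + W)

theorem mem_nbr {W : ℕ} {c d : ℕ × ℕ} : c ∈ nbr W d ↔ near W c d := by
  unfold nbr near
  simp only [Finset.mem_product, Finset.mem_Icc]
  omega

theorem card_nbr_le (W : ℕ) (d : ℕ × ℕ) : (nbr W d).card ≤ (2 * W + 1) ^ 2 := by
  unfold nbr
  rw [Finset.card_product, Nat.card_Icc, Nat.card_Icc, sq]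
  apply Nat.mul_le_mul <;> omega

theorem near_self (W : ℕ) (c : ℕ × ℕ) : near W c c := by unfold near; omega

open Classical in
/-- The recorded cells. -/
noncomputable def recd (p W q : ℕ) (ω : Seed p) (O : Finset (ℕ × ℕ)) : Finset (ℕ × ℕ) :=
  O.filter (fun d => ∃ c, near W c d ∧ samp p ω q c)

theorem recd_subset (p W q : ℕ) (ω : Seed p) (O : Finset (ℕ × ℕ)) : recd p W q ω O ⊆ O := by
  classical
  exact Finset.filter_subset _ _

theorem recd_mono (p W q : ℕ) (ω : Seed p) {O O' : Finset (ℕ × ℕ)} (h : O ⊆ O') :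
    recd p W q ω O ⊆ recd p W q ω O' := by
  classical
  exact Finset.filter_subset_filter _ h

theorem X_recd (p W q : ℕ) (ω : Seed p) (O : Finset (ℕ × ℕ))
    (φ : ℕ × ℕ → Finset (ℕ × ℕ) → ℝ) :
    X p q (fun c => φ c (win W (recd p W q ω O) c)) (recd p W q ω O) ω
      = X p q (fun c => φ c (win W O c)) O ω := by
  classical
  unfold X
  rw [← Finset.sum_filter, ← Finset.sum_filter]
  have h1 : (recd p W q ω O).filter (samp p ω q) = O.filter (samp p ω q) := by
    ext c
    simp only [recd, Finset.mem_filter]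
    constructor
    · rintro ⟨⟨h1, _⟩, h2⟩; exact ⟨h1, h2⟩
    · rintro ⟨h1, h2⟩; exact ⟨⟨h1, c, near_self W c, h2⟩, h2⟩
  have h1' : (recd p W q ω O).filter (fun c => samp p ω q c) = O.filter (fun c => samp p ω q c) := h1
  rw [h1']
  apply Finset.sum_congr rfl
  intro c hc
  rw [Finset.mem_filter] at hc
  have h2 : win W (recd p W q ω O) c = win W O c := by
    ext d
    simp only [win, recd, Finset.mem_filter]
    constructor
    · rintro ⟨⟨h1, _⟩, h2⟩; exact ⟨h1, h2⟩
    · rintro ⟨h1, h2⟩; exact ⟨⟨h1, c, h2, hc.2⟩, h2⟩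
  rw [h2]

section
variable {p : ℕ} [hp : Fact p.Prime]

theorem recd_top (W : ℕ) (ω : Seed p) (O : Finset (ℕ × ℕ)) : recd p W p ω O = O := by
  classical
  unfold recd
  apply Finset.filter_true_of_mem
  intro d _
  exact ⟨d, near_self W d, ZMod.val_lt _⟩

theorem X_top (f : ℕ × ℕ → ℝ) (ω : Seed p) (O : Finset (ℕ × ℕ)) :
    X p p f O ω = ∑ c ∈ O, f c := by
  classical
  unfold X
  apply Finset.sum_congr rfl
  intro c _
  rw [if_pos]
  exact ZMod.val_lt _

open Classical in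
theorem recd_moment {q : ℕ} (hq : q ≤ p) (W : ℕ) (O : Finset (ℕ × ℕ)) :
    ∑ ω : Seed p, ((recd p W q ω O).card : ℝ) ≤ O.card * (2 * W + 1) ^ 2 * (p * p * q) := by
  have h1 : ∀ ω : Seed p, ((recd p W q ω O).card : ℝ)
      ≤ ∑ d ∈ O, ∑ c ∈ nbr W d, (if samp p ω q c then (1 : ℝ) else 0) := by
    intro ω
    unfold recd
    rw [Finset.card_filter]
    push_cast
    apply Finset.sum_le_sum
    intro d _
    split_ifs with h
    · obtain ⟨c, hc, hs⟩ := h
      calc (1 : ℝ) = if samp p ω q c then (1 : ℝ) else 0 := by rw [if_pos hs]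
        _ ≤ ∑ c ∈ nbr W d, (if samp p ω q c then (1 : ℝ) else 0) := by
          apply Finset.single_le_sum (f := fun c => if samp p ω q c then (1 : ℝ) else 0)
          · intro i _
            split_ifs <;> norm_num
          · exact mem_nbr.2 hc
    · apply Finset.sum_nonneg
      intro i _
      split_ifs <;> norm_num
  calc ∑ ω : Seed p, ((recd p W q ω O).card : ℝ)
      ≤ ∑ ω : Seed p, ∑ d ∈ O, ∑ c ∈ nbr W d, (if samp p ω q c then (1 : ℝ) else 0) :=
        Finset.sum_le_sum (fun ω _ => h1 ω)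
    _ = ∑ d ∈ O, ∑ c ∈ nbr W d, ∑ ω : Seed p, (if samp p ω q c then (1 : ℝ) else 0) := by
        rw [Finset.sum_comm]
        apply Finset.sum_congr rfl
        intro d _
        rw [Finset.sum_comm]
    _ = ∑ d ∈ O, ∑ c ∈ nbr W d, ((p : ℝ) * p * q) := by
        apply Finset.sum_congr rfl
        intro d _
        apply Finset.sum_congr rfl
        intro c _
        exact sum_ind hq c
    _ ≤ ∑ d ∈ O, ((2 * W + 1) ^ 2 * ((p : ℝ) * p * q)) := by
        apply Finset.sum_le_sum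
        intro d _
        rw [Finset.sum_const, nsmul_eq_mul]
        have := card_nbr_le W d
        have h2 : ((nbr W d).card : ℝ) ≤ (2 * W + 1) ^ 2 := by exact_mod_cast this
        exact mul_le_mul_of_nonneg_right h2 (by positivity)
    _ = O.card * (2 * W + 1) ^ 2 * (p * p * q) := by
        rw [Finset.sum_const, nsmul_eq_mul]; ring

/-- The threshold of level `i`. -/
def thr (p i : ℕ) : ℕ := (p + 2 ^ i - 1) / 2 ^ i

theorem thr_zero (p : ℕ) : thr p 0 = p := by simp [thr]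

theorem thr_lower (p i : ℕ) : p ≤ thr p i * 2 ^ i := by
  unfold thr
  have h : 0 < 2 ^ i := by positivity
  have h1 := Nat.div_add_mod (p + 2 ^ i - 1) (2 ^ i)
  have h2 := Nat.mod_lt (p + 2 ^ i - 1) h
  rw [mul_comm]
  omega

theorem thr_upper (p i : ℕ) (h : 2 ^ i ≤ p) : thr p i * 2 ^ i ≤ 2 * p := by
  unfold thr
  have h1 := Nat.div_mul_le_self (p + 2 ^ i - 1) (2 ^ i)
  omega

theorem thr_le (p i : ℕ) (hp0 : 0 < p) : thr p i ≤ p := by
  unfold thr
  have h : 0 < 2 ^ i := by positivity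
  apply Nat.div_le_of_le_mul
  have : 2 ^ i * p = p + (2 ^ i - 1) * p := by
    obtain ⟨k, hk⟩ : ∃ k, 2 ^ i = k + 1 := ⟨2 ^ i - 1, by omega⟩
    rw [hk]; simp; ring
  have h3 : (2 ^ i - 1) * 1 ≤ (2 ^ i - 1) * p := Nat.mul_le_mul_left _ hp0
  omega

theorem thr_pos (p i : ℕ) (hp0 : 0 < p) : 0 < thr p i := by
  have := thr_lower p i
  by_contra h
  have h0 : thr p i = 0 := by omega
  rw [h0] at this
  omega

end

end Pool.Agent.H29.Stream
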