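import Pool.Agent.H29.Stream.Rec

/-!
The stored sets, their number, the transition function, and the one-scale estimate.
-/

set_option autoImplicit false

namespace Pool.Agent.H29.Stream

/-- The storable sets. -/
def states (M m : ℕ) : Finset (Finset (ℕ × ℕ)) :=
  ((Finset.range M ×ˢ Finset.range M).powerset).filter (fun R => R.card ≤ m)

theorem mem_states {M m : ℕ} {R : Finset (ℕ × ℕ)} :
    R ∈ states M m ↔ R ⊆ Finset.range M ×ˢ Finset.range M ∧ R.card ≤ m := by
  simp [states]

theorem mem_states_mono {M m : ℕ} {R R' : Finset (ℕ × ℕ)} (h : R ⊆ R') (h' : R' ∈ states M m) :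
    R ∈ states M m := by
  rw [mem_states] at *
  exact ⟨h.trans h'.1, (Finset.card_le_card h).trans h'.2⟩

theorem geom_le (n m : ℕ) : ∑ k ∈ Finset.range (m + 1), n ^ k ≤ (n + 1) ^ m := by
  induction m with
  | zero => simp
  | succ m ih =>
    rw [Finset.sum_range_succ, pow_succ (n + 1) m]
    have h1 : n ^ (m + 1) ≤ (n + 1) ^ m * n := by
      rw [pow_succ]
      exact Nat.mul_le_mul_right _ (Nat.pow_le_pow_left (Nat.le_succ n) m)
    calc _ ≤ (n + 1) ^ m + (n + 1) ^ m * n := Nat.add_le_add ih h1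
      _ = (n + 1) ^ m * (n + 1) := by ring

theorem card_states_le (M m : ℕ) : (states M m).card ≤ (M * M + 1) ^ m := by
  classical
  have h1 : states M m ⊆ (Finset.range (m + 1)).biUnion
      (fun k => Finset.powersetCard k (Finset.range M ×ˢ Finset.range M)) := by
    intro R hR
    rw [mem_states] at hR
    rw [Finset.mem_biUnion]
    exact ⟨R.card, Finset.mem_range.2 (Nat.lt_succ_of_le hR.2),
      Finset.mem_powersetCard.2 ⟨hR.1, rfl⟩⟩
  calc (states M m).card ≤ _ := Finset.card_le_card h1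
    _ ≤ ∑ k ∈ Finset.range (m + 1),
        (Finset.powersetCard k (Finset.range M ×ˢ Finset.range M)).card :=
      Finset.card_biUnion_le
    _ = ∑ k ∈ Finset.range (m + 1), (M * M).choose k := by
      apply Finset.sum_congr rfl
      intro k _
      rw [Finset.card_powersetCard, Finset.card_product, Finset.card_range]
    _ ≤ ∑ k ∈ Finset.range (m + 1), (M * M) ^ k :=
      Finset.sum_le_sum (fun k _ => Nat.choose_le_pow _ _)
    _ ≤ (M * M + 1) ^ m := geom_le _ _

/-- The state at one scale and one level. -/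
abbrev St0 (M m : ℕ) : Type := Option ↥(states M m)

/-- Normalization. -/
noncomputable def nrm (M m : ℕ) (R : Finset (ℕ × ℕ)) : St0 M m :=
  if h : R ∈ states M m then some ⟨R, h⟩ else none

theorem nrm_map (M m : ℕ) (R : Finset (ℕ × ℕ)) :
    (nrm M m R).map Subtype.val = if R ∈ states M m then some R else none := by
  unfold nrm
  by_cases h : R ∈ states M m <;> simp [h]

open Classical in
/-- The transition function at one scale and one level. -/
noncomputable def step0 (p W q M m : ℕ) (g : ℕ × ℕ → ℕ × ℕ) (ω : Seed p) (s : St0 M m)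
    (x : ℕ × ℕ) : St0 M m :=
  match s with
  | none => none
  | some R => nrm M m
      (if ∃ c, near W c (g x) ∧ samp p ω q c then insert (g x) R.1 else R.1)

theorem recd_insert (p W q : ℕ) (ω : Seed p) (O : Finset (ℕ × ℕ)) (d : ℕ × ℕ)
    [Decidable (∃ c, near W c d ∧ samp p ω q c)] :
    recd p W q ω (insert d O)
      = if ∃ c, near W c d ∧ samp p ω q c then insert d (recd p W q ω O)
        else recd p W q ω O := by
  classical
  unfold recd
  rw [Finset.filter_insert]
  split_ifs <;> rfl

theorem step0_nrm (p W q M m : ℕ) (g : ℕ × ℕ → ℕ × ℕ) (ω : Seed p) (O : Finset (ℕ × ℕ))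
    (x : ℕ × ℕ) :
    step0 p W q M m g ω (nrm M m (recd p W q ω O)) x
      = nrm M m (recd p W q ω (insert (g x) O)) := by
  classical
  by_cases h : recd p W q ω O ∈ states M m
  · have h1 : nrm M m (recd p W q ω O) = some ⟨recd p W q ω O, h⟩ := by
      unfold nrm; rw [dif_pos h]
    rw [h1]
    unfold step0
    simp only
    rw [recd_insert]
  · have h1 : nrm M m (recd p W q ω O) = none := by
      unfold nrm; rw [dif_neg h]
    have h2 : nrm M m (recd p W q ω (insert (g x) O)) = none := by
      unfold nrm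
      rw [dif_neg]
      intro h3
      exact h (mem_states_mono (recd_mono p W q ω (Finset.subset_insert _ _)) h3)
    rw [h1, h2]
    rfl

theorem foldl_step0_aux (p W q M m : ℕ) (g : ℕ × ℕ → ℕ × ℕ) (ω : Seed p)
    (l : List (ℕ × ℕ)) : ∀ (O : Finset (ℕ × ℕ)),
    l.foldl (step0 p W q M m g ω) (nrm M m (recd p W q ω O))
      = nrm M m (recd p W q ω (O ∪ (l.map g).toFinset)) := by
  induction l with
  | nil => intro O; simp
  | cons x l ih =>
    intro O
    rw [List.foldl_cons, step0_nrm, ih]
    congr 2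
    ext c
    simp only [Finset.mem_union, Finset.mem_insert, List.map_cons, List.toFinset_cons]
    tauto

theorem foldl_step0 (p W q M m : ℕ) (g : ℕ × ℕ → ℕ × ℕ) (ω : Seed p)
    (l : List (ℕ × ℕ)) :
    l.foldl (step0 p W q M m g ω) (nrm M m ∅)
      = nrm M m (recd p W q ω (l.map g).toFinset) := by
  have h := foldl_step0_aux p W q M m g ω l ∅
  have h0 : recd p W q ω ∅ = ∅ :=
    Finset.subset_empty.1 (recd_subset p W q ω ∅)
  rw [h0, Finset.empty_union] at h
  exact h

open Classical in
/-- The estimate from the stored sets of all levels. -/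
noncomputable def estFrom (p W : ℕ) (φ : ℕ × ℕ → Finset (ℕ × ℕ) → ℝ) (ω : Seed p)
    (u : ℕ → Option (Finset (ℕ × ℕ))) : ℝ :=
  if h : ∃ i, (u i).isSome then
    (p : ℝ) / (thr p (Nat.find h)) *
      X p (thr p (Nat.find h)) (fun c => φ c (win W ((u (Nat.find h)).getD ∅) c))
        ((u (Nat.find h)).getD ∅) ω
  else 0

theorem estFrom_eq (p W M m I : ℕ) (φ : ℕ × ℕ → Finset (ℕ × ℕ) → ℝ) (ω : Seed p)
    (O : Finset (ℕ × ℕ)) (u : ℕ → Option (Finset (ℕ × ℕ)))
    (hu : ∀ i, u i = if i < I ∧ recd p W (thr p i) ω O ∈ states M m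
      then some (recd p W (thr p i) ω O) else none)
    (i0 : ℕ) (hi0 : i0 < I) (hs : recd p W (thr p i0) ω O ∈ states M m) :
    ∃ i, i ≤ i0 ∧ estFrom p W φ ω u = (p : ℝ) / (thr p i) *
      X p (thr p i) (fun c => φ c (win W O c)) O ω := by
  classical
  have hex : ∃ i, (u i).isSome := ⟨i0, by rw [hu, if_pos ⟨hi0, hs⟩]; rfl⟩
  refine ⟨Nat.find hex, Nat.find_min' hex (by rw [hu, if_pos ⟨hi0, hs⟩]; rfl), ?_⟩
  unfold estFrom
  rw [dif_pos hex]
  have hsp := Nat.find_spec hex
  have hval : u (Nat.find hex) = some (recd p W (thr p (Nat.find hex)) ω O) := by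
    have h1 := hu (Nat.find hex)
    split_ifs at h1 with h2
    · exact h1
    · rw [h1] at hsp; simp at hsp
  rw [hval]
  simp only [Option.getD_some]
  rw [X_recd]

section
variable {p : ℕ} [hp : Fact p.Prime]

/-- The exact case. -/
theorem estFrom_exact (W M m I : ℕ) (φ : ℕ × ℕ → Finset (ℕ × ℕ) → ℝ) (ω : Seed p)
    (O : Finset (ℕ × ℕ)) (u : ℕ → Option (Finset (ℕ × ℕ)))
    (hu : ∀ i, u i = if i < I ∧ recd p W (thr p i) ω O ∈ states M m
      then some (recd p W (thr p i) ω O) else none)
    (hI : 0 < I) (hO : O ⊆ Finset.range M ×ˢ Finset.range M) (hc : O.card ≤ m) :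
    estFrom p W φ ω u = ∑ c ∈ O, φ c (win W O c) := by
  have h0 : recd p W (thr p 0) ω O = O := by rw [thr_zero]; exact recd_top W ω O
  obtain ⟨i, hi, he⟩ := estFrom_eq p W M m I φ ω O u hu 0 hI (by
    rw [h0, mem_states]; exact ⟨hO, hc⟩)
  have : i = 0 := by omega
  subst this
  rw [he, thr_zero, X_top]
  have hp0 : (p : ℝ) ≠ 0 := by exact_mod_cast hp.out.ne_zero
  rw [div_self hp0, one_mul]

end

end Pool.Agent.H29.Stream
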