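import Pool.Agent.H29.Stream.SubState
import Pool.Agent.H29.Stream.Main

/-!
The streaming theorem with sub-automata in the sampled cells and a random parameter.
-/

set_option autoImplicit false

namespace Pool.Agent.H29.Stream

/-- The estimate from the stored partial functions of all levels. -/
noncomputable def est2 {M : ℕ} {S : Type} (p : ℕ) (F : ℕ × ℕ → S → ℝ)
    (u : ℕ → Option (Fin M × Fin M → Option S)) : ℝ :=
  open Classical in
  if h : ∃ i, (u i).isSome = true then
    (p : ℝ) / (thr p (Nat.find h)) *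
      ∑ Q : Fin M × Fin M, (((u (Nat.find h)).bind (fun f => f Q)).elim 0 (fun σ => F (cc Q) σ))
  else 0

theorem recd_zero (p q : ℕ) (ω : Seed p) (O : Finset (ℕ × ℕ))
    [DecidablePred (samp p ω q)] : recd p 0 q ω O = O.filter (samp p ω q) := by
  classical
  unfold recd
  ext d
  rw [Finset.mem_filter, Finset.mem_filter]
  constructor
  · rintro ⟨h1, c, h2, h3⟩
    have : c = d := by
      unfold near at h2
      exact Prod.ext (by omega) (by omega)
    rw [this] at h3
    exact ⟨h1, h3⟩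
  · rintro ⟨h1, h2⟩
    exact ⟨h1, d, near_self 0 d, h2⟩

theorem est2_eq {M : ℕ} {S : Type} (p m I : ℕ) (ω : Seed p) (F : ℕ × ℕ → S → ℝ)
    (hit : ℕ × ℕ → ℕ × ℕ → Prop) (init : ℕ × ℕ → S) (stp : ℕ × ℕ → S → ℕ × ℕ → S)
    (l : List (ℕ × ℕ)) (u : ℕ → Option (Fin M × Fin M → Option S))
    (hu : ∀ i, u i = if i < I ∧ (Finset.univ.filter (fun Q =>
        (recf hit init stp (samp p ω (thr p i)) M l Q).isSome = true)).card ≤ m
      then some (recf hit init stp (samp p ω (thr p i)) M l) else none)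
    (u' : ℕ → Option (Finset (ℕ × ℕ)))
    (hu' : ∀ i, u' i = if i < I ∧ recd p 0 (thr p i) ω (act hit M l) ∈ states M m
      then some (recd p 0 (thr p i) ω (act hit M l)) else none) :
    est2 p F u = estFrom p 0 (fun c _ => F c (run hit init stp c l)) ω u' := by
  classical
  have hcard : ∀ i, ((Finset.univ.filter (fun Q =>
      (recf hit init stp (samp p ω (thr p i)) M l Q).isSome = true)).card ≤ m) ↔
      recd p 0 (thr p i) ω (act hit M l) ∈ states M m := by
    intro i
    rw [recd_zero, mem_states, ← image_supp_recf hit init stp (samp p ω (thr p i)) M l,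
      Finset.card_image_of_injective _ cc_injective]
    constructor
    · intro h
      refine ⟨?_, h⟩
      rw [image_supp_recf]
      exact (Finset.filter_subset _ _).trans (act_subset hit M l)
    · exact fun h => h.2
  have hiff : ∀ i, (u i).isSome = true ↔ (u' i).isSome = true := by
    intro i
    rw [hu i, hu' i]
    by_cases h : i < I ∧ recd p 0 (thr p i) ω (act hit M l) ∈ states M m
    · rw [if_pos h, if_pos ⟨h.1, (hcard i).2 h.2⟩]; simp
    · rw [if_neg h, if_neg (fun h' => h ⟨h'.1, (hcard i).1 h'.2⟩)]; simp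
  unfold est2 estFrom
  by_cases h : ∃ i, (u i).isSome = true
  · have h' : ∃ i, (u' i).isSome = true := by
      obtain ⟨i, hi⟩ := h
      exact ⟨i, (hiff i).1 hi⟩
    rw [dif_pos h, dif_pos h']
    have hfind : Nat.find h = Nat.find h' := Nat.find_congr' (fun {n} => hiff n)
    rw [← hfind]
    set i := Nat.find h with hi
    congr 1
    have hs : (u i).isSome = true := Nat.find_spec h
    have hi2 : i < I ∧ (Finset.univ.filter (fun Q =>
        (recf hit init stp (samp p ω (thr p i)) M l Q).isSome = true)).card ≤ m := by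
      by_contra hcon
      rw [hu i, if_neg hcon] at hs
      simp at hs
    rw [hu i, if_pos hi2, hu' i, if_pos ⟨hi2.1, (hcard i).1 hi2.2⟩]
    simp only [Option.bind_some, Option.getD_some]
    unfold X
    rw [recd_zero, Finset.sum_filter]
    have e1 : ∀ c ∈ act hit M l, (if samp p ω (thr p i) c then
        (if samp p ω (thr p i) c then F c (run hit init stp c l) else 0) else 0)
        = if samp p ω (thr p i) c then F c (run hit init stp c l) else 0 := by
      intro c _
      split_ifs <;> rfl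
    rw [Finset.sum_congr rfl e1, ← Finset.sum_filter,
      ← image_supp_recf hit init stp (samp p ω (thr p i)) M l,
      Finset.sum_image (fun a _ b _ hab => cc_injective hab), Finset.sum_filter]
    apply Finset.sum_congr rfl
    intro Q _
    unfold recf
    by_cases hl : samp p ω (thr p i) (cc Q) ∧ ∃ x ∈ l, hit (cc Q) x
    · rw [if_pos hl]; simp
    · rw [if_neg hl]; simp
  · have h' : ¬ ∃ i, (u' i).isSome = true := by
      rintro ⟨i, hi⟩
      exact h ⟨i, (hiff i).2 hi⟩
    rw [dif_neg h, dif_neg h']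

/-- The statistic. -/
noncomputable def sstat {S : Type} (M : ℕ) (hit : ℕ × ℕ → ℕ × ℕ → Prop) (init : ℕ × ℕ → S)
    (stp : ℕ × ℕ → S → ℕ × ℕ → S) (F : ℕ × ℕ → S → ℝ) (l : List (ℕ × ℕ)) : ℝ :=
  ∑ c ∈ act hit M l, F c (run hit init stp c l)

theorem foldl_dprod {ι : Type} {St : ι → Type} (step : ∀ i, St i → ℕ × ℕ → St i)
    (l : List (ℕ × ℕ)) : ∀ s : (∀ i, St i), l.foldl (fun s x => fun i => step i (s i) x) s
      = fun i => l.foldl (step i) (s i) := by
  induction l with
  | nil => intro s; rfl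
  | cons x l ih => intro s; rw [List.foldl_cons, ih]; rfl

/-- **The streaming theorem.** -/
theorem seedStr_stat (q A a : ℕ) (X : ℕ → List (ℕ × ℕ) → Set ℝ)
    (h : ∀ Δ : ℕ, 1 ≤ Δ → ∃ (M J R : ℕ) (Θ : Type) (_ : Fintype Θ) (_ : Nonempty Θ)
      (S : ℕ → Type) (_ : ∀ j, Fintype (S j)) (hit : ℕ → Θ → ℕ × ℕ → ℕ × ℕ → Prop)
      (init : ∀ j, Θ → ℕ × ℕ → S j) (stp : ∀ j, Θ → ℕ × ℕ → S j → ℕ × ℕ → S j)
      (φ : Fin R → ∀ j, Θ → ℕ × ℕ → S j → ℝ) (out : Θ → (Fin R → ℕ → ℝ) → ℝ),
      M ≤ 2 ^ (A * (Nat.log 2 Δ + 1) ^ a) ∧ J ≤ A * (Nat.log 2 Δ + 1) ^ a ∧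
      R ≤ A * (Nat.log 2 Δ + 1) ^ a ∧ Fintype.card Θ ≤ 2 ^ (A * (Nat.log 2 Δ + 1) ^ a) ∧
      (∀ j, j < J → Fintype.card (S j) ≤ 2 ^ (A * (Nat.log 2 Δ + 1) ^ a)) ∧
      (∀ r j θ c σ, |φ r j θ c σ| ≤ 1) ∧
      ∀ l : List (ℕ × ℕ), InBox Δ l → ∃ Bad : Finset Θ, 2 * q * Bad.card ≤ Fintype.card Θ ∧
        ∀ θ, θ ∉ Bad → ∀ T : Fin R → ℕ → ℝ,
          (∀ r j, j < J →
            |T r j - sstat M (hit j θ) (init j θ) (stp j θ) (φ r j θ) l|
                * ((A * (Nat.log 2 Δ + 1) ^ a : ℕ) : ℝ) ≤ (act (hit j θ) M l).card ∧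
            ((act (hit j θ) M l).card ≤ A * (Nat.log 2 Δ + 1) ^ a →
              T r j = sstat M (hit j θ) (init j θ) (stp j θ) (φ r j θ) l)) →
          out θ T ∈ X Δ l) :
    SeedStr q X := by
  classical
  let Q : ℕ → ℕ := fun D => A * D ^ a
  let E : ℕ → ℕ := fun D => Q D + 1
  let H : ℕ → ℕ := fun D => 2 * q * (Q D * (Q D + 1)) + 1
  let m : ℕ → ℕ := fun D => 8 * (2 * 0 + 1) ^ 2 * H D ^ 2 * E D ^ 2
  let I : ℕ → ℕ := fun D => 2 * Q D + 3
  let Y : ℕ → ℕ := fun D => 3 * (2 * Q D + 2) + Q D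
    + ((3 * Q D + 1) * m D + 1) * (Q D * I D)
  have hQ : PB Q := (PB.const A).mul (PB.id.pow a)
  have hE : PB E := hQ.add (PB.const 1)
  have hH : PB H := ((PB.const (2 * q)).mul (hQ.mul (hQ.add (PB.const 1)))).add (PB.const 1)
  have hm : PB m := ((PB.const (8 * (2 * 0 + 1) ^ 2)).mul (hH.pow 2)).mul (hE.pow 2)
  have h2Q : PB (fun D => 2 * Q D) := (PB.const 2).mul hQ
  have hI : PB I := h2Q.add (PB.const 3)
  have hY : PB Y := (((PB.const 3).mul (h2Q.add (PB.const 2))).add hQ).add
    (((((((PB.const 3).mul hQ).add (PB.const 1))).mul hm).add (PB.const 1)).mul (hQ.mul hI))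
  obtain ⟨C, k, hCk⟩ := hY
  refine ⟨C, k, fun Δ hΔ => ?_⟩
  obtain ⟨M, J, R, Θ, iΘ, nΘ, S, iS, hit, init, stp, φ, out, hM, hJ, hR, hΘ, hS, hφ, hmain⟩ :=
    h Δ hΔ
  obtain ⟨D, hD⟩ : ∃ D, D = Nat.log 2 Δ + 1 := ⟨_, rfl⟩
  rw [← hD] at hM hJ hR hΘ hS hmain ⊢
  have hD1 : 1 ≤ D := by omega
  have hMQ : M ≤ 2 ^ Q D := hM
  have hJQ : J ≤ Q D := hJ
  have hRQ : R ≤ Q D := hR
  have hMM : M * M ≤ 2 ^ (2 * Q D) := by
    calc M * M ≤ 2 ^ Q D * 2 ^ Q D := Nat.mul_le_mul hMQ hMQ
      _ = 2 ^ (2 * Q D) := by rw [← pow_add]; congr 1; ring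
  obtain ⟨p, hpp, hpl, hpu⟩ := Nat.exists_prime_lt_and_le_two_mul (M * M + 1) (by omega)
  have hfact : Fact p.Prime := ⟨hpp⟩
  have hone : 1 ≤ 2 ^ (2 * Q D) := Nat.one_le_two_pow
  have hpU : p ≤ 2 ^ (2 * Q D + 2) := by
    calc p ≤ 2 * (M * M + 1) := hpu
      _ ≤ 4 * 2 ^ (2 * Q D) := by omega
      _ = 2 ^ (2 * Q D + 2) := by rw [pow_add]; ring
  have hpI : p < 2 ^ (I D) :=
    lt_of_le_of_lt hpU (Nat.pow_lt_pow_right (by norm_num) (by simp only [I]; omega))
  -- the seeded algorithm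
  let St : Fin J × Fin (I D) → Type := fun ji => Option (PF M (m D) (S ji.1))
  let uu : (∀ ji, St ji) → (j : ℕ) → (i : ℕ) → Option (Fin M × Fin M → Option (S j)) :=
    fun s j i => if h : j < J ∧ i < I D then
      (s (⟨j, h.1⟩, ⟨i, h.2⟩)).map Subtype.val else none
  let est : (∀ ji, St ji) → Θ → Fin R → ℕ → ℝ :=
    fun s θ r j => est2 p (φ r j θ) (uu s j)
  let initS : Seed p × Θ → (∀ ji, St ji) := fun ω ji => pnrm M (m D) (S ji.1) (fun _ => none)
  let stepS : Seed p × Θ → (∀ ji, St ji) → ℕ × ℕ → (∀ ji, St ji) :=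
    fun ω s x => fun ji => pstep (hit ji.1 ω.2) (init ji.1 ω.2) (stp ji.1 ω.2)
      (samp p ω.1 (thr p ji.2)) M (m D) (s ji) x
  refine ⟨Seed p × Θ, ∀ ji, St ji, inferInstance, inferInstance, inferInstance,
    ⟨fun _ => none⟩, initS, stepS, fun ω s => out ω.2 (est s ω.2), ?_, ?_⟩
  · -- number of states
    have hc1 : Fintype.card (Seed p) = p ^ 3 := by
      simp only [Seed, Fintype.card_prod, ZMod.card]; ring
    have hc2 : Fintype.card (∀ ji, St ji) ≤ (2 ^ ((3 * Q D + 1) * m D + 1)) ^ (Q D * I D) := by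
      rw [Fintype.card_pi]
      have hfac : ∀ ji ∈ (Finset.univ : Finset (Fin J × Fin (I D))),
          Fintype.card (St ji) ≤ 2 ^ ((3 * Q D + 1) * m D + 1) := by
        intro ji _
        have h1 : Fintype.card (St ji) = Fintype.card (PF M (m D) (S ji.1)) + 1 :=
          Fintype.card_option
        rw [h1]
        have h2 := card_PF_le M (m D) (S ji.1)
        have h3 : M * M * Fintype.card (S ji.1) + 1 ≤ 2 ^ (3 * Q D + 1) := by
          have h4 : M * M * Fintype.card (S ji.1) ≤ 2 ^ (2 * Q D) * 2 ^ (Q D) :=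
            Nat.mul_le_mul hMM (hS ji.1 ji.1.2)
          have h5 : 2 ^ (2 * Q D) * 2 ^ (Q D) = 2 ^ (3 * Q D) := by
            rw [← pow_add]; congr 1; ring
          have h6 : 1 ≤ 2 ^ (3 * Q D) := Nat.one_le_two_pow
          rw [pow_succ]; omega
        have h7 : (M * M * Fintype.card (S ji.1) + 1) ^ (m D) ≤ 2 ^ ((3 * Q D + 1) * m D) := by
          calc _ ≤ (2 ^ (3 * Q D + 1)) ^ (m D) := Nat.pow_le_pow_left h3 _
            _ = 2 ^ ((3 * Q D + 1) * m D) := by rw [← pow_mul]
        have h8 : 1 ≤ 2 ^ ((3 * Q D + 1) * m D) := Nat.one_le_two_pow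
        rw [pow_succ]
        omega
      calc ∏ ji, Fintype.card (St ji)
          ≤ ∏ ji : Fin J × Fin (I D), 2 ^ ((3 * Q D + 1) * m D + 1) :=
            Finset.prod_le_prod' hfac
        _ = (2 ^ ((3 * Q D + 1) * m D + 1)) ^ (J * I D) := by
            rw [Finset.prod_const, Finset.card_univ, Fintype.card_prod, Fintype.card_fin,
              Fintype.card_fin]
        _ ≤ (2 ^ ((3 * Q D + 1) * m D + 1)) ^ (Q D * I D) :=
            Nat.pow_le_pow_right (by positivity) (Nat.mul_le_mul_right _ hJQ)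
    rw [Fintype.card_prod, hc1]
    calc p ^ 3 * Fintype.card Θ * Fintype.card (∀ ji, St ji)
        ≤ (2 ^ (2 * Q D + 2)) ^ 3 * 2 ^ (Q D)
          * (2 ^ ((3 * Q D + 1) * m D + 1)) ^ (Q D * I D) := by
          apply Nat.mul_le_mul _ hc2
          exact Nat.mul_le_mul (Nat.pow_le_pow_left hpU 3) hΘ
      _ = 2 ^ (Y D) := by
          rw [← pow_mul, ← pow_mul, ← pow_add, ← pow_add]
          congr 1
          simp only [Y]
          ring
      _ ≤ 2 ^ (C * D ^ k) := Nat.pow_le_pow_right (by norm_num) (hCk D hD1)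
  · intro l hl
    obtain ⟨Bad, hBad, hgood⟩ := hmain l hl
    have hfold : ∀ ω, l.foldl (stepS ω) (initS ω)
        = fun (ji : Fin J × Fin (I D)) => pnrm M (m D) (S ji.1) (recf (hit ji.1 ω.2) (init ji.1 ω.2) (stp ji.1 ω.2)
          (samp p ω.1 (thr p ji.2)) M l) := by
      intro ω
      have h1 := foldl_dprod (ι := Fin J × Fin (I D)) (St := St)
        (fun (ji : Fin J × Fin (I D)) => pstep (hit ji.1 ω.2) (init ji.1 ω.2)
        (stp ji.1 ω.2) (samp p ω.1 (thr p ji.2)) M (m D)) l (initS ω)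
      refine h1.trans ?_
      funext ji
      exact foldl_pstep (hit ji.1 ω.2) (init ji.1 ω.2) (stp ji.1 ω.2)
        (samp p ω.1 (thr p ji.2)) M (m D) l
    have hEpos : 0 < E D := Nat.succ_pos _
    have hHpos : 0 < H D := Nat.succ_pos _
    have hscale : ∀ (θ : Θ) (j : Fin J), ∃ B : Finset (Seed p),
        B.card * H D ≤ (R + 1) * (p * p * p) ∧
        ∀ ω, ω ∉ B → ∀ r : Fin R,
          |est (l.foldl (stepS (ω, θ)) (initS (ω, θ))) θ r j
              - sstat M (hit j θ) (init j θ) (stp j θ) (φ r j θ) l| * E D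
            ≤ (act (hit j θ) M l).card ∧
          ((act (hit j θ) M l).card ≤ E D →
            est (l.foldl (stepS (ω, θ)) (initS (ω, θ))) θ r j
              = sstat M (hit j θ) (init j θ) (stp j θ) (φ r j θ) l) := by
      intro θ j
      let u' : Seed p → ℕ → Option (Finset (ℕ × ℕ)) := fun ω i =>
        if i < I D ∧ recd p 0 (thr p i) ω (act (hit j θ) M l) ∈ states M (m D)
          then some (recd p 0 (thr p i) ω (act (hit j θ) M l)) else none
      obtain ⟨B, hB1, hB2⟩ := one_scale (p := p) 0 M (m D) (H D) (E D) (I D) R (by omega) le_rfl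
        hHpos hEpos hpI (act (hit j θ) M l) (act_subset _ M l)
        (fun r c _ => φ r j θ c (run (hit j θ) (init j θ) (stp j θ) c l))
        (fun r c s => hφ r j θ c _) u' (fun ω i => rfl)
      refine ⟨B, hB1, fun ω hω r => ?_⟩
      have hest : est (l.foldl (stepS (ω, θ)) (initS (ω, θ))) θ r j
          = estFrom p 0 (fun c _ => φ r j θ c (run (hit j θ) (init j θ) (stp j θ) c l)) ω
            (u' ω) := by
        apply est2_eq p (m D) (I D) ω (φ r j θ) (hit j θ) (init j θ) (stp j θ) l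
        · intro i
          simp only [uu, hfold]
          by_cases hi : i < I D
          · rw [dif_pos ⟨j.2, hi⟩]
            unfold pnrm
            by_cases hst : (Finset.univ.filter (fun Q =>
              (recf (hit j θ) (init j θ) (stp j θ) (samp p ω (thr p i)) M l Q).isSome
                = true)).card ≤ m D
            · rw [dif_pos hst, if_pos ⟨hi, hst⟩]; rfl
            · rw [dif_neg hst, if_neg (fun h => hst h.2)]; rfl
          · rw [dif_neg (fun h => hi h.2), if_neg (fun h => hi h.1)]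
        · intro i; rfl
      rw [hest]
      exact hB2 ω hω r
    choose B hB1 hB2 using hscale
    -- the bad pairs
    have hsub : (Finset.univ.filter (fun ω : Seed p × Θ =>
        out ω.2 (est (l.foldl (stepS ω) (initS ω)) ω.2) ∉ X Δ l))
        ⊆ (Finset.univ ×ˢ Bad) ∪ Finset.univ.biUnion (fun θ : Θ =>
          Finset.univ.biUnion (fun j : Fin J => (B θ j) ×ˢ {θ})) := by
      intro ω hω
      rw [Finset.mem_filter] at hω
      by_contra hcon
      apply hω.2
      have hθ : ω.2 ∉ Bad := fun h => hcon (Finset.mem_union_left _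
        (Finset.mem_product.2 ⟨Finset.mem_univ _, h⟩))
      apply hgood ω.2 hθ
      intro r j hj
      have hωj : ω.1 ∉ B ω.2 ⟨j, hj⟩ := by
        intro h
        apply hcon
        apply Finset.mem_union_right
        rw [Finset.mem_biUnion]
        refine ⟨ω.2, Finset.mem_univ _, ?_⟩
        rw [Finset.mem_biUnion]
        exact ⟨⟨j, hj⟩, Finset.mem_univ _, Finset.mem_product.2
          ⟨h, Finset.mem_singleton.2 rfl⟩⟩
      obtain ⟨h1, h2⟩ := hB2 ω.2 ⟨j, hj⟩ ω.1 hωj r
      refine ⟨?_, fun h => h2 (h.trans (Nat.le_succ _))⟩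
      refine le_trans ?_ h1
      apply mul_le_mul_of_nonneg_left _ (abs_nonneg _)
      exact_mod_cast Nat.le_succ _
    have hc1 : Fintype.card (Seed p) = p * p * p := by
      simp only [Seed, Fintype.card_prod, ZMod.card]; ring
    have hBθ : ∀ θ, 2 * q * (∑ j : Fin J, (B θ j).card) ≤ p * p * p := by
      intro θ
      have h1 : (∑ j : Fin J, (B θ j).card) * H D ≤ Q D * (Q D + 1) * (p * p * p) := by
        calc (∑ j : Fin J, (B θ j).card) * H D = ∑ j : Fin J, (B θ j).card * H D := by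
              rw [Finset.sum_mul]
          _ ≤ ∑ j : Fin J, (R + 1) * (p * p * p) := Finset.sum_le_sum (fun j _ => hB1 θ j)
          _ = J * ((R + 1) * (p * p * p)) := by
              rw [Finset.sum_const, Finset.card_univ, Fintype.card_fin, smul_eq_mul]
          _ ≤ Q D * ((Q D + 1) * (p * p * p)) := by
              apply Nat.mul_le_mul hJQ
              apply Nat.mul_le_mul_right
              omega
          _ = Q D * (Q D + 1) * (p * p * p) := by ring
      set b := ∑ j : Fin J, (B θ j).card with hb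
      rcases Nat.eq_zero_or_pos (Q D * (Q D + 1)) with h0 | h0
      · rw [h0, zero_mul] at h1
        have : b = 0 := by
          rcases Nat.eq_zero_or_pos b with h | h
          · exact h
          · exfalso
            have := Nat.mul_pos h hHpos
            omega
        rw [this]
        omega
      · have h2 : 2 * q * b * (Q D * (Q D + 1)) ≤ p * p * p * (Q D * (Q D + 1)) := by
          calc 2 * q * b * (Q D * (Q D + 1)) = b * (2 * q * (Q D * (Q D + 1))) := by ring
            _ ≤ b * H D := Nat.mul_le_mul_left _ (Nat.le_succ _)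
            _ ≤ Q D * (Q D + 1) * (p * p * p) := h1
            _ = p * p * p * (Q D * (Q D + 1)) := by ring
        exact Nat.le_of_mul_le_mul_right h2 h0
    have hcount := Finset.card_le_card hsub
    have hcount2 : (Finset.univ.filter (fun ω : Seed p × Θ =>
        out ω.2 (est (l.foldl (stepS ω) (initS ω)) ω.2) ∉ X Δ l)).card
        ≤ p * p * p * Bad.card + ∑ θ : Θ, ∑ j : Fin J, (B θ j).card := by
      refine hcount.trans ((Finset.card_union_le _ _).trans ?_)
      apply Nat.add_le_add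
      · rw [Finset.card_product, Finset.card_univ, hc1]
      · refine Finset.card_biUnion_le.trans (Finset.sum_le_sum (fun θ _ => ?_))
        refine Finset.card_biUnion_le.trans (Finset.sum_le_sum (fun j _ => ?_))
        rw [Finset.card_product, Finset.card_singleton, mul_one]
    have hsum : 2 * q * (∑ θ : Θ, ∑ j : Fin J, (B θ j).card)
        ≤ Fintype.card Θ * (p * p * p) := by
      calc 2 * q * (∑ θ : Θ, ∑ j : Fin J, (B θ j).card)
          = ∑ θ : Θ, 2 * q * ∑ j : Fin J, (B θ j).card := by rw [Finset.mul_sum]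
        _ ≤ ∑ θ : Θ, p * p * p := Finset.sum_le_sum (fun θ _ => hBθ θ)
        _ = Fintype.card Θ * (p * p * p) := by
            rw [Finset.sum_const, Finset.card_univ, smul_eq_mul]
    rw [Fintype.card_prod, hc1]
    have h9 : 2 * (q * (p * p * p * Bad.card + ∑ θ : Θ, ∑ j : Fin J, (B θ j).card))
        ≤ 2 * (p * p * p * Fintype.card Θ) := by
      calc 2 * (q * (p * p * p * Bad.card + ∑ θ : Θ, ∑ j : Fin J, (B θ j).card))
          = p * p * p * (2 * q * Bad.card)
            + 2 * q * (∑ θ : Θ, ∑ j : Fin J, (B θ j).card) := by ring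
        _ ≤ p * p * p * Fintype.card Θ + Fintype.card Θ * (p * p * p) :=
            Nat.add_le_add (Nat.mul_le_mul_left _ hBad) hsum
        _ = 2 * (p * p * p * Fintype.card Θ) := by ring
    exact (Nat.mul_le_mul_left q hcount2).trans (Nat.le_of_mul_le_mul_left h9 (by norm_num))

end Pool.Agent.H29.Stream
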