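import Pool.Agent.H29.Stream.Scale
import Pool.Agent.H29.Stream.Seed

/-!
Sampled cells with sub-automata: the stored partial functions, their number, the transition
function and its invariant.
-/

set_option autoImplicit false

namespace Pool.Agent.H29.Stream

/-- Number of small subsets of a finite type. -/
theorem card_small_finsets (α : Type) [Fintype α] [DecidableEq α] (m : ℕ) :
    Fintype.card {t : Finset α // t.card ≤ m} ≤ (Fintype.card α + 1) ^ m := by
  rw [Fintype.card_subtype]
  have h1 : (Finset.univ.filter (fun t : Finset α => t.card ≤ m)) ⊆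
      (Finset.range (m + 1)).biUnion (fun k => Finset.powersetCard k Finset.univ) := by
    intro R hR
    rw [Finset.mem_filter] at hR
    rw [Finset.mem_biUnion]
    exact ⟨R.card, Finset.mem_range.2 (Nat.lt_succ_of_le hR.2),
      Finset.mem_powersetCard.2 ⟨Finset.subset_univ _, rfl⟩⟩
  calc _ ≤ _ := Finset.card_le_card h1
    _ ≤ ∑ k ∈ Finset.range (m + 1),
        (Finset.powersetCard k (Finset.univ : Finset α)).card := Finset.card_biUnion_le
    _ = ∑ k ∈ Finset.range (m + 1), (Fintype.card α).choose k := by
      apply Finset.sum_congr rfl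
      intro k _
      rw [Finset.card_powersetCard, Finset.card_univ]
    _ ≤ ∑ k ∈ Finset.range (m + 1), (Fintype.card α) ^ k :=
      Finset.sum_le_sum (fun k _ => Nat.choose_le_pow _ _)
    _ ≤ (Fintype.card α + 1) ^ m := geom_le _ _

/-- Partial functions with small support. -/
abbrev PF (M m : ℕ) (S : Type) : Type :=
  {f : Fin M × Fin M → Option S //
    (Finset.univ.filter (fun Q => (f Q).isSome = true)).card ≤ m}

noncomputable instance PF.fintype (M m : ℕ) (S : Type) [Fintype S] : Fintype (PF M m S) := by
  classical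
  exact Fintype.ofFinite _

theorem card_PF_le (M m : ℕ) (S : Type) [Fintype S] :
    Fintype.card (PF M m S) ≤ (M * M * Fintype.card S + 1) ^ m := by
  classical
  have h := card_small_finsets ((Fin M × Fin M) × S) m
  have h2 : Fintype.card ((Fin M × Fin M) × S) = M * M * Fintype.card S := by
    simp [Fintype.card_prod]
  rw [h2] at h
  refine le_trans ?_ h
  -- the graph
  let g : PF M m S → {t : Finset ((Fin M × Fin M) × S) // t.card ≤ m} := fun f =>
    ⟨Finset.univ.filter (fun y : (Fin M × Fin M) × S => f.1 y.1 = some y.2), by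
      refine le_trans ?_ f.2
      apply Finset.card_le_card_of_injOn Prod.fst
      · intro y hy
        simp only [Finset.coe_filter, Finset.mem_univ, true_and, Set.mem_ofPred_eq] at hy ⊢
        rw [hy]; rfl
      · intro y hy y' hy' hyy
        simp only [Finset.coe_filter, Finset.mem_univ, true_and, Set.mem_ofPred_eq] at hy hy'
        rw [hyy] at hy
        rw [hy] at hy'
        exact Prod.ext hyy (Option.some.inj hy')⟩
  apply Fintype.card_le_of_injective g
  intro f f' hff
  apply Subtype.ext
  funext Q
  have h1 : ∀ y : (Fin M × Fin M) × S, f.1 y.1 = some y.2 ↔ f'.1 y.1 = some y.2 := by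
    intro y
    have := congrArg (fun t => y ∈ t.1) hff
    simpa [g] using this
  cases hf : f.1 Q with
  | none =>
    cases hf' : f'.1 Q with
    | none => rfl
    | some σ => rw [(h1 (Q, σ)).2 hf'] at hf; exact absurd hf (by simp)
  | some σ => exact ((h1 (Q, σ)).1 hf).symm

/-- Normalization. -/
noncomputable def pnrm (M m : ℕ) (S : Type) (f : Fin M × Fin M → Option S) :
    Option (PF M m S) :=
  if h : (Finset.univ.filter (fun Q => (f Q).isSome = true)).card ≤ m then some ⟨f, h⟩ else none

/-- The cell of an index. -/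
def cc {M : ℕ} (Q : Fin M × Fin M) : ℕ × ℕ := ((Q.1 : ℕ), (Q.2 : ℕ))

theorem cc_injective {M : ℕ} : Function.Injective (cc (M := M)) := by
  intro Q Q' h
  simp only [cc, Prod.mk.injEq] at h
  exact Prod.ext (Fin.ext h.1) (Fin.ext h.2)

section
variable {S : Type} (hit : ℕ × ℕ → ℕ × ℕ → Prop) (init : ℕ × ℕ → S)
  (stp : ℕ × ℕ → S → ℕ × ℕ → S)

open Classical in
/-- The sub-automaton of the cell `Q` fed with the points of `l` that hit `Q`. -/
noncomputable def run (Q : ℕ × ℕ) (l : List (ℕ × ℕ)) : S :=
  l.foldl (fun σ x => if hit Q x then stp Q σ x else σ) (init Q)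

open Classical in
/-- The active cells. -/
noncomputable def act (M : ℕ) (l : List (ℕ × ℕ)) : Finset (ℕ × ℕ) :=
  (Finset.range M ×ˢ Finset.range M).filter (fun Q => ∃ x ∈ l, hit Q x)

open Classical in
/-- The recorded partial function. -/
noncomputable def recf (P : ℕ × ℕ → Prop) (M : ℕ) (l : List (ℕ × ℕ)) :
    Fin M × Fin M → Option S :=
  fun Q => if P (cc Q) ∧ ∃ x ∈ l, hit (cc Q) x then some (run hit init stp (cc Q) l) else none

open Classical in
/-- The update of the recorded partial function. -/
noncomputable def upd (P : ℕ × ℕ → Prop) (M : ℕ) (f : Fin M × Fin M → Option S) (x : ℕ × ℕ) :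
    Fin M × Fin M → Option S :=
  fun Q => if P (cc Q) ∧ hit (cc Q) x then some (stp (cc Q) ((f Q).getD (init (cc Q))) x)
    else f Q

/-- The transition function at one scale and one level. -/
noncomputable def pstep (P : ℕ × ℕ → Prop) (M m : ℕ) (s : Option (PF M m S)) (x : ℕ × ℕ) :
    Option (PF M m S) :=
  match s with
  | none => none
  | some f => pnrm M m S (upd hit init stp P M f.1 x)

theorem run_of_not_hit (Q : ℕ × ℕ) (l : List (ℕ × ℕ)) (h : ¬ ∃ x ∈ l, hit Q x) :
    run hit init stp Q l = init Q := by
  classical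
  unfold run
  have key : ∀ (l : List (ℕ × ℕ)), (¬ ∃ x ∈ l, hit Q x) → ∀ σ : S,
      l.foldl (fun σ x => if hit Q x then stp Q σ x else σ) σ = σ := by
    intro l
    induction l with
    | nil => intro _ σ; rfl
    | cons x l ih =>
      intro h σ
      rw [List.foldl_cons, if_neg (fun hx => h ⟨x, by simp, hx⟩)]
      exact ih (fun ⟨y, hy, hh⟩ => h ⟨y, by simp [hy], hh⟩) σ
  exact key l h _

theorem upd_recf (P : ℕ × ℕ → Prop) (M : ℕ) (l : List (ℕ × ℕ)) (x : ℕ × ℕ) :
    upd hit init stp P M (recf hit init stp P M l) x = recf hit init stp P M (l ++ [x]) := by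
  classical
  funext Q
  unfold upd recf
  have hrun : run hit init stp (cc Q) (l ++ [x])
      = if hit (cc Q) x then stp (cc Q) (run hit init stp (cc Q) l) x
        else run hit init stp (cc Q) l := by
    unfold run
    rw [List.foldl_append]
    rfl
  have hex : (∃ y ∈ l ++ [x], hit (cc Q) y) ↔ ((∃ y ∈ l, hit (cc Q) y) ∨ hit (cc Q) x) := by
    constructor
    · rintro ⟨y, hy, hh⟩
      rw [List.mem_append, List.mem_singleton] at hy
      rcases hy with hy | rfl
      · exact Or.inl ⟨y, hy, hh⟩
      · exact Or.inr hh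
    · rintro (⟨y, hy, hh⟩ | hh)
      · exact ⟨y, List.mem_append_left _ hy, hh⟩
      · exact ⟨x, by simp, hh⟩
  by_cases hP : P (cc Q)
  · by_cases hx : hit (cc Q) x
    · by_cases hl : ∃ y ∈ l, hit (cc Q) y
      · simp only [hP, hx, hl, hex, hrun, true_and, or_true, if_true, Option.getD_some]
      · simp only [hP, hx, hl, hex, hrun, true_and, or_true, if_true, if_false,
          Option.getD_none, run_of_not_hit hit init stp _ _ hl]
    · by_cases hl : ∃ y ∈ l, hit (cc Q) y
      · simp only [hP, hx, hl, hex, hrun, true_and, or_false, if_true, if_false, and_false]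
      · simp only [hP, hx, hl, hex, true_and, or_false, if_false, and_false]
  · simp only [hP, false_and, if_false]

theorem supp_recf_mono (P : ℕ × ℕ → Prop) (M : ℕ) (l : List (ℕ × ℕ)) (x : ℕ × ℕ) :
    (Finset.univ.filter (fun Q => (recf hit init stp P M l Q).isSome = true)).card
      ≤ (Finset.univ.filter
        (fun Q => (recf hit init stp P M (l ++ [x]) Q).isSome = true)).card := by
  classical
  apply Finset.card_le_card
  intro Q hQ
  rw [Finset.mem_filter] at hQ ⊢
  refine ⟨Finset.mem_univ _, ?_⟩
  have h := hQ.2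
  unfold recf at h ⊢
  by_cases hl : P (cc Q) ∧ ∃ y ∈ l, hit (cc Q) y
  · rw [if_pos]
    · rfl
    · obtain ⟨h1, y, hy, hh⟩ := hl
      exact ⟨h1, y, List.mem_append_left _ hy, hh⟩
  · rw [if_neg hl] at h
    exact absurd h (by simp)

theorem foldl_pstep (P : ℕ × ℕ → Prop) (M m : ℕ) (l : List (ℕ × ℕ)) :
    l.foldl (pstep hit init stp P M m) (pnrm M m S (fun _ => none))
      = pnrm M m S (recf hit init stp P M l) := by
  classical
  induction l using List.reverseRecOn with
  | nil =>
    have : recf hit init stp P M [] = fun _ => none := by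
      funext Q
      unfold recf
      rw [if_neg]
      rintro ⟨_, x, hx, _⟩
      simp at hx
    rw [this]; rfl
  | append_singleton l x ih =>
    rw [List.foldl_append, ih]
    show pstep hit init stp P M m (pnrm M m S (recf hit init stp P M l)) x = _
    by_cases h : (Finset.univ.filter
        (fun Q => (recf hit init stp P M l Q).isSome = true)).card ≤ m
    · have h1 : pnrm M m S (recf hit init stp P M l) = some ⟨recf hit init stp P M l, h⟩ := by
        unfold pnrm; rw [dif_pos h]
      rw [h1]
      unfold pstep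
      simp only
      rw [upd_recf]
    · have h1 : pnrm M m S (recf hit init stp P M l) = none := by
        unfold pnrm; rw [dif_neg h]
      have h2 : pnrm M m S (recf hit init stp P M (l ++ [x])) = none := by
        unfold pnrm
        rw [dif_neg]
        intro h3
        exact h ((supp_recf_mono hit init stp P M l x).trans h3)
      rw [h1, h2]
      rfl

theorem act_subset (M : ℕ) (l : List (ℕ × ℕ)) :
    act hit M l ⊆ Finset.range M ×ˢ Finset.range M := by
  classical
  exact Finset.filter_subset _ _

open Classical in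
theorem image_supp_recf (P : ℕ × ℕ → Prop) (M : ℕ) (l : List (ℕ × ℕ)) :
    (Finset.univ.filter (fun Q => (recf hit init stp P M l Q).isSome = true)).image cc
      = (act hit M l).filter P := by
  classical
  ext c
  rw [Finset.mem_image, Finset.mem_filter, act, Finset.mem_filter, Finset.mem_product,
    Finset.mem_range, Finset.mem_range]
  constructor
  · rintro ⟨Q, hQ, rfl⟩
    rw [Finset.mem_filter] at hQ
    have h := hQ.2
    unfold recf at h
    by_cases hl : P (cc Q) ∧ ∃ y ∈ l, hit (cc Q) y
    · exact ⟨⟨⟨Q.1.2, Q.2.2⟩, hl.2⟩, hl.1⟩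
    · rw [if_neg hl] at h
      exact absurd h (by simp)
  · rintro ⟨⟨⟨h1, h2⟩, h3⟩, h4⟩
    refine ⟨(⟨c.1, h1⟩, ⟨c.2, h2⟩), ?_, rfl⟩
    rw [Finset.mem_filter]
    refine ⟨Finset.mem_univ _, ?_⟩
    unfold recf
    rw [if_pos]
    · rfl
    · exact ⟨h4, h3⟩

end

end Pool.Agent.H29.Stream
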